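import Pool.Agent.Helper612.Fano.Stmt

set_option autoImplicit false
set_option linter.unusedVariables false
set_option linter.unusedSectionVars false

open MvPolynomial

namespace Fano612

section General

variable {ι : Type} [Fintype ι]

/-! ## Tools for the proof: charts isomorphic to affine space -/

/-- open subsets of affine space -/
def AOpen {σ : Type} (O : Set (σ → ℂ)) : Prop :=
  ∀ t ∈ O, ∃ p : MvPolynomial σ ℂ, eval t p ≠ 0 ∧ ∀ t', eval t' p ≠ 0 → t' ∈ O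

/-- regular functions on open subsets of affine space -/
def AReg {σ : Type} (O : Set (σ → ℂ)) (f : (σ → ℂ) → ℂ) : Prop :=
  ∀ t ∈ O, ∃ p q : MvPolynomial σ ℂ, eval t q ≠ 0 ∧
    ∀ t' ∈ O, eval t' q ≠ 0 → f t' = eval t' p / eval t' q

/-- A chart of `X`: linear coordinates `κ` on the ambient space such that the part of `X` where
`κ e 0 ≠ 0` is the set of all `e` with `(κ e 0) ^ D • e = Ψ (κ e)`. -/
structure Chart (X : Set (ι → ℂ)) (n D : ℕ) where
  κ : (ι → ℂ) →ₗ[ℂ] (Fin (n + 1) → ℂ)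
  Ψ : ι → MvPolynomial (Fin (n + 1)) ℂ
  hom : ∀ j, (Ψ j).IsHomogeneous (D + 1)
  right_inv : ∀ x, κ (fun j => eval x (Ψ j)) = x 0 ^ D • x
  mem_iff : ∀ e, κ e 0 ≠ 0 → (e ∈ X ↔ κ e 0 ^ D • e = fun j => eval (κ e) (Ψ j))

/-- the parametrisation belonging to a chart -/
noncomputable def Chart.ψ {X : Set (ι → ℂ)} {n D : ℕ} (c : Chart X n D) (x : Fin (n + 1) → ℂ) :
    ι → ℂ := fun j => eval x (c.Ψ j)

/-- the part of `X` covered by a chart -/
def Chart.V {X : Set (ι → ℂ)} {n D : ℕ} (c : Chart X n D) : Set (ι → ℂ) :=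
  {e | e ∈ X ∧ c.κ e 0 ≠ 0}

/-- the affine parametrisation -/
noncomputable def Chart.p {X : Set (ι → ℂ)} {n D : ℕ} (c : Chart X n D) (t : Fin n → ℂ) :
    ι → ℂ := c.ψ (Fin.cons 1 t)

/-- the affine coordinates -/
noncomputable def Chart.t {X : Set (ι → ℂ)} {n D : ℕ} (c : Chart X n D) (e : ι → ℂ) :
    Fin n → ℂ := fun b => c.κ e b.succ / c.κ e 0

/-- the tangent vector at `e` with coordinates `x` -/
noncomputable def Chart.fr {X : Set (ι → ℂ)} {n D : ℕ} (c : Chart X n D) (x : Fin (n + 1) → ℂ)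
    (e : ι → ℂ) : ι → ℂ := fun j =>
  (∑ b, x b * eval (c.κ e) (pderiv b (c.Ψ j))) / c.κ e 0 ^ D -
    D * x 0 * eval (c.κ e) (c.Ψ j) / c.κ e 0 ^ (D + 1)

/-- A connected system of charts covering `X`. -/
structure Atlas (X : Set (ι → ℂ)) (n D : ℕ) where
  K : Type
  c : K → Chart X n D
  good : K → K → Prop
  cover : ∀ e ∈ X, ∃ a, (c a).κ e 0 ≠ 0
  symm : ∀ a b, good a b → good b a
  lin : ∀ a b, good a b → ∃ l : (Fin (n + 1) → ℂ) →ₗ[ℂ] ℂ,
    (∀ e ∈ X, (c b).κ e 0 = l ((c a).κ e)) ∧ ∃ x, x 0 = 0 ∧ l x ≠ 0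
  expo : ∀ a b b', good a b → good a b' →
    ∃ e ∈ X, (c b).κ e 0 ≠ 0 ∧ (c b').κ e 0 ≠ 0 ∧ (c a).κ e 0 = 0
  conn : ∀ a b, Relation.ReflTransGen good a b
  edge : ∃ a b, good a b

end General

/-! ## The variety of commutative three-dimensional subalgebras of the `3 × 3` matrices -/

/-- index set of the coordinates: pairs of cubic tensors -/
abbrev Ix := Bool × Fin 3 × Fin 3 × Fin 3
/-- `3 × 3` matrices -/
abbrev M3 := Matrix (Fin 3) (Fin 3) ℂ
/-- basis vectors -/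
def bv (i : Fin 3) : Fin 3 → ℂ := Pi.single i 1
/-- determinant of three vectors -/
def det3 (u v w : Fin 3 → ℂ) : ℂ :=
  u 0 * (v 1 * w 2 - v 2 * w 1) - u 1 * (v 0 * w 2 - v 2 * w 0) + u 2 * (v 0 * w 1 - v 1 * w 0)
/-- polarisation of the cubic form `v ↦ det (v, P v, Q v)` -/
noncomputable def tri (P Q : M3) (u v w : Fin 3 → ℂ) : ℂ :=
  (det3 u (P.mulVec v) (Q.mulVec w) + det3 u (P.mulVec w) (Q.mulVec v) +
    det3 v (P.mulVec u) (Q.mulVec w) + det3 v (P.mulVec w) (Q.mulVec u) +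
    det3 w (P.mulVec u) (Q.mulVec v) + det3 w (P.mulVec v) (Q.mulVec u)) / 6
/-- the point belonging to the subalgebra `⟨1, P, Q⟩` -/
noncomputable def Phi (P Q : M3) : Ix → ℂ := fun x =>
  if x.1 then tri P.transpose Q.transpose (bv x.2.1) (bv x.2.2.1) (bv x.2.2.2)
  else tri P Q (bv x.2.1) (bv x.2.2.1) (bv x.2.2.2)
/-- the variety -/
def XX : Set (Ix → ℂ) := {e | e ≠ 0 ∧ ∃ P Q : M3, P * Q = Q * P ∧ e = Phi P Q}
/-- the two cubic forms of a point -/
noncomputable def cub (b : Bool) (e : Ix → ℂ) (u : Fin 3 → ℂ) : ℂ :=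
  ∑ i, ∑ j, ∑ l, e (b, i, j, l) * u i * u j * u l
/-- symmetric tensors -/
def Sym3 (e : Ix → ℂ) : Prop := ∀ b i j l, e (b, i, j, l) = e (b, j, i, l) ∧ e (b, i, j, l) = e (b, i, l, j)
/-- action of `g` with inverse `k` -/
noncomputable def act (g k : M3) : (Ix → ℂ) →ₗ[ℂ] (Ix → ℂ) where
  toFun e := fun x => match x with
    | (true, a, b, c) => g.det * ∑ i, ∑ j, ∑ l, e (true, i, j, l) * k a i * k b j * k c l
    | (false, a, b, c) => k.det * ∑ i, ∑ j, ∑ l, e (false, i, j, l) * g i a * g j b * g l c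
  map_add' := by
    intro e f
    funext ⟨b, i, j, l⟩
    cases b <;> simp only [Pi.add_apply, add_mul, Finset.sum_add_distrib, mul_add]
  map_smul' := by
    intro r e
    funext ⟨b, i, j, l⟩
    cases b <;> simp only [Pi.smul_apply, smul_eq_mul, RingHom.id_apply, Finset.mul_sum] <;>
      exact Finset.sum_congr rfl fun i _ => Finset.sum_congr rfl fun j _ =>
        Finset.sum_congr rfl fun l _ => by ring
/-- exchange of the two cubic forms -/
def swp : (Ix → ℂ) →ₗ[ℂ] (Ix → ℂ) where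
  toFun e := fun x => e (!x.1, x.2)
  map_add' := by intro a b; rfl
  map_smul' := by intro r a; rfl
/-- coordinates of the basic chart -/
def kap : (Ix → ℂ) →ₗ[ℂ] (Fin 7 → ℂ) where
  toFun e := ![e (false, 0, 0, 0), e (false, 0, 0, 1), e (false, 0, 0, 2), e (true, 1, 1, 1),
    e (true, 1, 1, 2), e (true, 1, 2, 2), e (true, 2, 2, 2)]
  map_add' := by
    intro a b
    funext x
    fin_cases x <;> rfl
  map_smul' := by
    intro r a
    funext x
    fin_cases x <;> rfl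
/-- the commuting matrices of the basic chart -/
def mP (x : Fin 7 → ℂ) : M3 :=
  !![-x 1 * x 0, -x 1 ^ 2 + x 5 * x 1 + x 6 * x 2 + 2 * x 5 ^ 2 - 2 * x 4 * x 6,
      x 3 * x 6 - x 1 * x 2 - x 4 * x 1 - x 5 * x 2 - x 4 * x 5;
    x 0 ^ 2, x 0 * (x 1 - x 5), x 0 * (x 2 + x 4);
    0, -x 0 * x 6, x 0 * x 5]
/-- the commuting matrices of the basic chart -/
def mQ (x : Fin 7 → ℂ) : M3 :=
  !![-x 2 * x 0, x 3 * x 6 - x 1 * x 2 - x 4 * x 1 - x 5 * x 2 - x 4 * x 5,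
      -x 2 ^ 2 + x 4 * x 2 + 2 * x 4 ^ 2 + x 3 * x 1 - 2 * x 3 * x 5;
    0, x 0 * x 4, -x 0 * x 3;
    x 0 ^ 2, x 0 * (x 1 + x 5), x 0 * (x 2 - x 4)]
/-- the element `diag(1,0,0)` and the block matrices commuting with it -/
def hh : M3 := !![1, 0, 0; 0, 0, 0; 0, 0, 0]
def qq (z : Fin 3 → ℂ) : M3 := !![0, 0, 0; 0, 0, z 1; 0, z 2, z 0]

section Extra

variable {ι : Type} [Fintype ι]

/-- a trivialisation of the line bundle `L` over the chart `c` -/
def Triv {X : Set (ι → ℂ)} {n D : ℕ} (c : Chart X n D) (L : LineBundle X)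
    (h : L.I → (ι → ℂ) → ℂ) : Prop :=
  (∀ i, IsSec (L.U i ∩ c.V) 0 (h i)) ∧ (∀ i, ∀ e ∈ L.U i ∩ c.V, h i e ≠ 0) ∧
    ∀ i j, ∀ e ∈ L.U i ∩ L.U j ∩ c.V, h i e = L.g i j e * h j e

/-- two functions proportional to the `m`-th power of the ratio of the equations of the charts -/
def Rat {X : Set (ι → ℂ)} {n D : ℕ} (L : LineBundle X) (c c' : Chart X n D)
    (h h' : L.I → (ι → ℂ) → ℂ) (r : ℂ) (m : ℤ) : Prop :=
  ∀ i, ∀ e ∈ L.U i, e ∈ c.V → e ∈ c'.V → h i e = r * (c'.κ e 0 / c.κ e 0) ^ m * h' i e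

/-- the volume form of a chart -/
noncomputable def Chart.vol {X : Set (ι → ℂ)} {n D : ℕ} (c : Chart X n D) :
    (ι → ℂ) [⋀^Fin (n + 1)]→ₗ[ℂ] ℂ :=
  (Matrix.detRowAlternating : (Fin (n + 1) → ℂ) [⋀^Fin (n + 1)]→ₗ[ℂ] ℂ).compLinearMap c.κ

/-- comparison of the volume forms of two charts -/
noncomputable def Chart.jac {X : Set (ι → ℂ)} {n D : ℕ} (c c' : Chart X n D) (e : ι → ℂ) : ℂ :=
  c.vol (fun a => c'.fr (Pi.single a 1) e)

end Extra

/-- the four nilpotent matrices moving `hh` -/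
def Mb : Fin 4 → M3 := ![!![0, 1, 0; 0, 0, 0; 0, 0, 0], !![0, 0, 1; 0, 0, 0; 0, 0, 0],
  !![0, 0, 0; 1, 0, 0; 0, 0, 0], !![0, 0, 0; 0, 0, 0; 1, 0, 0]]
/-- infinitesimal conjugation of the point `Phi hh (qq z)` -/
noncomputable def sg (M : M3) (z : Fin 3 → ℂ) : Ix → ℂ :=
  Phi (hh * M - M * hh) (qq z) + Phi hh (qq z * M - M * qq z)

end Fano612
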