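import Pool.Agent.Helper612.Fano.Defs

set_option autoImplicit false
set_option linter.unusedVariables false
set_option linter.unusedSectionVars false

open MvPolynomial

namespace Fano612



theorem Phi_bil (P P' Q Q' : M3) (a : ℂ) : Phi (P + a • P') Q = Phi P Q + a • Phi P' Q ∧
    Phi P (Q + a • Q') = Phi P Q + a • Phi P Q' := by
  constructor
  · funext x
    simp only [Phi, tri, Pi.add_apply, Pi.smul_apply, smul_eq_mul, Matrix.add_mulVec,
      Matrix.smul_mulVec, Matrix.transpose_add, Matrix.transpose_smul, det3]
    split_ifs <;> ring
  · funext x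
    simp only [Phi, tri, Pi.add_apply, Pi.smul_apply, smul_eq_mul, Matrix.add_mulVec,
      Matrix.smul_mulVec, Matrix.transpose_add, Matrix.transpose_smul, det3]
    split_ifs <;> ring

end Fano612
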