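import Pool.Agent.Helper612.Fano.Defs

set_option autoImplicit false
set_option linter.unusedVariables false
set_option linter.unusedSectionVars false

open MvPolynomial

namespace Fano612



/-- polynomial functions that are forms of degree `d` -/
def PF (d : ℕ) (f : (Fin 7 → ℂ) → ℂ) : Prop :=
  ∃ F : MvPolynomial (Fin 7) ℂ, F.IsHomogeneous d ∧ ∀ x, eval x F = f x

theorem PF.coord (i : Fin 7) : PF 1 (fun x => x i) := ⟨X i, isHomogeneous_X _ _, by simp⟩

theorem PF.zero (d : ℕ) : PF d (fun _ => 0) := ⟨0, isHomogeneous_zero _ _ _, by simp⟩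

theorem PF.add {d : ℕ} {f g : (Fin 7 → ℂ) → ℂ} (hf : PF d f) (hg : PF d g) :
    PF d (fun x => f x + g x) := by
  obtain ⟨F, hF, hF'⟩ := hf
  obtain ⟨G, hG, hG'⟩ := hg
  exact ⟨F + G, hF.add hG, fun x => by rw [map_add, hF', hG']⟩

theorem PF.neg {d : ℕ} {f : (Fin 7 → ℂ) → ℂ} (hf : PF d f) : PF d (fun x => -f x) := by
  obtain ⟨F, hF, hF'⟩ := hf
  exact ⟨-F, hF.neg, fun x => by rw [map_neg, hF']⟩

theorem PF.sub {d : ℕ} {f g : (Fin 7 → ℂ) → ℂ} (hf : PF d f) (hg : PF d g) :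
    PF d (fun x => f x - g x) := by
  obtain ⟨F, hF, hF'⟩ := hf
  obtain ⟨G, hG, hG'⟩ := hg
  exact ⟨F - G, hF.sub hG, fun x => by rw [map_sub, hF', hG']⟩

theorem PF.mul {d e : ℕ} {f g : (Fin 7 → ℂ) → ℂ} (hf : PF d f) (hg : PF e g) :
    PF (d + e) (fun x => f x * g x) := by
  obtain ⟨F, hF, hF'⟩ := hf
  obtain ⟨G, hG, hG'⟩ := hg
  exact ⟨F * G, hF.mul hG, fun x => by rw [map_mul, hF', hG']⟩

theorem PF.cmul {d : ℕ} (c : ℂ) {f : (Fin 7 → ℂ) → ℂ} (hf : PF d f) :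
    PF d (fun x => c * f x) := by
  obtain ⟨F, hF, hF'⟩ := hf
  refine ⟨C c * F, ?_, fun x => by rw [map_mul, hF', eval_C]⟩
  have := (isHomogeneous_C (Fin 7) c).mul hF
  rwa [zero_add] at this

theorem PF.mulc {d : ℕ} (c : ℂ) {f : (Fin 7 → ℂ) → ℂ} (hf : PF d f) :
    PF d (fun x => f x * c) := by
  have := PF.cmul c hf
  simpa only [mul_comm c] using this

theorem PF.mul11 {f g : (Fin 7 → ℂ) → ℂ} (hf : PF 1 f) (hg : PF 1 g) :
    PF 2 (fun x => f x * g x) := hf.mul hg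

theorem PF.mul22 {f g : (Fin 7 → ℂ) → ℂ} (hf : PF 2 f) (hg : PF 2 g) :
    PF 4 (fun x => f x * g x) := hf.mul hg

theorem PF.sq {f : (Fin 7 → ℂ) → ℂ} (hf : PF 1 f) : PF 2 (fun x => f x ^ 2) := by
  have := hf.mul hf
  simpa only [pow_two] using this

theorem PF.mP (i j : Fin 3) : PF 2 (fun x => mP x i j) := by
  fin_cases i <;> fin_cases j <;> simp [Fano612.mP] <;>
    repeat' first
      | exact PF.coord _
      | exact PF.zero _
      | apply PF.add
      | apply PF.sub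
      | apply PF.neg
      | apply PF.sq
      | apply PF.cmul
      | apply PF.mul11

theorem PF.mQ (i j : Fin 3) : PF 2 (fun x => mQ x i j) := by
  fin_cases i <;> fin_cases j <;> simp [Fano612.mQ] <;>
    repeat' first
      | exact PF.coord _
      | exact PF.zero _
      | apply PF.add
      | apply PF.sub
      | apply PF.neg
      | apply PF.sq
      | apply PF.cmul
      | apply PF.mul11

theorem PF.mulVec {P : (Fin 7 → ℂ) → M3} (hP : ∀ i j, PF 2 (fun x => P x i j))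
    (v : Fin 3 → ℂ) (i : Fin 3) : PF 2 (fun x => (P x).mulVec v i) := by
  simp only [Matrix.mulVec, dotProduct, Fin.sum_univ_three]
  exact (((hP i 0).mulc _).add ((hP i 1).mulc _)).add ((hP i 2).mulc _)

theorem PF.det3 (u : Fin 3 → ℂ) {V W : (Fin 7 → ℂ) → Fin 3 → ℂ}
    (hV : ∀ i, PF 2 (fun x => V x i)) (hW : ∀ i, PF 2 (fun x => W x i)) :
    PF 4 (fun x => Fano612.det3 u (V x) (W x)) := by
  unfold Fano612.det3
  exact ((((hV 1).mul22 (hW 2)).sub ((hV 2).mul22 (hW 1))).cmul _ |>.sub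
    ((((hV 0).mul22 (hW 2)).sub ((hV 2).mul22 (hW 0))).cmul _)).add
    ((((hV 0).mul22 (hW 1)).sub ((hV 1).mul22 (hW 0))).cmul _)

theorem PF.tri {P Q : (Fin 7 → ℂ) → M3} (hP : ∀ i j, PF 2 (fun x => P x i j))
    (hQ : ∀ i j, PF 2 (fun x => Q x i j)) (u v w : Fin 3 → ℂ) :
    PF 4 (fun x => Fano612.tri (P x) (Q x) u v w) := by
  unfold Fano612.tri
  have h : ∀ a b c : Fin 3 → ℂ, PF 4 (fun x => Fano612.det3 a ((P x).mulVec b)
      ((Q x).mulVec c)) := fun a b c => PF.det3 a (PF.mulVec hP b) (PF.mulVec hQ c)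
  exact ((((((h u v w).add (h u w v)).add (h v u w)).add (h v w u)).add (h w u v)).add
    (h w v u)).mulc _

theorem Phi_form (j : Ix) : ∃ F : MvPolynomial (Fin 7) ℂ, F.IsHomogeneous 4 ∧
    ∀ x, eval x F = Phi (mP x) (mQ x) j := by
  obtain ⟨b, i, j, k⟩ := j
  cases b
  · exact PF.tri PF.mP PF.mQ (bv i) (bv j) (bv k)
  · exact PF.tri (P := fun x => (mP x).transpose) (Q := fun x => (mQ x).transpose)
      (fun i j => PF.mP j i) (fun i j => PF.mQ j i) (bv i) (bv j) (bv k)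

end Fano612
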