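import Pool.Agent.Helper612.Fano.Defs

set_option autoImplicit false
set_option linter.unusedVariables false
set_option linter.unusedSectionVars false

open MvPolynomial

namespace Fano612



theorem mulVec_lin_aux (a b c : ℂ) (P Q : M3) (v : Fin 3 → ℂ) :
    (a • (1 : M3) + b • P + c • Q).mulVec v = a • v + b • P.mulVec v + c • Q.mulVec v := by
  rw [Matrix.add_mulVec, Matrix.add_mulVec, Matrix.smul_mulVec, Matrix.smul_mulVec,
    Matrix.smul_mulVec, Matrix.one_mulVec]

theorem tri_lin_aux (a b c a' b' c' : ℂ) (P Q : M3) (u v w : Fin 3 → ℂ) :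
    tri (a • 1 + b • P + c • Q) (a' • 1 + b' • P + c' • Q) u v w =
      (b * c' - c * b') * tri P Q u v w := by
  unfold tri
  simp only [mulVec_lin_aux]
  generalize P.mulVec u = Pu
  generalize P.mulVec v = Pv
  generalize P.mulVec w = Pw
  generalize Q.mulVec u = Qu
  generalize Q.mulVec v = Qv
  generalize Q.mulVec w = Qw
  simp only [det3, Pi.add_apply, Pi.smul_apply, smul_eq_mul]
  ring

theorem Phi_lin (a b c a' b' c' : ℂ) (P Q : M3) :
    Phi (a • 1 + b • P + c • Q) (a' • 1 + b' • P + c' • Q) = (b * c' - c * b') • Phi P Q := by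
  funext x
  obtain ⟨t, i, j, l⟩ := x
  have hT : ∀ (a b c : ℂ), (a • (1 : M3) + b • P + c • Q).transpose =
      a • 1 + b • P.transpose + c • Q.transpose := by
    intro a b c
    rw [Matrix.transpose_add, Matrix.transpose_add, Matrix.transpose_smul, Matrix.transpose_smul,
      Matrix.transpose_smul, Matrix.transpose_one]
  cases t
  · simp only [Phi, Pi.smul_apply, smul_eq_mul, Bool.false_eq_true, if_false]
    exact tri_lin_aux a b c a' b' c' P Q _ _ _
  · simp only [Phi, Pi.smul_apply, smul_eq_mul, if_true]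
    rw [hT, hT]
    exact tri_lin_aux a b c a' b' c' P.transpose Q.transpose _ _ _
end Fano612
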