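import Pool.Agent.Helper612.Fano.Defs

set_option autoImplicit false
set_option linter.unusedVariables false
set_option linter.unusedSectionVars false

open MvPolynomial

namespace Fano612



theorem kap0_Phi (P Q : M3) : kap (Phi P Q) 0 = P 1 0 * Q 2 0 - P 2 0 * Q 1 0 := by
  have h0 : kap (Phi P Q) 0 = tri P Q (bv 0) (bv 0) (bv 0) := rfl
  have hm : ∀ (M : M3) (i : Fin 3), M.mulVec (bv 0) i = M i 0 := by
    intro M i
    simp [bv, Matrix.mulVec_single_one]
  have hb0 : bv 0 0 = 1 := by simp [bv]
  have hb1 : bv 0 1 = 0 := by simp [bv]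
  have hb2 : bv 0 2 = 0 := by simp [bv]
  rw [h0]
  unfold tri det3
  simp only [hm, hb0, hb1, hb2]
  ring

end Fano612
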