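import Pool.Agent.Helper612.Fano.Defs

set_option autoImplicit false
set_option linter.unusedVariables false
set_option linter.unusedSectionVars false

open MvPolynomial

namespace Fano612



theorem kap_Phi_aux (x : Fin 7 → ℂ) (i : Fin 7) : kap (Phi (mP x) (mQ x)) i = (x 0 ^ 3 • x) i := by
  fin_cases i <;>
  · simp [kap, Phi, tri, det3, bv, mP, mQ, Matrix.mulVec, dotProduct, Fin.sum_univ_three,
      Matrix.transpose]
    try ring

theorem kap_Phi (x : Fin 7 → ℂ) : kap (Phi (mP x) (mQ x)) = x 0 ^ 3 • x := by
  funext i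
  exact kap_Phi_aux x i

end Fano612
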