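import Pool.Agent.Helper612.Fano.Defs
import Pool.Agent.Helper612.Fano.P_Phi_lin

set_option autoImplicit false
set_option linter.unusedVariables false
set_option linter.unusedSectionVars false

open MvPolynomial

namespace Fano612



theorem normal_exists {P Q : M3} (h : P * Q = Q * P) (h0 : P 1 0 * Q 2 0 - P 2 0 * Q 1 0 ≠ 0) :
    ∃ P' Q' : M3, P' * Q' = Q' * P' ∧ (P' 0 0 = 0 ∧ P' 1 0 = 1 ∧ P' 2 0 = 0) ∧
      (Q' 0 0 = 0 ∧ Q' 1 0 = 0 ∧ Q' 2 0 = 1) ∧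
      Phi P Q = (P 1 0 * Q 2 0 - P 2 0 * Q 1 0) • Phi P' Q' := by
  set δ : ℂ := P 1 0 * Q 2 0 - P 2 0 * Q 1 0 with hδ
  obtain ⟨b, hb⟩ : ∃ b : ℂ, b = Q 2 0 / δ := ⟨_, rfl⟩
  obtain ⟨c, hc⟩ : ∃ c : ℂ, c = -P 2 0 / δ := ⟨_, rfl⟩
  obtain ⟨b', hb'⟩ : ∃ b' : ℂ, b' = -Q 1 0 / δ := ⟨_, rfl⟩
  obtain ⟨c', hc'⟩ : ∃ c' : ℂ, c' = P 1 0 / δ := ⟨_, rfl⟩
  obtain ⟨a, ha⟩ : ∃ a : ℂ, a = -(b * P 0 0 + c * Q 0 0) := ⟨_, rfl⟩
  obtain ⟨a', ha'⟩ : ∃ a' : ℂ, a' = -(b' * P 0 0 + c' * Q 0 0) := ⟨_, rfl⟩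
  refine ⟨a • 1 + b • P + c • Q, a' • 1 + b' • P + c' • Q, ?_, ⟨?_, ?_, ?_⟩, ⟨?_, ?_, ?_⟩, ?_⟩
  · simp only [add_mul, mul_add, smul_mul_assoc, mul_smul_comm, one_mul, mul_one, h, smul_add]
    module
  · simp only [Matrix.add_apply, Matrix.smul_apply, Matrix.one_apply_eq, smul_eq_mul, mul_one]
    rw [ha]; ring
  · simp only [Matrix.add_apply, Matrix.smul_apply, smul_eq_mul,
      Matrix.one_apply_ne (show (1 : Fin 3) ≠ 0 by decide), mul_zero, zero_add]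
    rw [hb, hc]
    field_simp
    rw [hδ]; ring
  · simp only [Matrix.add_apply, Matrix.smul_apply, smul_eq_mul,
      Matrix.one_apply_ne (show (2 : Fin 3) ≠ 0 by decide), mul_zero, zero_add]
    rw [hb, hc]
    field_simp
    ring
  · simp only [Matrix.add_apply, Matrix.smul_apply, Matrix.one_apply_eq, smul_eq_mul, mul_one]
    rw [ha']; ring
  · simp only [Matrix.add_apply, Matrix.smul_apply, smul_eq_mul,
      Matrix.one_apply_ne (show (1 : Fin 3) ≠ 0 by decide), mul_zero, zero_add]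
    rw [hb', hc']
    field_simp
    ring
  · simp only [Matrix.add_apply, Matrix.smul_apply, smul_eq_mul,
      Matrix.one_apply_ne (show (2 : Fin 3) ≠ 0 by decide), mul_zero, zero_add]
    rw [hb', hc']
    field_simp
    rw [hδ]; ring
  · rw [Phi_lin, smul_smul]
    have : δ * (b * c' - c * b') = 1 := by
      rw [hb, hc, hb', hc']
      field_simp
      rw [hδ]; ring
    rw [this, one_smul]

end Fano612
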