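import Pool.Agent.Helper612.Fano.Defs

set_option autoImplicit false
set_option linter.unusedVariables false
set_option linter.unusedSectionVars false

open MvPolynomial

namespace Fano612



theorem normal_form {P Q : M3} (h : P * Q = Q * P) (hP : P 0 0 = 0 ∧ P 1 0 = 1 ∧ P 2 0 = 0)
    (hQ : Q 0 0 = 0 ∧ Q 1 0 = 0 ∧ Q 2 0 = 1) :
    ∃ x : Fin 7 → ℂ, x 0 = 1 ∧ P = x 1 • 1 + mP x ∧ Q = x 2 • 1 + mQ x := by
  obtain ⟨P00, P10, P20⟩ := hP
  obtain ⟨Q00, Q10, Q20⟩ := hQ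
  have hc : ∀ i j, P i 0 * Q 0 j + P i 1 * Q 1 j + P i 2 * Q 2 j =
      Q i 0 * P 0 j + Q i 1 * P 1 j + Q i 2 * P 2 j := by
    intro i j
    have h := congrFun (congrFun h i) j
    simpa only [Matrix.mul_apply, Fin.sum_univ_three] using h
  have e0 : ∀ i, P i 2 = Q i 1 := by
    intro i
    have h0 := hc i 0
    rw [P00, P10, P20, Q00, Q10, Q20] at h0
    linear_combination h0
  have h11 := hc 1 1
  have h21 := hc 2 1
  have h12 := hc 1 2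
  have e00 := e0 0
  have e01 := e0 1
  have e02 := e0 2
  rw [P10, Q10, ← e00, ← e01, ← e02] at h11
  rw [P20, Q20, ← e01, ← e02] at h21
  rw [P10, Q10, ← e01] at h12
  have c1 : P 0 2 = Q 1 2 * P 2 1 - P 1 2 * P 2 2 := by linear_combination h11
  have c0 : P 0 1 = P 1 2 * P 2 1 + P 2 2 ^ 2 - P 1 1 * P 2 2 - P 2 1 * Q 2 2 := by
    linear_combination -h21
  have c2 : Q 0 2 = P 1 2 ^ 2 + P 2 2 * Q 1 2 - P 1 1 * Q 1 2 - P 1 2 * Q 2 2 := by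
    linear_combination h12
  obtain ⟨x, hx⟩ : ∃ x : Fin 7 → ℂ, x = ![1, (P 1 1 + P 2 2) / 3, (P 1 2 + Q 2 2) / 3, -Q 1 2,
      P 1 2 - (P 1 2 + Q 2 2) / 3, P 2 2 - (P 1 1 + P 2 2) / 3, -P 2 1] := ⟨_, rfl⟩
  have x0 : x 0 = 1 := by rw [hx]; rfl
  have x1 : x 1 = (P 1 1 + P 2 2) / 3 := by rw [hx]; rfl
  have x2 : x 2 = (P 1 2 + Q 2 2) / 3 := by rw [hx]; rfl
  have x3 : x 3 = -Q 1 2 := by rw [hx]; rfl
  have x4 : x 4 = P 1 2 - (P 1 2 + Q 2 2) / 3 := by rw [hx]; rfl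
  have x5 : x 5 = P 2 2 - (P 1 1 + P 2 2) / 3 := by rw [hx]; rfl
  have x6 : x 6 = -P 2 1 := by rw [hx]; rfl
  clear hx
  refine ⟨x, x0, ?_, ?_⟩
  · ext i j
    fin_cases i <;> fin_cases j
    · simp [mP, P00, x0]
    · simp [mP]; rw [c0, x1, x2, x4, x5, x6]; ring
    · simp [mP]; rw [c1, x1, x2, x3, x4, x5, x6]; ring
    · simp [mP, P10, x0]
    · simp [mP]; rw [x0, x1, x5]; ring
    · simp [mP]; rw [x0, x2, x4]; ring
    · simp [mP, P20, x0]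
    · simp [mP]; rw [x0, x6]; ring
    · simp [mP]; rw [x0, x1, x5]; ring
  · ext i j
    fin_cases i <;> fin_cases j
    · simp [mQ, Q00, x0]
    · simp [mQ]; rw [← e00, c1, x1, x2, x3, x4, x5, x6]; ring
    · simp [mQ]; rw [c2, x1, x2, x3, x4, x5]; ring
    · simp [mQ, Q10, x0]
    · simp [mQ]; rw [← e01, x0, x2, x4]; ring
    · simp [mQ]; rw [x0, x3]; ring
    · simp [mQ, Q20, x0]
    · simp [mQ]; rw [← e02, x0, x1, x5]; ring
    · simp [mQ]; rw [x0, x2, x4]; ring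

end Fano612
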