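import Pool.Agent.Helper612.Fano.Defs
import Pool.Agent.Helper612.Fano.P_kap_Phi
import Pool.Agent.Helper612.Fano.P_Phi_lin
import Pool.Agent.Helper612.Fano.P_Phi_bil
import Pool.Agent.Helper612.Fano.P_kap0_Phi
import Pool.Agent.Helper612.Fano.P_normal_exists
import Pool.Agent.Helper612.Fano.P_normal_form

set_option autoImplicit false
set_option linter.unusedVariables false
set_option linter.unusedSectionVars false

open MvPolynomial

namespace Fano612



theorem Phi_normal {P Q : M3} (h : P * Q = Q * P) (h0 : kap (Phi P Q) 0 ≠ 0) :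
    kap (Phi P Q) 0 ^ 3 • Phi P Q = Phi (mP (kap (Phi P Q))) (mQ (kap (Phi P Q))) := by
  obtain ⟨P', Q', hc, hP, hQ, hPhi⟩ := normal_exists h (by rw [← kap0_Phi]; exact h0)
  obtain ⟨x, hx0, hPx, hQx⟩ := normal_form hc hP hQ
  set d : ℂ := P 1 0 * Q 2 0 - P 2 0 * Q 1 0 with hd
  have h1 : Phi P' Q' = Phi (mP x) (mQ x) := by
    have h2 := Phi_lin (x 1) 1 0 (x 2) 0 1 (mP x) (mQ x)
    simp only [one_smul, zero_smul, add_zero, mul_one, mul_zero, sub_zero] at h2
    rw [hPx, hQx, h2]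
  have hk : kap (Phi P Q) = d • x := by
    rw [hPhi, h1, map_smul, kap_Phi, hx0, one_pow, one_smul]
  have hmP : mP (d • x) = d ^ 2 • mP x := by
    ext i j
    fin_cases i <;> fin_cases j <;> simp [mP] <;> ring
  have hmQ : mQ (d • x) = d ^ 2 • mQ x := by
    ext i j
    fin_cases i <;> fin_cases j <;> simp [mQ] <;> ring
  have h3 : Phi (d ^ 2 • mP x) (d ^ 2 • mQ x) = (d ^ 2 * d ^ 2) • Phi (mP x) (mQ x) := by
    have h2 := Phi_lin 0 (d ^ 2) 0 0 0 (d ^ 2) (mP x) (mQ x)
    simp only [zero_smul, add_zero, zero_add, mul_zero, sub_zero] at h2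
    exact h2
  have h4 : kap (Phi P Q) 0 = d := by
    rw [hk, Pi.smul_apply, hx0, smul_eq_mul, mul_one]
  rw [h4, hk, hmP, hmQ, h3, hPhi, h1, smul_smul]
  congr 1
  ring

end Fano612
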