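import Pool.Agent.Helper612.Fano.Defs

set_option autoImplicit false
set_option linter.unusedVariables false
set_option linter.unusedSectionVars false

open MvPolynomial

namespace Fano612



theorem Phi_sym_a (P Q : M3) (u v w : Fin 3 → ℂ) : tri P Q u v w = tri P Q v u w := by
  unfold tri
  ring

theorem Phi_sym_b (P Q : M3) (u v w : Fin 3 → ℂ) : tri P Q u v w = tri P Q u w v := by
  unfold tri
  ring

theorem Phi_sym (P Q : M3) : Sym3 (Phi P Q) := by
  intro b i j l
  cases b
  · exact ⟨Phi_sym_a _ _ _ _ _, Phi_sym_b _ _ _ _ _⟩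
  · exact ⟨Phi_sym_a _ _ _ _ _, Phi_sym_b _ _ _ _ _⟩

end Fano612
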