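import Pool.Agent.Helper612.Fano.Defs

set_option autoImplicit false
set_option linter.unusedVariables false
set_option linter.unusedSectionVars false

open MvPolynomial

namespace Fano612



theorem zopen_ne {ι : Type} [Fintype ι] (X : Set (ι → ℂ)) (F : MvPolynomial ι ℂ) (hF : IsForm F) :
    ZOpen X {v | v ∈ X ∧ eval v F ≠ 0} :=
  ⟨fun _ hv => hv.1, fun _ hv => ⟨F, hF, hv.2, fun _ hw hne => ⟨hw, hne⟩⟩⟩

end Fano612
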