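import Pool.Agent.Helper612.Fano.Defs
import Pool.Agent.Helper612.Fano.P_zopen_ne

set_option autoImplicit false
set_option linter.unusedVariables false
set_option linter.unusedSectionVars false

open MvPolynomial

namespace Fano612



theorem zopen_lin {ι : Type} [Fintype ι] (X : Set (ι → ℂ)) (l : (ι → ℂ) →ₗ[ℂ] ℂ) :
    ZOpen X {v | v ∈ X ∧ l v ≠ 0} := by
  classical
  have hev : ∀ v : ι → ℂ, eval v (∑ i, C (l (Pi.single i 1)) * MvPolynomial.X i) = l v := by
    intro v
    have h1 : v = ∑ i, v i • (Pi.single i (1 : ℂ) : ι → ℂ) := by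
      funext j
      simp [Finset.sum_apply, Pi.single_apply]
    conv_rhs => rw [h1, map_sum]
    rw [map_sum]
    refine Finset.sum_congr rfl fun i _ => ?_
    rw [map_mul, eval_C, eval_X, map_smul, smul_eq_mul, mul_comm]
  have hform : IsForm (∑ i, C (l (Pi.single i (1 : ℂ))) * (MvPolynomial.X i : MvPolynomial ι ℂ)) :=
    ⟨1, IsHomogeneous.sum _ _ _ fun i _ => isHomogeneous_C_mul_X _ _⟩
  have h := zopen_ne X _ hform
  simpa only [hev] using h

end Fano612
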