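import Pool.Agent.Helper612.Fano.Defs
import Pool.Agent.Helper612.Fano.P_zopen_lin

set_option autoImplicit false
set_option linter.unusedVariables false
set_option linter.unusedSectionVars false

open MvPolynomial

namespace Fano612



theorem V_open {ι : Type} [Fintype ι] {X : Set (ι → ℂ)} {n D : ℕ} (c : Chart X n D) :
    ZOpen X c.V :=
  zopen_lin X ((LinearMap.proj 0).comp c.κ)

end Fano612
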