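import Pool.Agent.Helper612.Fano.Defs

set_option autoImplicit false

open MvPolynomial

namespace Fano612

theorem cub_tri (P Q : M3) (u : Fin 3 → ℂ) :
    ∑ i, ∑ j, ∑ l, tri P Q (bv i) (bv j) (bv l) * u i * u j * u l =
      det3 u (P.mulVec u) (Q.mulVec u) := by
  simp only [Fin.sum_univ_three, tri, det3, bv, Matrix.mulVec, dotProduct, Pi.single_apply]
  simp
  ring

theorem cub_Phi (P Q : M3) (u : Fin 3 → ℂ) :
    cub false (Phi P Q) u = det3 u (P.mulVec u) (Q.mulVec u) ∧
    cub true (Phi P Q) u = det3 u (P.transpose.mulVec u) (Q.transpose.mulVec u) := by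
  constructor
  · rw [← cub_tri]; rfl
  · rw [← cub_tri]; rfl

end Fano612
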