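import Pool.Agent.Helper612.Fano.Defs
import Pool.Agent.Helper612.Fano.P_Phi_bil
import Pool.Agent.Helper612.Fano.P_cub_Phi

set_option autoImplicit false
set_option linter.unusedVariables false
set_option linter.unusedSectionVars false

open MvPolynomial

namespace Fano612



theorem W_map_add (z w : Fin 3 → ℂ) : qq (z + w) = qq z + (1 : ℂ) • qq w := by
  ext i j
  fin_cases i <;> fin_cases j <;> simp [qq]

theorem W_map_smul (r : ℂ) (z : Fin 3 → ℂ) : qq (r • z) = 0 + r • qq z := by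
  ext i j
  fin_cases i <;> fin_cases j <;> simp [qq]

theorem W_map_zero : Phi hh 0 = 0 := by
  have h := (Phi_bil hh 0 0 0 1).2
  simp only [smul_zero, add_zero, one_smul] at h
  exact (add_eq_left.mp h.symm)

theorem W_map_comm (z : Fin 3 → ℂ) : hh * qq z = qq z * hh := by
  ext i j
  fin_cases i <;> fin_cases j <;> simp [qq, hh, Matrix.mul_apply, Fin.sum_univ_three]

theorem W_map_det (z u : Fin 3 → ℂ) : det3 u (hh.mulVec u) ((qq z).mulVec u) =
    u 0 * (-(z 2 * u 1 ^ 2) - z 0 * u 1 * u 2 + z 1 * u 2 ^ 2) := by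
  simp [det3, hh, qq, Matrix.mulVec, dotProduct, Fin.sum_univ_three]
  ring

theorem W_map_ker (z : Fin 3 → ℂ) (h : Phi hh (qq z) = 0) : z = 0 := by
  have h1 : ∀ u : Fin 3 → ℂ,
      u 0 * (-(z 2 * u 1 ^ 2) - z 0 * u 1 * u 2 + z 1 * u 2 ^ 2) = 0 := by
    intro u
    rw [← W_map_det, ← (cub_Phi hh (qq z) u).1, h]
    simp [cub]
  have e1 := h1 ![1, 1, 0]
  have e2 := h1 ![1, 0, 1]
  have e3 := h1 ![1, 1, 1]
  simp at e1 e2 e3
  rw [e1, e2] at e3
  simp at e3
  funext i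
  fin_cases i
  · exact e3
  · exact e2
  · exact e1

theorem W_map : ∃ B : (Fin 3 → ℂ) →ₗ[ℂ] (Ix → ℂ), (∀ z, B z = Phi hh (qq z)) ∧
    Function.Injective B ∧ ∀ z, z ≠ 0 → B z ∈ XX := by
  refine ⟨{ toFun := fun z => Phi hh (qq z), map_add' := ?_, map_smul' := ?_ }, fun z => rfl, ?_, ?_⟩
  · intro z w
    show Phi hh (qq (z + w)) = Phi hh (qq z) + Phi hh (qq w)
    rw [W_map_add, (Phi_bil hh 0 (qq z) (qq w) 1).2, one_smul]
  · intro r z
    show Phi hh (qq (r • z)) = r • Phi hh (qq z)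
    rw [W_map_smul, (Phi_bil hh 0 0 (qq z) r).2, W_map_zero, zero_add]
  · rw [injective_iff_map_eq_zero]
    intro z hz
    exact W_map_ker z hz
  · intro z hz
    refine ⟨fun h => hz (W_map_ker z h), hh, qq z, W_map_comm z, rfl⟩

end Fano612
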