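import Pool.Agent.Helper612.Fano.Defs

set_option autoImplicit false
set_option linter.unusedVariables false
set_option linter.unusedSectionVars false

open MvPolynomial

namespace Fano612



theorem comp_lin {ι ι' : Type} [Fintype ι] [Fintype ι'] (L : (ι → ℂ) →ₗ[ℂ] (ι' → ℂ))
    {G : MvPolynomial ι' ℂ} {d : ℕ} (hG : G.IsHomogeneous d) :
    ∃ G' : MvPolynomial ι ℂ, G'.IsHomogeneous d ∧ ∀ v, eval v G' = eval (L v) G := by
  classical
  let g : ι' → MvPolynomial ι ℂ := fun j => ∑ i : ι, C (L (Pi.single i 1) j) * X i
  refine ⟨aeval g G, ?_, ?_⟩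
  · have h := hG.aeval g (n := 1) (fun j => by
      apply IsHomogeneous.sum
      intro i _
      exact isHomogeneous_C_mul_X _ i)
    simpa using h
  · intro v
    have hLv : ∀ j, eval v (g j) = L v j := by
      intro j
      have hv : v = ∑ i : ι, v i • (Pi.single i (1 : ℂ) : ι → ℂ) := by
        funext k
        simp [Finset.sum_apply, Pi.single_apply]
      have h2 : L v = ∑ i : ι, v i • L (Pi.single i (1 : ℂ) : ι → ℂ) := by
        conv_lhs => rw [hv]
        rw [map_sum]
        simp only [map_smul]
      rw [h2]
      simp only [g, map_sum, map_mul, eval_C, eval_X, Finset.sum_apply, Pi.smul_apply,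
        smul_eq_mul]
      exact Finset.sum_congr rfl (fun i _ => mul_comm _ _)
    have h3 : (eval v (aeval g G) : ℂ) = eval (fun j => eval v (g j)) G := by
      rw [aeval_def, ← coe_eval₂Hom]
      have : (eval v : MvPolynomial ι ℂ →+* ℂ).comp (eval₂Hom (algebraMap ℂ (MvPolynomial ι ℂ)) g)
          = eval (fun j => eval v (g j)) := by
        apply MvPolynomial.ringHom_ext
        · intro r
          simp [MvPolynomial.algebraMap_eq]
        · intro i
          simp
      exact congrArg (fun f : MvPolynomial ι' ℂ →+* ℂ => f G) this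
    rw [h3]
    congr 1
    congr 1
    funext j
    exact hLv j

end Fano612
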