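import Pool.Agent.Helper612.Fano.Defs

set_option autoImplicit false
set_option linter.unusedVariables false
set_option linter.unusedSectionVars false

open MvPolynomial

namespace Fano612



theorem comp_psi {ι : Type} [Fintype ι] {X : Set (ι → ℂ)} {n D : ℕ} (c : Chart X n D)
    {F : MvPolynomial ι ℂ} {d : ℕ} (hF : F.IsHomogeneous d) :
    ∃ F' : MvPolynomial (Fin (n + 1)) ℂ, F'.IsHomogeneous (d * (D + 1)) ∧
      ∀ x, eval x F' = eval (c.ψ x) F := by
  refine ⟨aeval c.Ψ F, ?_, fun x => ?_⟩
  · rw [mul_comm]
    exact hF.aeval c.Ψ c.hom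
  · unfold Chart.ψ
    have key : ∀ G : MvPolynomial ι ℂ, eval x (aeval c.Ψ G) = eval (fun j => eval x (c.Ψ j)) G := by
      intro G
      induction G using MvPolynomial.induction_on with
      | C a => simp
      | add p q hp hq => rw [map_add, map_add, map_add, hp, hq]
      | mul_X p i hp => rw [map_mul, map_mul, map_mul, hp, aeval_X, eval_X]
    exact key F

end Fano612
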