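import Pool.Agent.Helper612.Fano.Defs
import Pool.Agent.Helper612.Fano.P_eval_hom

set_option autoImplicit false
set_option linter.unusedVariables false
set_option linter.unusedSectionVars false

open MvPolynomial

namespace Fano612



theorem psi_hom {ι : Type} [Fintype ι] {X : Set (ι → ℂ)} {n D : ℕ} (c : Chart X n D) (a : ℂ)
    (x : Fin (n + 1) → ℂ) : c.ψ (a • x) = a ^ (D + 1) • c.ψ x := by
  funext j
  exact eval_hom (c.hom j) a x

end Fano612
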