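import Pool.Agent.Helper612.Fano.Defs
import Pool.Agent.Helper612.Fano.P_eval_hom
import Pool.Agent.Helper612.Fano.P_psi_hom

set_option autoImplicit false
set_option linter.unusedVariables false
set_option linter.unusedSectionVars false

open MvPolynomial

namespace Fano612



theorem psi_mem {ι : Type} [Fintype ι] {X : Set (ι → ℂ)} {n D : ℕ} (c : Chart X n D)
    {x : Fin (n + 1) → ℂ} (hx : x 0 ≠ 0) : c.ψ x ∈ X := by
  have h1 : c.κ (c.ψ x) = x 0 ^ D • x := c.right_inv x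
  have h2 : c.κ (c.ψ x) 0 = x 0 ^ (D + 1) := by
    rw [h1, Pi.smul_apply, smul_eq_mul, pow_succ]
  have h3 : c.κ (c.ψ x) 0 ≠ 0 := by
    rw [h2]
    exact pow_ne_zero _ hx
  rw [c.mem_iff _ h3, h2]
  have h4 : (fun j => eval (c.κ (c.ψ x)) (c.Ψ j)) = c.ψ (c.κ (c.ψ x)) := rfl
  rw [h4, h1, psi_hom, ← pow_mul, ← pow_mul, Nat.mul_comm]

end Fano612
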