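import Pool.Agent.Helper612.Fano.Defs
import Pool.Agent.Helper612.Fano.P_psi_mem
import Pool.Agent.Helper612.Fano.P_comp_psi
import Pool.Agent.Helper612.Fano.P_comp_lin

set_option autoImplicit false
set_option linter.unusedVariables false
set_option linter.unusedSectionVars false

open MvPolynomial

namespace Fano612



theorem good_meet {ι : Type} [Fintype ι] {X : Set (ι → ℂ)} {n D : ℕ} (A : Atlas X n D)
    {a b b' : A.K} (hab : ∃ e ∈ X, (A.c a).κ e 0 ≠ 0 ∧ (A.c b).κ e 0 ≠ 0) (h : A.good b b') :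
    ∃ e ∈ X, (A.c a).κ e 0 ≠ 0 ∧ (A.c b').κ e 0 ≠ 0 := by
  obtain ⟨e, heX, hea, heb⟩ := hab
  obtain ⟨G1, hG1, hG1e⟩ := comp_lin (A.c a).κ (MvPolynomial.isHomogeneous_X ℂ (0 : Fin (n + 1)))
  obtain ⟨F, hF, hFe⟩ := comp_psi (A.c b) hG1
  have hFe' : ∀ x, eval x F = (A.c a).κ ((A.c b).ψ x) 0 := by
    intro x
    rw [hFe, hG1e, MvPolynomial.eval_X]
  obtain ⟨l, hl, y, hy0, hly⟩ := A.lin b b' h
  obtain ⟨Gl, hGl, hGle⟩ := comp_lin (LinearMap.pi (fun _ : Unit => l))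
    (MvPolynomial.isHomogeneous_X ℂ ())
  have hGle' : ∀ x, eval x Gl = l x := by
    intro x
    rw [hGle, MvPolynomial.eval_X]
    rfl
  have hmem := ((A.c b).mem_iff e heb).1 heX
  have hψ : (A.c b).ψ ((A.c b).κ e) = (A.c b).κ e 0 ^ D • e := hmem.symm
  have hF0 : F ≠ 0 := by
    intro h0
    have h1 := hFe' ((A.c b).κ e)
    rw [h0, map_zero, hψ, map_smul] at h1
    have h2 : (A.c b).κ e 0 ^ D * (A.c a).κ e 0 = 0 := h1.symm
    rcases mul_eq_zero.1 h2 with h3 | h3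
    · exact pow_ne_zero D heb h3
    · exact hea h3
  have hG0 : Gl ≠ 0 := by
    intro h0
    have h1 := hGle' y
    rw [h0, map_zero] at h1
    exact hly h1.symm
  have hX0 : (MvPolynomial.X 0 : MvPolynomial (Fin (n + 1)) ℂ) ≠ 0 := MvPolynomial.X_ne_zero 0
  have hP : F * Gl * MvPolynomial.X 0 ≠ 0 := mul_ne_zero (mul_ne_zero hF0 hG0) hX0
  obtain ⟨x, hx⟩ : ∃ x, eval x (F * Gl * MvPolynomial.X 0) ≠ 0 := by
    by_contra hcon
    push Not at hcon
    apply hP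
    apply MvPolynomial.funext
    intro x
    rw [hcon, map_zero]
  rw [map_mul, map_mul, MvPolynomial.eval_X, hFe', hGle'] at hx
  have hx0 : x 0 ≠ 0 := right_ne_zero_of_mul hx
  have hx1 := left_ne_zero_of_mul hx
  have hx2 : l x ≠ 0 := right_ne_zero_of_mul hx1
  have hx3 : (A.c a).κ ((A.c b).ψ x) 0 ≠ 0 := left_ne_zero_of_mul hx1
  have hm := psi_mem (A.c b) hx0
  refine ⟨(A.c b).ψ x, hm, hx3, ?_⟩
  rw [hl _ hm]
  have h5 : (A.c b).κ ((A.c b).ψ x) = x 0 ^ D • x := (A.c b).right_inv x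
  rw [h5, map_smul, smul_eq_mul]
  exact mul_ne_zero (pow_ne_zero _ hx0) hx2

end Fano612
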