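import Pool.Agent.Helper612.Fano.Defs
import Pool.Agent.Helper612.Fano.P_psi_mem

set_option autoImplicit false
set_option linter.unusedVariables false
set_option linter.unusedSectionVars false

open MvPolynomial

namespace Fano612



theorem p_mem {ι : Type} [Fintype ι] {X : Set (ι → ℂ)} {n D : ℕ} (c : Chart X n D)
    (t : Fin n → ℂ) : c.p t ∈ c.V ∧ c.κ (c.p t) = Fin.cons 1 t ∧ c.t (c.p t) = t := by
  have h0 : (Fin.cons 1 t : Fin (n + 1) → ℂ) 0 = 1 := rfl
  have hk : c.κ (c.p t) = Fin.cons 1 t := by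
    have h1 := c.right_inv (Fin.cons 1 t : Fin (n + 1) → ℂ)
    rw [h0, one_pow, one_smul] at h1
    exact h1
  refine ⟨⟨psi_mem c (by rw [h0]; exact one_ne_zero), ?_⟩, hk, ?_⟩
  · rw [hk, h0]; exact one_ne_zero
  · funext b
    unfold Chart.t
    rw [hk, h0, Fin.cons_succ, div_one]

end Fano612
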