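import Pool.Agent.Helper612.Fano.Defs
import Pool.Agent.Helper612.Fano.P_p_mem
import Pool.Agent.Helper612.Fano.P_good_meet

set_option autoImplicit false
set_option linter.unusedVariables false
set_option linter.unusedSectionVars false

open MvPolynomial

namespace Fano612



theorem atlas_meet {ι : Type} [Fintype ι] {X : Set (ι → ℂ)} {n D : ℕ} (A : Atlas X n D)
    (a b : A.K) : ∃ e ∈ X, (A.c a).κ e 0 ≠ 0 ∧ (A.c b).κ e 0 ≠ 0 := by
  induction A.conn a b with
  | refl =>
    have h := (p_mem (A.c a) 0).1
    exact ⟨(A.c a).p 0, h.1, h.2, h.2⟩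
  | tail _ hbc ih => exact good_meet A ih hbc

end Fano612
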