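import Pool.Agent.Helper612.Fano.Defs
import Pool.Agent.Helper612.Fano.P_eval_hom
import Pool.Agent.Helper612.Fano.P_psi_mem
import Pool.Agent.Helper612.Fano.P_p_mem
import Pool.Agent.Helper612.Fano.P_comp_psi
import Pool.Agent.Helper612.Fano.P_comp_lin
import Pool.Agent.Helper612.Fano.P_atlas_meet

set_option autoImplicit false
set_option linter.unusedVariables false
set_option linter.unusedSectionVars false

open MvPolynomial

namespace Fano612



theorem j18958_van {ι : Type} [Fintype ι] {X : Set (ι → ℂ)} {n D : ℕ} (c : Chart X n D)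
    {F : MvPolynomial ι ℂ} {d : ℕ} (hF : F.IsHomogeneous d)
    (h : ∀ x, eval (c.ψ x) F = 0) (e : ι → ℂ) (he : e ∈ X) (h0 : c.κ e 0 ≠ 0) :
    eval e F = 0 := by
  have h1 : c.κ e 0 ^ D • e = c.ψ (c.κ e) := (c.mem_iff e h0).1 he
  have h2 := eval_hom hF (c.κ e 0 ^ D) e
  rw [h1, h] at h2
  rcases mul_eq_zero.1 h2.symm with h3 | h3
  · exact absurd h3 (pow_ne_zero _ (pow_ne_zero _ h0))
  · exact h3

theorem j18958_two {ι : Type} [Fintype ι] {X : Set (ι → ℂ)} {n D : ℕ} (A : Atlas X n D)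
    (a b : A.K) {F : MvPolynomial ι ℂ} {d : ℕ} (hF : F.IsHomogeneous d)
    (h : ∀ e ∈ X, (A.c a).κ e 0 ≠ 0 → eval e F = 0) (e : ι → ℂ) (he : e ∈ X)
    (h0 : (A.c b).κ e 0 ≠ 0) : eval e F = 0 := by
  obtain ⟨F', _, hF'⟩ := comp_psi (A.c b) hF
  obtain ⟨G, hG, hG'⟩ := comp_lin (A.c a).κ (MvPolynomial.isHomogeneous_X ℂ (0 : Fin (n + 1)))
  obtain ⟨P, _, hP⟩ := comp_psi (A.c b) hG
  have hP' : ∀ x, eval x P = (A.c a).κ ((A.c b).ψ x) 0 := by
    intro x
    rw [hP, hG', eval_X]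
  have hprod : F' * P * MvPolynomial.X 0 = 0 := by
    apply MvPolynomial.funext
    intro x
    rw [map_mul, map_mul, eval_X, map_zero]
    by_cases hx : x 0 = 0
    · rw [hx, mul_zero]
    by_cases hx2 : eval x P = 0
    · rw [hx2, mul_zero, zero_mul]
    rw [hF', h _ (psi_mem (A.c b) hx) (by rw [← hP']; exact hx2), zero_mul, zero_mul]
  have hX0 : (MvPolynomial.X 0 : MvPolynomial (Fin (n + 1)) ℂ) ≠ 0 := MvPolynomial.X_ne_zero 0
  have hP0 : P ≠ 0 := by
    intro hP0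
    obtain ⟨e', he', h1, h2⟩ := atlas_meet A a b
    have h3 : (A.c b).κ e' 0 ^ D • e' = (A.c b).ψ ((A.c b).κ e') :=
      ((A.c b).mem_iff e' h2).1 he'
    have h4 := hP' ((A.c b).κ e')
    rw [hP0, map_zero, ← h3, map_smul, Pi.smul_apply, smul_eq_mul] at h4
    exact mul_ne_zero (pow_ne_zero _ h2) h1 h4.symm
  have hF0 : F' = 0 := by
    rcases mul_eq_zero.1 hprod with h1 | h1
    · rcases mul_eq_zero.1 h1 with h2 | h2
      · exact h2
      · exact absurd h2 hP0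
    · exact absurd h1 hX0
  refine j18958_van (A.c b) hF (fun x => ?_) e he h0
  rw [← hF', hF0, map_zero]

theorem j18958_all {ι : Type} [Fintype ι] {X : Set (ι → ℂ)} {n D : ℕ} (A : Atlas X n D)
    (a : A.K) {F : MvPolynomial ι ℂ} {d : ℕ} (hF : F.IsHomogeneous d)
    {F' : MvPolynomial (Fin (n + 1)) ℂ} (hF' : ∀ x, eval x F' = eval ((A.c a).ψ x) F)
    (h0 : F' = 0) : ∀ v ∈ X, eval v F = 0 := by
  intro v hv
  obtain ⟨b, hb⟩ := A.cover v hv
  refine j18958_two A a b hF (fun e he h1 => ?_) v hv hb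
  refine j18958_van (A.c a) hF (fun x => ?_) e he h1
  rw [← hF', h0, map_zero]

theorem atlas_irr {ι : Type} [Fintype ι] {X : Set (ι → ℂ)} {n D : ℕ} (A : Atlas X n D) :
    IsIrr X := by
  obtain ⟨a, _, _⟩ := A.edge
  refine ⟨⟨_, (p_mem (A.c a) 0).1.1⟩, ?_⟩
  rintro F G ⟨d, hF⟩ ⟨d', hG⟩ h
  obtain ⟨F', _, hF'⟩ := comp_psi (A.c a) hF
  obtain ⟨G', _, hG'⟩ := comp_psi (A.c a) hG
  have hprod : F' * G' * MvPolynomial.X 0 = 0 := by
    apply MvPolynomial.funext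
    intro x
    rw [map_mul, map_mul, eval_X, map_zero]
    by_cases hx : x 0 = 0
    · rw [hx, mul_zero]
    rw [hF', hG']
    rcases h _ (psi_mem (A.c a) hx) with h1 | h1 <;> rw [h1] <;> simp
  have hX0 : (MvPolynomial.X 0 : MvPolynomial (Fin (n + 1)) ℂ) ≠ 0 := MvPolynomial.X_ne_zero 0
  rcases mul_eq_zero.1 hprod with h1 | h1
  · rcases mul_eq_zero.1 h1 with h2 | h2
    · exact Or.inl (j18958_all A a hF hF' h2)
    · exact Or.inr (j18958_all A a hG hG' h2)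
  · exact absurd h1 hX0

end Fano612
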