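import Pool.Agent.Helper612.Fano.Defs

set_option autoImplicit false
set_option linter.unusedVariables false
set_option linter.unusedSectionVars false

open MvPolynomial

namespace Fano612



theorem atlas_ne {ι : Type} [Fintype ι] {X : Set (ι → ℂ)} {n D : ℕ} (A : Atlas X n D) :
    ∀ e ∈ X, e ≠ 0 := by
  rintro e he rfl
  obtain ⟨a, ha⟩ := A.cover 0 he
  exact ha (by rw [map_zero]; rfl)

end Fano612
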