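import Pool.Agent.Helper612.Fano.Defs
import Pool.Agent.Helper612.Fano.P_p_mem
import Pool.Agent.Helper612.Fano.P_atlas_ne
import Pool.Agent.Helper612.Fano.P_comp_lin
import Pool.Agent.Helper612.Fano.P_atlas_irr

set_option autoImplicit false
set_option linter.unusedVariables false
set_option linter.unusedSectionVars false

open MvPolynomial

namespace Fano612



theorem atlas_closed {ι : Type} [Fintype ι] {X : Set (ι → ℂ)} {n D : ℕ} (A : Atlas X n D)
    (S0 : Set (MvPolynomial ι ℂ)) (hS : ∀ F ∈ S0, IsForm F)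
    (hX : ∀ F ∈ S0, ∀ e ∈ X, eval e F = 0)
    (hc : ∀ e : ι → ℂ, e ≠ 0 → (∀ F ∈ S0, eval e F = 0) → ∃ a, (A.c a).κ e 0 ≠ 0) :
    IsClosedCone X := by
  have h1 : ∀ (a : A.K), ∃ l : MvPolynomial ι ℂ, l.IsHomogeneous 1 ∧
      ∀ e, eval e l = (A.c a).κ e 0 := by
    intro a
    obtain ⟨G', hG', hv⟩ := comp_lin (A.c a).κ
      (isHomogeneous_X ℂ (0 : Fin (n + 1)))
    refine ⟨G', hG', fun e => ?_⟩
    rw [hv, eval_X]
  choose l hl hle using h1
  have h2 : ∀ (a : A.K) (j : ι), ∃ E : MvPolynomial ι ℂ, E.IsHomogeneous (D + 1) ∧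
      ∀ e, eval e E = (A.c a).κ e 0 ^ D * e j - eval ((A.c a).κ e) ((A.c a).Ψ j) := by
    intro a j
    obtain ⟨G', hG', hv⟩ := comp_lin (A.c a).κ ((A.c a).hom j)
    refine ⟨l a ^ D * MvPolynomial.X j - G', ?_, fun e => ?_⟩
    · refine IsHomogeneous.sub ?_ hG'
      have h3 := ((hl a).pow D).mul (isHomogeneous_X ℂ j)
      rwa [one_mul] at h3
    · rw [map_sub, map_mul, map_pow, hle, eval_X, hv]
  choose E hE hEe using h2
  refine ⟨S0 ∪ {F | ∃ a j, F = E a j}, ?_, ?_⟩
  · rintro F (hF | ⟨a, j, rfl⟩)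
    · exact hS F hF
    · exact ⟨_, hE a j⟩
  · ext v
    constructor
    · intro hv
      refine ⟨atlas_ne A v hv, ?_⟩
      rintro F (hF | ⟨a, j, rfl⟩)
      · exact hX F hF v hv
      · have h4 := (atlas_irr A).2 (l a) (E a j) ⟨_, hl a⟩ ⟨_, hE a j⟩ (fun w hw => by
          by_cases h0 : (A.c a).κ w 0 = 0
          · left
            rw [hle, h0]
          · right
            have h5 := ((A.c a).mem_iff w h0).1 hw
            have h6 := congrFun h5 j
            rw [Pi.smul_apply, smul_eq_mul] at h6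
            rw [hEe, h6, sub_self])
        rcases h4 with h4 | h4
        · exfalso
          obtain ⟨h7, -, -⟩ := p_mem (A.c a) 0
          have h8 := h4 _ h7.1
          rw [hle] at h8
          exact h7.2 h8
        · exact h4 v hv
    · rintro ⟨hv0, hv⟩
      obtain ⟨a, ha⟩ := hc v hv0 (fun F hF => hv F (Or.inl hF))
      rw [(A.c a).mem_iff v ha]
      funext j
      have h5 := hv (E a j) (Or.inr ⟨a, j, rfl⟩)
      rw [hEe, sub_eq_zero] at h5
      rw [Pi.smul_apply, smul_eq_mul]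
      exact h5

end Fano612
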