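import Pool.Agent.Helper612.Fano.Defs

set_option autoImplicit false
set_option linter.unusedVariables false
set_option linter.unusedSectionVars false

open MvPolynomial

namespace Fano612



noncomputable def ct1 (M : M3) (T : Fin 3 → Fin 3 → Fin 3 → ℂ) : Fin 3 → Fin 3 → Fin 3 → ℂ :=
  fun a j l => ∑ i, T i j l * M i a
noncomputable def ct2 (M : M3) (T : Fin 3 → Fin 3 → Fin 3 → ℂ) : Fin 3 → Fin 3 → Fin 3 → ℂ :=
  fun i b l => ∑ j, T i j l * M j b
noncomputable def ct3 (M : M3) (T : Fin 3 → Fin 3 → Fin 3 → ℂ) : Fin 3 → Fin 3 → Fin 3 → ℂ :=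
  fun i j c => ∑ l, T i j l * M l c

theorem ct12 (M N : M3) (T : Fin 3 → Fin 3 → Fin 3 → ℂ) : ct1 M (ct2 N T) = ct2 N (ct1 M T) := by
  funext a b c; simp only [ct1, ct2, Fin.sum_univ_three]; ring
theorem ct13 (M N : M3) (T : Fin 3 → Fin 3 → Fin 3 → ℂ) : ct1 M (ct3 N T) = ct3 N (ct1 M T) := by
  funext a b c; simp only [ct1, ct3, Fin.sum_univ_three]; ring
theorem ct23 (M N : M3) (T : Fin 3 → Fin 3 → Fin 3 → ℂ) : ct2 M (ct3 N T) = ct3 N (ct2 M T) := by
  funext a b c; simp only [ct2, ct3, Fin.sum_univ_three]; ring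
theorem ct11 (M N : M3) (T : Fin 3 → Fin 3 → Fin 3 → ℂ) : ct1 N (ct1 M T) = ct1 (M * N) T := by
  funext a b c; simp only [ct1, Matrix.mul_apply, Fin.sum_univ_three]; ring
theorem ct22 (M N : M3) (T : Fin 3 → Fin 3 → Fin 3 → ℂ) : ct2 N (ct2 M T) = ct2 (M * N) T := by
  funext a b c; simp only [ct2, Matrix.mul_apply, Fin.sum_univ_three]; ring
theorem ct33 (M N : M3) (T : Fin 3 → Fin 3 → Fin 3 → ℂ) : ct3 N (ct3 M T) = ct3 (M * N) T := by
  funext a b c; simp only [ct3, Matrix.mul_apply, Fin.sum_univ_three]; ring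
theorem ct1_one (T : Fin 3 → Fin 3 → Fin 3 → ℂ) : ct1 1 T = T := by
  funext a b c; simp [ct1, Matrix.one_apply]
theorem ct2_one (T : Fin 3 → Fin 3 → Fin 3 → ℂ) : ct2 1 T = T := by
  funext a b c; simp [ct2, Matrix.one_apply]
theorem ct3_one (T : Fin 3 → Fin 3 → Fin 3 → ℂ) : ct3 1 T = T := by
  funext a b c; simp [ct3, Matrix.one_apply]
theorem ct1_smul (s : ℂ) (M : M3) (T : Fin 3 → Fin 3 → Fin 3 → ℂ) :
    ct1 M (fun i j l => s * T i j l) = fun i j l => s * ct1 M T i j l := by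
  funext a b c; simp only [ct1, Fin.sum_univ_three]; ring
theorem ct2_smul (s : ℂ) (M : M3) (T : Fin 3 → Fin 3 → Fin 3 → ℂ) :
    ct2 M (fun i j l => s * T i j l) = fun i j l => s * ct2 M T i j l := by
  funext a b c; simp only [ct2, Fin.sum_univ_three]; ring
theorem ct3_smul (s : ℂ) (M : M3) (T : Fin 3 → Fin 3 → Fin 3 → ℂ) :
    ct3 M (fun i j l => s * T i j l) = fun i j l => s * ct3 M T i j l := by
  funext a b c; simp only [ct3, Fin.sum_univ_three]; ring

theorem ct_expand (M : M3) (T : Fin 3 → Fin 3 → Fin 3 → ℂ) (a b c : Fin 3) :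
    ∑ i, ∑ j, ∑ l, T i j l * M i a * M j b * M l c = ct1 M (ct2 M (ct3 M T)) a b c := by
  simp only [ct1, ct2, ct3, Finset.sum_mul]
  refine Finset.sum_congr rfl fun i _ => Finset.sum_congr rfl fun j _ =>
    Finset.sum_congr rfl fun l _ => ?_
  ring

theorem ct_comp (M N : M3) (h : M * N = 1) (T : Fin 3 → Fin 3 → Fin 3 → ℂ) :
    ct1 N (ct2 N (ct3 N (ct1 M (ct2 M (ct3 M T))))) = T := by
  rw [← ct13, ← ct12, ct11, ← ct23, ct22, ct33, h, ct1_one, ct2_one, ct3_one]

theorem act_inv {g k : M3} (h : g * k = 1) (e : Ix → ℂ) : act k g (act g k e) = e := by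
  have h' : k * g = 1 := mul_eq_one_comm.mp h
  have hd : g.det * k.det = 1 := by rw [← Matrix.det_mul, h, Matrix.det_one]
  have hf : ∀ (g k : M3) (e : Ix → ℂ) (a b c : Fin 3), act g k e (false, a, b, c) =
      k.det * ct1 g (ct2 g (ct3 g (fun i j l => e (false, i, j, l)))) a b c := by
    intro g k e a b c
    show k.det * ∑ i, ∑ j, ∑ l, e (false, i, j, l) * g i a * g j b * g l c = _
    rw [ct_expand g (fun i j l => e (false, i, j, l))]
  have ht : ∀ (g k : M3) (e : Ix → ℂ) (a b c : Fin 3), act g k e (true, a, b, c) =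
      g.det * ct1 k.transpose (ct2 k.transpose (ct3 k.transpose
        (fun i j l => e (true, i, j, l)))) a b c := by
    intro g k e a b c
    show g.det * ∑ i, ∑ j, ∑ l, e (true, i, j, l) * k a i * k b j * k c l = _
    have := ct_expand k.transpose (fun i j l => e (true, i, j, l)) a b c
    simp only [Matrix.transpose_apply] at this
    rw [this]
  funext ⟨x, a, b, c⟩
  cases x
  · rw [hf k g]
    simp only [hf g k]
    rw [ct3_smul, ct2_smul, ct1_smul, ct_comp g k h]
    rw [← mul_assoc, hd, one_mul]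
  · rw [ht k g]
    simp only [ht g k]
    rw [ct3_smul, ct2_smul, ct1_smul, ct_comp k.transpose g.transpose (by
      rw [← Matrix.transpose_mul, h, Matrix.transpose_one])]
    rw [← mul_assoc, mul_comm k.det, hd, one_mul]

end Fano612
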