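import Pool.Agent.Helper612.Fano.Defs

set_option autoImplicit false
set_option linter.unusedVariables false
set_option linter.unusedSectionVars false

open MvPolynomial

namespace Fano612



theorem act_kap (g k : M3) (e : Ix → ℂ) :
    kap (act g k e) 0 = k.det * cub false e (fun i => g i 0) := by
  rfl

end Fano612
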