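import Pool.Agent.Helper612.Fano.Defs

set_option autoImplicit false
set_option linter.unusedVariables false
set_option linter.unusedSectionVars false

open MvPolynomial

namespace Fano612



theorem act_Phi_exp (φ : (Fin 3 → ℂ) → ℂ) (h : IsLinearMap ℂ φ) (x : Fin 3 → ℂ) :
    φ x = ∑ i, φ (bv i) * x i := by
  have e : x = ∑ i, x i • bv i := by
    funext j
    rw [Finset.sum_apply, Fin.sum_univ_three]
    fin_cases j <;> simp [bv]
  have h1 : (h.mk' φ) (∑ i, x i • bv i) = ∑ i, x i • (h.mk' φ) (bv i) := by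
    rw [map_sum]
    apply Finset.sum_congr rfl
    intro i _
    rw [map_smul]
  rw [← e] at h1
  calc φ x = (h.mk' φ) x := rfl
    _ = ∑ i, x i • (h.mk' φ) (bv i) := h1
    _ = ∑ i, φ (bv i) * x i := by
        apply Finset.sum_congr rfl
        intro i _
        rw [smul_eq_mul, mul_comm]
        rfl

theorem act_Phi_lin1 (P Q : M3) (v w : Fin 3 → ℂ) : IsLinearMap ℂ (fun u => tri P Q u v w) where
  map_add x y := by
    unfold tri det3
    simp only [Matrix.mulVec_add, Pi.add_apply]
    ring
  map_smul c x := by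
    unfold tri det3
    simp only [Matrix.mulVec_smul, Pi.smul_apply, smul_eq_mul]
    ring

theorem act_Phi_lin2 (P Q : M3) (u w : Fin 3 → ℂ) : IsLinearMap ℂ (fun v => tri P Q u v w) where
  map_add x y := by
    unfold tri det3
    simp only [Matrix.mulVec_add, Pi.add_apply]
    ring
  map_smul c x := by
    unfold tri det3
    simp only [Matrix.mulVec_smul, Pi.smul_apply, smul_eq_mul]
    ring

theorem act_Phi_lin3 (P Q : M3) (u v : Fin 3 → ℂ) : IsLinearMap ℂ (fun w => tri P Q u v w) where
  map_add x y := by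
    unfold tri det3
    simp only [Matrix.mulVec_add, Pi.add_apply]
    ring
  map_smul c x := by
    unfold tri det3
    simp only [Matrix.mulVec_smul, Pi.smul_apply, smul_eq_mul]
    ring

theorem act_Phi_expand (P Q : M3) (u v w : Fin 3 → ℂ) :
    ∑ i, ∑ j, ∑ l, tri P Q (bv i) (bv j) (bv l) * u i * v j * w l = tri P Q u v w := by
  have e1 : tri P Q u v w = ∑ i, tri P Q (bv i) v w * u i :=
    act_Phi_exp _ (act_Phi_lin1 P Q v w) u
  have e2 : ∀ i, tri P Q (bv i) v w = ∑ j, tri P Q (bv i) (bv j) w * v j :=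
    fun i => act_Phi_exp _ (act_Phi_lin2 P Q (bv i) w) v
  have e3 : ∀ i j, tri P Q (bv i) (bv j) w = ∑ l, tri P Q (bv i) (bv j) (bv l) * w l :=
    fun i j => act_Phi_exp _ (act_Phi_lin3 P Q (bv i) (bv j)) w
  rw [e1]
  apply Finset.sum_congr rfl
  intro i _
  rw [e2, Finset.sum_mul]
  apply Finset.sum_congr rfl
  intro j _
  rw [e3, Finset.sum_mul, Finset.sum_mul]
  apply Finset.sum_congr rfl
  intro l _
  ring

theorem act_Phi_det3 (k : M3) (u v w : Fin 3 → ℂ) :
    k.det * det3 u v w = det3 (k.mulVec u) (k.mulVec v) (k.mulVec w) := by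
  unfold det3
  rw [Matrix.det_fin_three]
  simp only [Matrix.mulVec, dotProduct, Fin.sum_univ_three]
  ring

theorem act_Phi_tri {g k : M3} (h : g * k = 1) (P Q : M3) (u v w : Fin 3 → ℂ) :
    k.det * tri P Q (g.mulVec u) (g.mulVec v) (g.mulVec w) =
      tri (k * P * g) (k * Q * g) u v w := by
  have hk : k * g = 1 := mul_eq_one_comm.1 h
  have e1 : ∀ x, k.mulVec (g.mulVec x) = x := by
    intro x
    rw [Matrix.mulVec_mulVec, hk, Matrix.one_mulVec]
  have e2 : ∀ (R : M3) x, k.mulVec (R.mulVec (g.mulVec x)) = (k * R * g).mulVec x := by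
    intro R x
    rw [Matrix.mulVec_mulVec, Matrix.mulVec_mulVec, Matrix.mul_assoc]
  have e3 : ∀ x y z, k.det * det3 (g.mulVec x) (P.mulVec (g.mulVec y)) (Q.mulVec (g.mulVec z)) =
      det3 x ((k * P * g).mulVec y) ((k * Q * g).mulVec z) := by
    intro x y z
    rw [act_Phi_det3, e1, e2, e2]
  unfold tri
  rw [mul_div_assoc', mul_add, mul_add, mul_add, mul_add, mul_add, e3, e3, e3, e3, e3, e3]

theorem act_Phi_col (g : M3) (a : Fin 3) : g.mulVec (bv a) = fun i => g i a := by
  funext i
  unfold bv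
  rw [Matrix.mulVec_single_one]
  rfl

theorem act_Phi {g k : M3} (h : g * k = 1) (P Q : M3) :
    act g k (Phi P Q) = Phi (k * P * g) (k * Q * g) := by
  funext ⟨s, a, b, c⟩
  cases s with
  | false =>
    show k.det * ∑ i, ∑ j, ∑ l, tri P Q (bv i) (bv j) (bv l) * g i a * g j b * g l c =
      tri (k * P * g) (k * Q * g) (bv a) (bv b) (bv c)
    have e := act_Phi_expand P Q (g.mulVec (bv a)) (g.mulVec (bv b)) (g.mulVec (bv c))
    rw [← act_Phi_tri h, ← e, act_Phi_col, act_Phi_col, act_Phi_col]
  | true =>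
    show g.det * ∑ i, ∑ j, ∑ l, tri P.transpose Q.transpose (bv i) (bv j) (bv l) *
      k a i * k b j * k c l =
      tri (k * P * g).transpose (k * Q * g).transpose (bv a) (bv b) (bv c)
    have h' : k.transpose * g.transpose = 1 := by
      rw [← Matrix.transpose_mul, h, Matrix.transpose_one]
    have e := act_Phi_expand P.transpose Q.transpose (k.transpose.mulVec (bv a))
      (k.transpose.mulVec (bv b)) (k.transpose.mulVec (bv c))
    have e2 : ∀ R : M3, (k * R * g).transpose = g.transpose * R.transpose * k.transpose := by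
      intro R
      rw [Matrix.transpose_mul, Matrix.transpose_mul, Matrix.mul_assoc]
    rw [e2, e2, ← act_Phi_tri h', ← e, act_Phi_col, act_Phi_col, act_Phi_col,
      Matrix.det_transpose]
    rfl

end Fano612
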