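import Pool.Agent.Helper612.Fano.Defs
import Pool.Agent.Helper612.Fano.P_act_Phi
import Pool.Agent.Helper612.Fano.P_act_inv

set_option autoImplicit false
set_option linter.unusedVariables false
set_option linter.unusedSectionVars false

open MvPolynomial

namespace Fano612



theorem act_mem_fwd {g k : M3} (h : g * k = 1) (e : Ix → ℂ) (he : e ∈ XX) :
    act g k e ∈ XX := by
  obtain ⟨h0, P, Q, hPQ, rfl⟩ := he
  refine ⟨?_, k * P * g, k * Q * g, ?_, act_Phi h P Q⟩
  · intro h1
    apply h0
    rw [← act_inv h (Phi P Q), h1, map_zero]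
  · calc k * P * g * (k * Q * g) = k * P * (g * k) * Q * g := by noncomm_ring
      _ = k * (P * Q) * g := by rw [h]; noncomm_ring
      _ = k * (Q * P) * g := by rw [hPQ]
      _ = k * Q * (g * k) * P * g := by rw [h]; noncomm_ring
      _ = k * Q * g * (k * P * g) := by noncomm_ring

theorem act_mem {g k : M3} (h : g * k = 1) (e : Ix → ℂ) : act g k e ∈ XX ↔ e ∈ XX := by
  refine ⟨fun he => ?_, fun he => act_mem_fwd h e he⟩
  have h' : k * g = 1 := mul_eq_one_comm.mp h
  rw [← act_inv h e]
  exact act_mem_fwd h' _ he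

end Fano612
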