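import Pool.Agent.Helper612.Fano.Defs

set_option autoImplicit false
set_option linter.unusedVariables false
set_option linter.unusedSectionVars false

open MvPolynomial

namespace Fano612



theorem mPQ_comm (x : Fin 7 → ℂ) : mP x * mQ x = mQ x * mP x := by
  ext i j
  fin_cases i <;> fin_cases j <;>
    (simp [mP, mQ, Matrix.mul_apply, Fin.sum_univ_three]; try ring)

end Fano612
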