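import Pool.Agent.Helper612.Fano.Defs
import Pool.Agent.Helper612.Fano.P_mPQ_comm
import Pool.Agent.Helper612.Fano.P_Phi_form
import Pool.Agent.Helper612.Fano.P_kap_Phi
import Pool.Agent.Helper612.Fano.P_Phi_lin
import Pool.Agent.Helper612.Fano.P_Phi_normal

set_option autoImplicit false
set_option linter.unusedVariables false
set_option linter.unusedSectionVars false

open MvPolynomial

namespace Fano612



theorem chart0_exists : ∃ c : Chart XX 6 3, c.κ = kap := by
  choose F hF hFe using Phi_form
  have hfun : ∀ x : Fin 7 → ℂ, (fun j => eval x (F j)) = Phi (mP x) (mQ x) := fun x =>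
    funext fun j => hFe j x
  refine ⟨{ κ := kap
            Ψ := F
            hom := hF
            right_inv := ?_
            mem_iff := ?_ }, rfl⟩
  · intro x
    rw [hfun x]
    exact kap_Phi x
  · intro e h0
    rw [hfun (kap e)]
    constructor
    · rintro ⟨-, P, Q, hPQ, rfl⟩
      exact Phi_normal hPQ h0
    · intro h
      have hs : (kap e 0 ^ 3 : ℂ) ≠ 0 := pow_ne_zero 3 h0
      refine ⟨?_, (kap e 0 ^ 3)⁻¹ • mP (kap e), mQ (kap e), ?_, ?_⟩
      · intro he
        apply h0
        rw [he, map_zero]
        rfl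
      · rw [smul_mul_assoc, mul_smul_comm, mPQ_comm]
      · have h1 := Phi_lin 0 ((kap e 0 ^ 3)⁻¹) 0 0 0 1 (mP (kap e)) (mQ (kap e))
        simp only [zero_smul, zero_add, add_zero, one_smul, mul_one, mul_zero, sub_zero] at h1
        rw [h1, ← h, smul_smul, inv_mul_cancel₀ hs, one_smul]

end Fano612
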