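import Pool.Agent.Helper612.Fano.Defs

set_option autoImplicit false
set_option linter.unusedVariables false
set_option linter.unusedSectionVars false

open MvPolynomial

namespace Fano612



theorem chart_trans {ι : Type} [Fintype ι] {X : Set (ι → ℂ)} {n D : ℕ} (c : Chart X n D)
    (f g : (ι → ℂ) →ₗ[ℂ] (ι → ℂ)) (hfg : ∀ e, f (g e) = e) (hgf : ∀ e, g (f e) = e)
    (hX : ∀ e, f e ∈ X ↔ e ∈ X) : ∃ c' : Chart X n D, c'.κ = c.κ.comp f := by
  classical
  have key : ∀ x : Fin (n + 1) → ℂ,
      (fun j => eval x (∑ i, C (g (fun k => if i = k then 1 else 0) j) * c.Ψ i)) =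
        g (fun i => eval x (c.Ψ i)) := by
    intro x
    funext j
    rw [LinearMap.pi_apply_eq_sum_univ g (fun i => eval x (c.Ψ i)), Finset.sum_apply, map_sum]
    refine Finset.sum_congr rfl fun i _ => ?_
    rw [map_mul, eval_C, Pi.smul_apply, smul_eq_mul, mul_comm]
  refine ⟨⟨c.κ.comp f, fun j => ∑ i, C (g (fun k => if i = k then 1 else 0) j) * c.Ψ i,
    ?_, ?_, ?_⟩, rfl⟩
  · intro j
    refine IsHomogeneous.sum _ _ _ fun i _ => ?_
    exact (c.hom i).C_mul _
  · intro x
    rw [key x, LinearMap.comp_apply, hfg]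
    exact c.right_inv x
  · intro e he
    rw [key, LinearMap.comp_apply, ← hX e]
    rw [c.mem_iff (f e) he]
    constructor
    · intro h
      have h2 := congrArg g h
      rw [map_smul, hgf] at h2
      exact h2
    · intro h
      have h2 := congrArg f h
      rw [map_smul, hfg] at h2
      exact h2

end Fano612
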