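import Pool.Agent.Helper612.Fano.Defs

set_option autoImplicit false
set_option linter.unusedVariables false
set_option linter.unusedSectionVars false

open MvPolynomial

namespace Fano612



theorem exists_perp (u v : Fin 3 → ℂ) :
    ∃ w : Fin 3 → ℂ, w ≠ 0 ∧ ∑ i, u i * w i = 0 ∧ ∑ i, v i * w i = 0 := by
  let M : Matrix (Fin 3) (Fin 3) ℂ := Matrix.of ![u, v, 0]
  have hdet : M.det = 0 := by
    apply Matrix.det_eq_zero_of_row_eq_zero 2
    intro j
    rfl
  obtain ⟨w, hw, hMw⟩ := Matrix.exists_mulVec_eq_zero_iff.2 hdet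
  refine ⟨w, hw, ?_, ?_⟩
  · have := congrFun hMw 0
    simpa [M, Matrix.mulVec, dotProduct] using this
  · have := congrFun hMw 1
    simpa [M, Matrix.mulVec, dotProduct] using this

end Fano612
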