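import Pool.Agent.Helper612.Fano.Defs

set_option autoImplicit false
set_option linter.unusedVariables false
set_option linter.unusedSectionVars false

open MvPolynomial

namespace Fano612



theorem gl_col {u : Fin 3 → ℂ} (hu : u ≠ 0) :
    ∃ g k : M3, g * k = 1 ∧ ∀ i, g i 0 = u i := by
  have key : ∀ g : M3, g.det ≠ 0 → (∀ i, g i 0 = u i) →
      ∃ g k : M3, g * k = 1 ∧ ∀ i, g i 0 = u i := by
    intro g hg h
    refine ⟨g, g⁻¹, ?_, h⟩
    exact Matrix.mul_nonsing_inv g (isUnit_iff_ne_zero.2 hg)
  by_cases h0 : u 0 = 0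
  · by_cases h1 : u 1 = 0
    · have h2 : u 2 ≠ 0 := by
        intro h2
        apply hu
        funext i
        fin_cases i
        · exact h0
        · exact h1
        · exact h2
      refine key !![u 0, 1, 0; u 1, 0, 1; u 2, 0, 0] ?_ ?_
      · rw [Matrix.det_fin_three]
        simpa using h2
      · intro i
        fin_cases i <;> rfl
    · refine key !![u 0, 1, 0; u 1, 0, 0; u 2, 0, 1] ?_ ?_
      · rw [Matrix.det_fin_three]
        simpa using h1
      · intro i
        fin_cases i <;> rfl
  · refine key !![u 0, 0, 0; u 1, 1, 0; u 2, 0, 1] ?_ ?_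
    · rw [Matrix.det_fin_three]
      simpa using h0
    · intro i
      fin_cases i <;> rfl

end Fano612
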