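import Pool.Agent.Helper612.Fano.Defs

set_option autoImplicit false
set_option linter.unusedVariables false
set_option linter.unusedSectionVars false

open MvPolynomial

namespace Fano612



theorem swp_cub (b : Bool) (e : Ix → ℂ) (u : Fin 3 → ℂ) : cub b (swp e) u = cub (!b) e u := by
  rfl

end Fano612
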