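import Pool.Agent.Helper612.Fano.Defs

set_option autoImplicit false
set_option linter.unusedVariables false
set_option linter.unusedSectionVars false

open MvPolynomial

namespace Fano612



theorem swp_Phi (P Q : M3) : swp (Phi P Q) = Phi P.transpose Q.transpose := by
  funext ⟨b, i, j, l⟩
  cases b
  · simp [swp, Phi]
  · simp [swp, Phi]

end Fano612
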