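import Pool.Agent.Helper612.Fano.Defs
import Pool.Agent.Helper612.Fano.P_swp_Phi

set_option autoImplicit false
set_option linter.unusedVariables false
set_option linter.unusedSectionVars false

open MvPolynomial

namespace Fano612



theorem swp_mem_inv (e : Ix → ℂ) : swp (swp e) = e := by
  funext x
  obtain ⟨b, x⟩ := x
  show e (!(!b), x) = e (b, x)
  rw [Bool.not_not]

theorem swp_mem_fwd (e : Ix → ℂ) (h : e ∈ XX) : swp e ∈ XX := by
  obtain ⟨h0, P, Q, hPQ, he⟩ := h
  refine ⟨fun h1 => h0 ?_, P.transpose, Q.transpose, ?_, ?_⟩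
  · rw [← swp_mem_inv e, h1, map_zero]
  · rw [← Matrix.transpose_mul, ← Matrix.transpose_mul, hPQ]
  · rw [he, swp_Phi]

theorem swp_mem (e : Ix → ℂ) : swp (swp e) = e ∧ (swp e ∈ XX ↔ e ∈ XX) := by
  refine ⟨swp_mem_inv e, fun h => ?_, swp_mem_fwd e⟩
  rw [← swp_mem_inv e]
  exact swp_mem_fwd _ h

end Fano612
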