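import Pool.Agent.Helper612.Fano.Defs
import Pool.Agent.Helper612.Fano.P_swp_mem
import Pool.Agent.Helper612.Fano.P_cub_Phi
import Pool.Agent.Helper612.Fano.P_swp_cub
import Pool.Agent.Helper612.Fano.P_cub_zero

set_option autoImplicit false
set_option linter.unusedVariables false
set_option linter.unusedSectionVars false

open MvPolynomial

namespace Fano612



theorem lin432 {u1 u2 : Fin 3 → ℂ} (h1 : u1 ≠ 0) (h2 : u2 ≠ 0) :
    ∃ l : Fin 3 → ℂ, l 0 * u1 0 + l 1 * u1 1 + l 2 * u1 2 ≠ 0 ∧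
      l 0 * u2 0 + l 1 * u2 1 + l 2 * u2 2 ≠ 0 := by
  obtain ⟨i1, hi1⟩ := Function.ne_iff.1 h1
  obtain ⟨i2, hi2⟩ := Function.ne_iff.1 h2
  obtain ⟨s, hs⟩ := Infinite.exists_notMem_finset
    ({-(u1 i1) / u1 i2, -(u2 i1) / u2 i2} : Finset ℂ)
  rw [Finset.mem_insert, Finset.mem_singleton, not_or] at hs
  have key : ∀ u : Fin 3 → ℂ, (Pi.single i1 1 + s • Pi.single i2 1 : Fin 3 → ℂ) 0 * u 0 +
      (Pi.single i1 1 + s • Pi.single i2 1 : Fin 3 → ℂ) 1 * u 1 +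
      (Pi.single i1 1 + s • Pi.single i2 1 : Fin 3 → ℂ) 2 * u 2 = u i1 + s * u i2 := by
    intro u
    fin_cases i1 <;> fin_cases i2 <;> simp [Pi.single_apply] <;> ring
  refine ⟨Pi.single i1 1 + s • Pi.single i2 1, ?_, ?_⟩
  · rw [key]
    intro h
    by_cases h3 : u1 i2 = 0
    · rw [h3, mul_zero, add_zero] at h
      exact hi1 h
    · apply hs.1
      rw [eq_div_iff h3]
      linear_combination h
  · rw [key]
    intro h
    apply hs.2
    rw [eq_div_iff hi2]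
    linear_combination h

theorem plane432 (l : Fin 3 → ℂ) (hl : l ≠ 0) : ∃ (p q : Fin 3 → ℂ) (c : ℂ), c ≠ 0 ∧
    l 0 * p 0 + l 1 * p 1 + l 2 * p 2 = 0 ∧ l 0 * q 0 + l 1 * q 1 + l 2 * q 2 = 0 ∧
    ∀ v, det3 v p q = c * (l 0 * v 0 + l 1 * v 1 + l 2 * v 2) := by
  obtain ⟨i, hi⟩ := Function.ne_iff.1 hl
  fin_cases i
  · refine ⟨![-l 1, l 0, 0], ![-l 2, 0, l 0], l 0, hi, ?_, ?_, fun v => ?_⟩
    · simp; ring
    · simp; ring
    · simp [det3]; ring
  · refine ⟨![l 1, -l 0, 0], ![0, -l 2, l 1], -l 1, neg_ne_zero.2 hi, ?_, ?_, fun v => ?_⟩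
    · simp; ring
    · simp; ring
    · simp [det3]; ring
  · refine ⟨![l 2, 0, -l 0], ![0, l 2, -l 1], l 2, hi, ?_, ?_, fun v => ?_⟩
    · simp; ring
    · simp; ring
    · simp [det3]; ring

theorem model_false432 {u1 u2 : Fin 3 → ℂ} (h1 : u1 ≠ 0) (h2 : u2 ≠ 0) (w : Fin 3 → ℂ) :
    ∃ e ∈ XX, cub false e u1 ≠ 0 ∧ cub false e u2 ≠ 0 ∧ cub true e w = 0 := by
  obtain ⟨l, hl1, hl2⟩ := lin432 h1 h2
  have hl0 : l ≠ 0 := by
    rintro rfl
    simp at hl1
  obtain ⟨p, q, c, hc, hp, hq, hdet⟩ := plane432 l hl0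
  obtain ⟨P, hP⟩ : ∃ P : M3, P = Matrix.of fun i j => p i * l j := ⟨_, rfl⟩
  obtain ⟨Q, hQ⟩ : ∃ Q : M3, Q = Matrix.of fun i j => q i * l j := ⟨_, rfl⟩
  have hcomm : P * Q = Q * P := by
    ext i j
    rw [Matrix.mul_apply, Matrix.mul_apply, hP, hQ]
    simp only [Matrix.of_apply, Fin.sum_univ_three]
    linear_combination (p i * l j) * hq - (q i * l j) * hp
  have hcub : ∀ u : Fin 3 → ℂ, cub false (Phi P Q) u =
      c * (l 0 * u 0 + l 1 * u 1 + l 2 * u 2) ^ 3 := by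
    intro u
    rw [(cub_Phi P Q u).1]
    have e1 : P.mulVec u = (l 0 * u 0 + l 1 * u 1 + l 2 * u 2) • p := by
      funext i
      rw [hP]
      simp only [Matrix.mulVec, dotProduct, Matrix.of_apply, Fin.sum_univ_three, Pi.smul_apply,
        smul_eq_mul]
      ring
    have e2 : Q.mulVec u = (l 0 * u 0 + l 1 * u 1 + l 2 * u 2) • q := by
      funext i
      rw [hQ]
      simp only [Matrix.mulVec, dotProduct, Matrix.of_apply, Fin.sum_univ_three, Pi.smul_apply,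
        smul_eq_mul]
      ring
    rw [e1, e2]
    have e3 : ∀ (s : ℂ), det3 u (s • p) (s • q) = s ^ 2 * det3 u p q := by
      intro s
      simp only [det3, Pi.smul_apply, smul_eq_mul]
      ring
    rw [e3, hdet]
    ring
  refine ⟨Phi P Q, ⟨?_, P, Q, hcomm, rfl⟩, ?_, ?_, ?_⟩
  · intro h
    have h3 := hcub u1
    rw [h] at h3
    have h4 : cub false (0 : Ix → ℂ) u1 = 0 := by simp [cub]
    rw [h4] at h3
    exact mul_ne_zero hc (pow_ne_zero 3 hl1) h3.symm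
  · rw [hcub]
    exact mul_ne_zero hc (pow_ne_zero 3 hl1)
  · rw [hcub]
    exact mul_ne_zero hc (pow_ne_zero 3 hl2)
  · rw [(cub_Phi P Q w).2]
    have e1 : P.transpose.mulVec w = (p 0 * w 0 + p 1 * w 1 + p 2 * w 2) • l := by
      funext i
      rw [hP]
      simp only [Matrix.mulVec, dotProduct, Matrix.transpose_apply, Matrix.of_apply,
        Fin.sum_univ_three, Pi.smul_apply, smul_eq_mul]
      ring
    have e2 : Q.transpose.mulVec w = (q 0 * w 0 + q 1 * w 1 + q 2 * w 2) • l := by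
      funext i
      rw [hQ]
      simp only [Matrix.mulVec, dotProduct, Matrix.transpose_apply, Matrix.of_apply,
        Fin.sum_univ_three, Pi.smul_apply, smul_eq_mul]
      ring
    rw [e1, e2]
    simp only [det3, Pi.smul_apply, smul_eq_mul]
    ring

theorem model_expo {u1 u2 : Fin 3 → ℂ} (h1 : u1 ≠ 0) (h2 : u2 ≠ 0) (w : Fin 3 → ℂ) (b : Bool) :
    ∃ e ∈ XX, cub b e u1 ≠ 0 ∧ cub b e u2 ≠ 0 ∧ cub (!b) e w = 0 := by
  obtain ⟨e, he, h3, h4, h5⟩ := model_false432 h1 h2 w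
  cases b
  · exact ⟨e, he, h3, h4, h5⟩
  · refine ⟨swp e, (swp_mem e).2.2 he, ?_, ?_, ?_⟩
    · rw [swp_cub]; exact h3
    · rw [swp_cub]; exact h4
    · rw [swp_cub]; exact h5

end Fano612
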