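import Pool.Agent.Helper612.Fano.Defs

set_option autoImplicit false
set_option linter.unusedVariables false
set_option linter.unusedSectionVars false

open MvPolynomial

namespace Fano612



theorem act_cub_aux1 (x y z : Fin 3 → ℂ) : (∑ a, x a) * (∑ b, y b) * (∑ c, z c) =
    ∑ q : Fin 3 × Fin 3 × Fin 3, x q.1 * y q.2.1 * z q.2.2 := by
  simp only [Fintype.sum_prod_type, Fin.sum_univ_three]
  ring

theorem act_cub_aux (r : ℂ) (f : Fin 3 → Fin 3 → Fin 3 → ℂ) (G : Fin 3 → Fin 3 → ℂ)
    (u : Fin 3 → ℂ) :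
    ∑ a, ∑ b, ∑ c, (r * ∑ i, ∑ j, ∑ l, f i j l * G i a * G j b * G l c) * u a * u b * u c =
      r * ∑ i, ∑ j, ∑ l, f i j l * (∑ a, G i a * u a) * (∑ b, G j b * u b) * (∑ c, G l c * u c) := by
  have h1 : ∑ a, ∑ b, ∑ c, (r * ∑ i, ∑ j, ∑ l, f i j l * G i a * G j b * G l c) * u a * u b * u c =
      ∑ q : Fin 3 × Fin 3 × Fin 3, ∑ p : Fin 3 × Fin 3 × Fin 3,
        r * (f p.1 p.2.1 p.2.2 * ((G p.1 q.1 * u q.1) * (G p.2.1 q.2.1 * u q.2.1) *
          (G p.2.2 q.2.2 * u q.2.2))) := by
    rw [Fintype.sum_prod_type]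
    refine Finset.sum_congr rfl fun a _ => ?_
    rw [Fintype.sum_prod_type]
    refine Finset.sum_congr rfl fun b _ => ?_
    refine Finset.sum_congr rfl fun c _ => ?_
    rw [Fintype.sum_prod_type, Finset.mul_sum, Finset.sum_mul, Finset.sum_mul, Finset.sum_mul]
    refine Finset.sum_congr rfl fun i _ => ?_
    rw [Fintype.sum_prod_type, Finset.mul_sum, Finset.sum_mul, Finset.sum_mul, Finset.sum_mul]
    refine Finset.sum_congr rfl fun j _ => ?_
    rw [Finset.mul_sum, Finset.sum_mul, Finset.sum_mul, Finset.sum_mul]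
    refine Finset.sum_congr rfl fun l _ => ?_
    ring
  rw [h1, Finset.sum_comm, Fintype.sum_prod_type, Finset.mul_sum]
  refine Finset.sum_congr rfl fun i _ => ?_
  rw [Fintype.sum_prod_type, Finset.mul_sum]
  refine Finset.sum_congr rfl fun j _ => ?_
  rw [Finset.mul_sum]
  refine Finset.sum_congr rfl fun l _ => ?_
  rw [← Finset.mul_sum, ← Finset.mul_sum, ← act_cub_aux1 (fun a => G i a * u a) (fun a => G j a * u a)
    (fun a => G l a * u a)]
  ring

theorem act_cub (g k : M3) (e : Ix → ℂ) (u : Fin 3 → ℂ) :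
    cub false (act g k e) u = k.det * cub false e (g.mulVec u) ∧
    cub true (act g k e) u = g.det * cub true e (k.transpose.mulVec u) := by
  constructor
  · exact act_cub_aux k.det (fun i j l => e (false, i, j, l)) g u
  · exact act_cub_aux g.det (fun i j l => e (true, i, j, l)) (fun i a => k a i) u

end Fano612
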