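import Pool.Agent.Helper612.Fano.Defs

set_option autoImplicit false
set_option linter.unusedVariables false
set_option linter.unusedSectionVars false

open MvPolynomial

namespace Fano612



theorem act_sym (g k : M3) {e : Ix → ℂ} (h : Sym3 e) : Sym3 (act g k e) ∧ Sym3 (swp e) := by
  refine ⟨?_, fun b i j l => h (!b) i j l⟩
  intro b a b' c
  cases b
  · constructor
    · show k.det * ∑ i, ∑ j, ∑ l, e (false, i, j, l) * g i a * g j b' * g l c =
        k.det * ∑ i, ∑ j, ∑ l, e (false, i, j, l) * g i b' * g j a * g l c
      congr 1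
      rw [Finset.sum_comm]
      refine Finset.sum_congr rfl fun i _ => Finset.sum_congr rfl fun j _ =>
        Finset.sum_congr rfl fun l _ => ?_
      rw [(h false j i l).1]; ring
    · show k.det * ∑ i, ∑ j, ∑ l, e (false, i, j, l) * g i a * g j b' * g l c =
        k.det * ∑ i, ∑ j, ∑ l, e (false, i, j, l) * g i a * g j c * g l b'
      congr 1
      refine Finset.sum_congr rfl fun i _ => ?_
      rw [Finset.sum_comm]
      refine Finset.sum_congr rfl fun j _ => Finset.sum_congr rfl fun l _ => ?_
      rw [(h false i l j).2]; ring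
  · constructor
    · show g.det * ∑ i, ∑ j, ∑ l, e (true, i, j, l) * k a i * k b' j * k c l =
        g.det * ∑ i, ∑ j, ∑ l, e (true, i, j, l) * k b' i * k a j * k c l
      congr 1
      rw [Finset.sum_comm]
      refine Finset.sum_congr rfl fun i _ => Finset.sum_congr rfl fun j _ =>
        Finset.sum_congr rfl fun l _ => ?_
      rw [(h true j i l).1]; ring
    · show g.det * ∑ i, ∑ j, ∑ l, e (true, i, j, l) * k a i * k b' j * k c l =
        g.det * ∑ i, ∑ j, ∑ l, e (true, i, j, l) * k a i * k c j * k b' l
      congr 1
      refine Finset.sum_congr rfl fun i _ => ?_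
      rw [Finset.sum_comm]
      refine Finset.sum_congr rfl fun j _ => Finset.sum_congr rfl fun l _ => ?_
      rw [(h true i l j).2]; ring

end Fano612
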