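import Pool.Agent.Helper612.Fano.Defs

set_option autoImplicit false
set_option linter.unusedVariables false
set_option linter.unusedSectionVars false

open MvPolynomial

namespace Fano612



theorem cub_kap {e : Ix → ℂ} (h : Sym3 e) {u : Fin 3 → ℂ} (h0 : u 0 = 0) :
    cub true e u = kap e 3 * u 1 ^ 3 + 3 * kap e 4 * u 1 ^ 2 * u 2 +
      3 * kap e 5 * u 1 * u 2 ^ 2 + kap e 6 * u 2 ^ 3 := by
  have h1 : e (true, 1, 2, 1) = e (true, 1, 1, 2) := ((h true 1 1 2).2).symm
  have h2 : e (true, 2, 1, 1) = e (true, 1, 1, 2) := by rw [← h1]; exact ((h true 1 2 1).1).symm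
  have h3 : e (true, 2, 1, 2) = e (true, 1, 2, 2) := ((h true 1 2 2).1).symm
  have h4 : e (true, 2, 2, 1) = e (true, 1, 2, 2) := by rw [← h3]; exact ((h true 2 1 2).2).symm
  have k3 : kap e 3 = e (true, 1, 1, 1) := rfl
  have k4 : kap e 4 = e (true, 1, 1, 2) := rfl
  have k5 : kap e 5 = e (true, 1, 2, 2) := rfl
  have k6 : kap e 6 = e (true, 2, 2, 2) := rfl
  rw [k3, k4, k5, k6]
  unfold cub
  simp only [Fin.sum_univ_three, h0, mul_zero, zero_mul, add_zero, zero_add]
  rw [h1, h2, h3, h4]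
  ring

end Fano612
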