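import Pool.Agent.Helper612.Fano.Defs
import Pool.Agent.Helper612.Fano.P_act_inv
import Pool.Agent.Helper612.Fano.P_act_kap
import Pool.Agent.Helper612.Fano.P_swp_cub
import Pool.Agent.Helper612.Fano.P_act_cub
import Pool.Agent.Helper612.Fano.P_Phi_sym
import Pool.Agent.Helper612.Fano.P_act_sym
import Pool.Agent.Helper612.Fano.P_cub_kap

set_option autoImplicit false
set_option linter.unusedVariables false
set_option linter.unusedSectionVars false

open MvPolynomial

namespace Fano612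



theorem model_lin {g k g' k' : M3} (h : g * k = 1) (h' : g' * k' = 1)
    (h0 : ∑ i, g i 0 * g' i 0 = 0) :
    ∃ l : (Fin 7 → ℂ) →ₗ[ℂ] ℂ, (∀ e ∈ XX, kap (act g' k' (swp e)) 0 = l (kap (act g k e))) ∧
      ∃ x, x 0 = 0 ∧ l x ≠ 0 := by
  classical
  have hk : k * g = 1 := mul_eq_one_comm.mp h
  have hk' : k' * g' = 1 := mul_eq_one_comm.mp h'
  have hd : k.det ≠ 0 := by
    intro h1
    have h2 : (k * g).det = 1 := by rw [hk]; exact Matrix.det_one
    rw [Matrix.det_mul, h1, zero_mul] at h2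
    exact zero_ne_one h2
  have hd' : k'.det ≠ 0 := by
    intro h1
    have h2 : (k' * g').det = 1 := by rw [hk']; exact Matrix.det_one
    rw [Matrix.det_mul, h1, zero_mul] at h2
    exact zero_ne_one h2
  obtain ⟨u, hu⟩ : ∃ u : Fin 3 → ℂ, u = fun i => g' i 0 := ⟨_, rfl⟩
  obtain ⟨w, hw⟩ : ∃ w : Fin 3 → ℂ, w = g.transpose.mulVec u := ⟨_, rfl⟩
  have hw0 : w 0 = 0 := by
    rw [hw, hu]
    exact h0
  have hune : u ≠ 0 := by
    intro h1
    have h2 : (k' * g') 0 0 = 1 := by rw [hk']; rfl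
    rw [Matrix.mul_apply] at h2
    have h3 : ∀ i, g' i 0 = 0 := by
      intro i
      have h4 := congrFun h1 i
      rw [hu] at h4
      exact h4
    simp only [h3, mul_zero, Finset.sum_const_zero] at h2
    exact zero_ne_one h2
  have hwne : w ≠ 0 := by
    intro h1
    apply hune
    have h2 : k.transpose.mulVec w = u := by
      rw [hw, Matrix.mulVec_mulVec, ← Matrix.transpose_mul, h, Matrix.transpose_one,
        Matrix.one_mulVec]
    rw [← h2, h1, Matrix.mulVec_zero]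
  have hw12 : w 1 ≠ 0 ∨ w 2 ≠ 0 := by
    by_contra hcon
    push Not at hcon
    apply hwne
    funext i
    fin_cases i
    · exact hw0
    · exact hcon.1
    · exact hcon.2
  let l : (Fin 7 → ℂ) →ₗ[ℂ] ℂ :=
    { toFun := fun x => k'.det * (k.det * (x 3 * w 1 ^ 3 + 3 * x 4 * w 1 ^ 2 * w 2 +
        3 * x 5 * w 1 * w 2 ^ 2 + x 6 * w 2 ^ 3))
      map_add' := by
        intro a b
        simp only [Pi.add_apply]
        ring
      map_smul' := by
        intro r a
        simp only [Pi.smul_apply, smul_eq_mul, RingHom.id_apply]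
        ring }
  refine ⟨l, ?_, ?_⟩
  · intro e he
    obtain ⟨_, P, Q, _, hPhi⟩ := he
    have hsym : Sym3 e := by rw [hPhi]; exact Phi_sym P Q
    rw [act_kap, swp_cub]
    have e1 : cub (!false) e (fun i => g' i 0) = cub true (act k g (act g k e)) u := by
      rw [act_inv h, hu]
      rfl
    rw [e1, (act_cub k g (act g k e) u).2, ← hw, cub_kap (act_sym g k hsym).1 hw0]
    rfl
  · rcases hw12 with h1 | h2
    · refine ⟨Pi.single 3 1, ?_, ?_⟩
      · rfl
      · have e2 : l (Pi.single 3 1) = k'.det * (k.det * (w 1 ^ 3)) := by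
          show k'.det * (k.det * ((Pi.single 3 1 : Fin 7 → ℂ) 3 * w 1 ^ 3 +
            3 * (Pi.single 3 1 : Fin 7 → ℂ) 4 * w 1 ^ 2 * w 2 +
            3 * (Pi.single 3 1 : Fin 7 → ℂ) 5 * w 1 * w 2 ^ 2 +
            (Pi.single 3 1 : Fin 7 → ℂ) 6 * w 2 ^ 3)) = _
          have a3 : (Pi.single 3 1 : Fin 7 → ℂ) 3 = 1 := rfl
          have a4 : (Pi.single 3 1 : Fin 7 → ℂ) 4 = 0 := rfl
          have a5 : (Pi.single 3 1 : Fin 7 → ℂ) 5 = 0 := rfl
          have a6 : (Pi.single 3 1 : Fin 7 → ℂ) 6 = 0 := rfl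
          rw [a3, a4, a5, a6]
          ring
        rw [e2]
        exact mul_ne_zero hd' (mul_ne_zero hd (pow_ne_zero _ h1))
    · refine ⟨Pi.single 6 1, ?_, ?_⟩
      · rfl
      · have e2 : l (Pi.single 6 1) = k'.det * (k.det * (w 2 ^ 3)) := by
          show k'.det * (k.det * ((Pi.single 6 1 : Fin 7 → ℂ) 3 * w 1 ^ 3 +
            3 * (Pi.single 6 1 : Fin 7 → ℂ) 4 * w 1 ^ 2 * w 2 +
            3 * (Pi.single 6 1 : Fin 7 → ℂ) 5 * w 1 * w 2 ^ 2 +
            (Pi.single 6 1 : Fin 7 → ℂ) 6 * w 2 ^ 3)) = _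
          have a3 : (Pi.single 6 1 : Fin 7 → ℂ) 3 = 0 := rfl
          have a4 : (Pi.single 6 1 : Fin 7 → ℂ) 4 = 0 := rfl
          have a5 : (Pi.single 6 1 : Fin 7 → ℂ) 5 = 0 := rfl
          have a6 : (Pi.single 6 1 : Fin 7 → ℂ) 6 = 1 := rfl
          rw [a3, a4, a5, a6]
          ring
        rw [e2]
        exact mul_ne_zero hd' (mul_ne_zero hd (pow_ne_zero _ h2))

end Fano612
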