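import Pool.Agent.Helper612.Fano.Defs

set_option autoImplicit false
set_option linter.unusedVariables false
set_option linter.unusedSectionVars false

open MvPolynomial

namespace Fano612



theorem sym_cub {e : Ix → ℂ} (h : Sym3 e) (h0 : e ≠ 0) : ∃ (b : Bool) (u : Fin 3 → ℂ),
    cub b e u ≠ 0 := by
  by_contra hcon
  push Not at hcon
  apply h0
  have key : ∀ (b : Bool) (i j l : Fin 3), e (b, i, j, l) = 0 := by
    intro b
    have s010 : e (b, 0, 1, 0) = e (b, 0, 0, 1) := (h b 0 1 0).2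
    have s020 : e (b, 0, 2, 0) = e (b, 0, 0, 2) := (h b 0 2 0).2
    have s021 : e (b, 0, 2, 1) = e (b, 0, 1, 2) := (h b 0 2 1).2
    have s100 : e (b, 1, 0, 0) = e (b, 0, 0, 1) := ((h b 1 0 0).1).trans ((h b 0 1 0).2)
    have s101 : e (b, 1, 0, 1) = e (b, 0, 1, 1) := (h b 1 0 1).1
    have s102 : e (b, 1, 0, 2) = e (b, 0, 1, 2) := (h b 1 0 2).1
    have s110 : e (b, 1, 1, 0) = e (b, 0, 1, 1) := ((h b 1 1 0).2).trans ((h b 1 0 1).1)
    have s120 : e (b, 1, 2, 0) = e (b, 0, 1, 2) := ((h b 1 2 0).2).trans ((h b 1 0 2).1)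
    have s121 : e (b, 1, 2, 1) = e (b, 1, 1, 2) := (h b 1 2 1).2
    have s200 : e (b, 2, 0, 0) = e (b, 0, 0, 2) := ((h b 2 0 0).1).trans ((h b 0 2 0).2)
    have s201 : e (b, 2, 0, 1) = e (b, 0, 1, 2) := ((h b 2 0 1).1).trans ((h b 0 2 1).2)
    have s202 : e (b, 2, 0, 2) = e (b, 0, 2, 2) := (h b 2 0 2).1
    have s210 : e (b, 2, 1, 0) = e (b, 0, 1, 2) := (((h b 2 1 0).1).trans ((h b 1 2 0).2)).trans ((h b 1 0 2).1)
    have s211 : e (b, 2, 1, 1) = e (b, 1, 1, 2) := ((h b 2 1 1).1).trans ((h b 1 2 1).2)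
    have s212 : e (b, 2, 1, 2) = e (b, 1, 2, 2) := (h b 2 1 2).1
    have s220 : e (b, 2, 2, 0) = e (b, 0, 2, 2) := ((h b 2 2 0).2).trans ((h b 2 0 2).1)
    have s221 : e (b, 2, 2, 1) = e (b, 1, 2, 2) := ((h b 2 2 1).2).trans ((h b 2 1 2).1)
    have hN : ∀ u : Fin 3 → ℂ, cub b e u = 1 * e (b, 0, 0, 0) * (u 0 * u 0 * u 0) + 3 * e (b, 0, 0, 1) * (u 0 * u 0 * u 1) + 3 * e (b, 0, 0, 2) * (u 0 * u 0 * u 2) + 3 * e (b, 0, 1, 1) * (u 0 * u 1 * u 1) + 6 * e (b, 0, 1, 2) * (u 0 * u 1 * u 2) + 3 * e (b, 0, 2, 2) * (u 0 * u 2 * u 2) + 1 * e (b, 1, 1, 1) * (u 1 * u 1 * u 1) + 3 * e (b, 1, 1, 2) * (u 1 * u 1 * u 2) + 3 * e (b, 1, 2, 2) * (u 1 * u 2 * u 2) + 1 * e (b, 2, 2, 2) * (u 2 * u 2 * u 2) := by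
      intro u
      unfold cub
      simp only [Fin.sum_univ_three]
      rw [s010, s020, s021, s100, s101, s102, s110, s120, s121, s200, s201, s202, s210, s211, s212, s220, s221]
      ring
    have ev : ∀ x y z : ℂ, 1 * e (b, 0, 0, 0) * (x * x * x) + 3 * e (b, 0, 0, 1) * (x * x * y) + 3 * e (b, 0, 0, 2) * (x * x * z) + 3 * e (b, 0, 1, 1) * (x * y * y) + 6 * e (b, 0, 1, 2) * (x * y * z) + 3 * e (b, 0, 2, 2) * (x * z * z) + 1 * e (b, 1, 1, 1) * (y * y * y) + 3 * e (b, 1, 1, 2) * (y * y * z) + 3 * e (b, 1, 2, 2) * (y * z * z) + 1 * e (b, 2, 2, 2) * (z * z * z) = 0 := by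
      intro x y z
      have h1 := hcon b ![x, y, z]
      rw [hN] at h1
      simpa using h1
    have a0 := ev 1 0 0
    have a1 := ev 0 1 0
    have a2 := ev 0 0 1
    have b1 := ev 1 1 0
    have b2 := ev 1 (-1) 0
    have b3 := ev 1 0 1
    have b4 := ev 1 0 (-1)
    have b5 := ev 0 1 1
    have b6 := ev 0 1 (-1)
    have b7 := ev 1 1 1
    have c000 : e (b, 0, 0, 0) = 0 := by linear_combination a0
    have c111 : e (b, 1, 1, 1) = 0 := by linear_combination a1
    have c222 : e (b, 2, 2, 2) = 0 := by linear_combination a2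
    have c001 : e (b, 0, 0, 1) = 0 := by linear_combination (1 / 6) * (b1 - b2) - (1 / 3) * a1
    have c011 : e (b, 0, 1, 1) = 0 := by linear_combination (1 / 6) * (b1 + b2) - (1 / 3) * a0
    have c002 : e (b, 0, 0, 2) = 0 := by linear_combination (1 / 6) * (b3 - b4) - (1 / 3) * a2
    have c022 : e (b, 0, 2, 2) = 0 := by linear_combination (1 / 6) * (b3 + b4) - (1 / 3) * a0
    have c112 : e (b, 1, 1, 2) = 0 := by linear_combination (1 / 6) * (b5 - b6) - (1 / 3) * a2
    have c122 : e (b, 1, 2, 2) = 0 := by linear_combination (1 / 6) * (b5 + b6) - (1 / 3) * a1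
    have c012 : e (b, 0, 1, 2) = 0 := by
      linear_combination (1 / 6) * b7 - (1 / 6) * (c000 + c111 + c222) -
        (1 / 2) * (c001 + c011 + c002 + c022 + c112 + c122)
    intro i j l
    fin_cases i <;> fin_cases j <;> fin_cases l <;>
      first
      | exact c000
      | exact c001
      | exact c002
      | exact s010.trans c001
      | exact c011
      | exact c012
      | exact s020.trans c002
      | exact s021.trans c012
      | exact c022
      | exact s100.trans c001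
      | exact s101.trans c011
      | exact s102.trans c012
      | exact s110.trans c011
      | exact c111
      | exact c112
      | exact s120.trans c012
      | exact s121.trans c112
      | exact c122
      | exact s200.trans c002
      | exact s201.trans c012
      | exact s202.trans c022
      | exact s210.trans c012
      | exact s211.trans c112
      | exact s212.trans c122
      | exact s220.trans c022
      | exact s221.trans c122
      | exact c222
  funext ⟨b, i, j, l⟩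
  exact key b i j l

end Fano612
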