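import Pool.Agent.Helper612.Fano.Defs
import Pool.Agent.Helper612.Fano.P_chart0_exists
import Pool.Agent.Helper612.Fano.P_act_inv
import Pool.Agent.Helper612.Fano.P_act_mem
import Pool.Agent.Helper612.Fano.P_swp_mem
import Pool.Agent.Helper612.Fano.P_chart_trans
import Pool.Agent.Helper612.Fano.P_act_kap
import Pool.Agent.Helper612.Fano.P_swp_cub
import Pool.Agent.Helper612.Fano.P_Phi_sym
import Pool.Agent.Helper612.Fano.P_sym_cub
import Pool.Agent.Helper612.Fano.P_cub_zero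
import Pool.Agent.Helper612.Fano.P_gl_col
import Pool.Agent.Helper612.Fano.P_model_lin
import Pool.Agent.Helper612.Fano.P_model_expo
import Pool.Agent.Helper612.Fano.P_exists_perp

set_option autoImplicit false
set_option linter.unusedVariables false
set_option linter.unusedSectionVars false

open MvPolynomial

namespace Fano612



theorem ae_chart (b : Bool) (q : {q : M3 × M3 // q.1 * q.2 = 1}) :
    ∃ c : Chart XX 6 3, ∀ e, c.κ e = kap (act q.1.1 q.1.2 (if b then swp e else e)) := by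
  obtain ⟨c0, hc0⟩ := chart0_exists
  obtain ⟨⟨g, k⟩, h⟩ := q
  simp only at h
  have h' : k * g = 1 := mul_eq_one_comm.1 h
  cases b with
  | false =>
    obtain ⟨c, hc⟩ := chart_trans c0 (act g k) (act k g) (fun e => act_inv h' e)
      (fun e => act_inv h e) (fun e => act_mem h e)
    refine ⟨c, fun e => ?_⟩
    rw [hc, hc0]
    simp
  | true =>
    obtain ⟨c, hc⟩ := chart_trans c0 ((act g k).comp swp) (swp.comp (act k g))
      (fun e => by
        simp only [LinearMap.comp_apply]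
        rw [(swp_mem _).1, act_inv h' e])
      (fun e => by
        simp only [LinearMap.comp_apply]
        rw [act_inv h, (swp_mem _).1])
      (fun e => by
        simp only [LinearMap.comp_apply]
        rw [act_mem h, (swp_mem _).2])
    refine ⟨c, fun e => ?_⟩
    rw [hc, hc0]
    simp

/-- the charts -/
noncomputable def aeC (a : Bool × {q : M3 × M3 // q.1 * q.2 = 1}) : Chart XX 6 3 :=
  Classical.choose (ae_chart a.1 a.2)

theorem aeC_spec (a : Bool × {q : M3 × M3 // q.1 * q.2 = 1}) (e : Ix → ℂ) :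
    (aeC a).κ e = kap (act a.2.1.1 a.2.1.2 (if a.1 then swp e else e)) :=
  Classical.choose_spec (ae_chart a.1 a.2) e

theorem aeC_zero (a : Bool × {q : M3 × M3 // q.1 * q.2 = 1}) (e : Ix → ℂ) :
    (aeC a).κ e 0 = a.2.1.2.det * cub a.1 e (fun i => a.2.1.1 i 0) := by
  rw [aeC_spec, act_kap]
  obtain ⟨b, q⟩ := a
  cases b with
  | false => simp
  | true => simp [swp_cub]

theorem ae_det (q : {q : M3 × M3 // q.1 * q.2 = 1}) : q.1.2.det ≠ 0 := by
  intro h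
  have h1 := congrArg Matrix.det q.2
  rw [Matrix.det_mul, h, mul_zero, Matrix.det_one] at h1
  exact zero_ne_one h1

theorem ae_col (q : {q : M3 × M3 // q.1 * q.2 = 1}) : (fun i => q.1.1 i 0) ≠ 0 := by
  intro h
  have h' : q.1.2 * q.1.1 = 1 := mul_eq_one_comm.1 q.2
  have h1 := congrFun (congrFun h' 0) 0
  rw [Matrix.mul_apply] at h1
  have h2 : ∀ j, q.1.1 j 0 = 0 := fun j => congrFun h j
  simp [h2] at h1

theorem ae_cover (e : Ix → ℂ) (hs : Sym3 e) (h0 : e ≠ 0) :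
    ∃ a : Bool × {q : M3 × M3 // q.1 * q.2 = 1}, (aeC a).κ e 0 ≠ 0 := by
  obtain ⟨b, u, hu⟩ := sym_cub hs h0
  have hu0 : u ≠ 0 := by
    rintro rfl
    exact hu (cub_zero b e)
  obtain ⟨g, k, hgk, hg⟩ := gl_col hu0
  refine ⟨(b, ⟨(g, k), hgk⟩), ?_⟩
  rw [aeC_zero]
  refine mul_ne_zero (ae_det _) ?_
  have : (fun i => g i 0) = u := funext hg
  simp only [this]
  exact hu

/-- the relation -/
def aeG (a b : Bool × {q : M3 × M3 // q.1 * q.2 = 1}) : Prop :=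
  a.1 ≠ b.1 ∧ ∑ i, a.2.1.1 i 0 * b.2.1.1 i 0 = 0

theorem aeG_symm (a b : Bool × {q : M3 × M3 // q.1 * q.2 = 1}) (h : aeG a b) : aeG b a := by
  refine ⟨h.1.symm, ?_⟩
  rw [← h.2]
  exact Finset.sum_congr rfl fun i _ => mul_comm _ _

theorem aeG_perp (b : Bool) (u v : Fin 3 → ℂ) :
    ∃ q : {q : M3 × M3 // q.1 * q.2 = 1}, ∑ i, u i * q.1.1 i 0 = 0 ∧ ∑ i, v i * q.1.1 i 0 = 0 := by
  obtain ⟨w, hw, h1, h2⟩ := exists_perp u v
  obtain ⟨g, k, hgk, hg⟩ := gl_col hw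
  refine ⟨⟨(g, k), hgk⟩, ?_, ?_⟩
  · simp only [hg]; exact h1
  · simp only [hg]; exact h2

theorem ae_same (b : Bool) (q q' : {q : M3 × M3 // q.1 * q.2 = 1}) :
    Relation.ReflTransGen aeG (b, q) (b, q') := by
  obtain ⟨r, h1, h2⟩ := aeG_perp b (fun i => q.1.1 i 0) (fun i => q'.1.1 i 0)
  have e1 : aeG (b, q) (!b, r) := ⟨by simp, h1⟩
  have e2 : aeG (b, q') (!b, r) := ⟨by simp, h2⟩
  exact (Relation.ReflTransGen.single e1).tail (aeG_symm _ _ e2)

theorem ae_conn (a b : Bool × {q : M3 × M3 // q.1 * q.2 = 1}) :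
    Relation.ReflTransGen aeG a b := by
  obtain ⟨b1, q1⟩ := a
  obtain ⟨b2, q2⟩ := b
  by_cases hb : b1 = b2
  · subst hb
    exact ae_same _ _ _
  · obtain ⟨r, h1, h2⟩ := aeG_perp b1 (fun i => q1.1.1 i 0) (fun i => q1.1.1 i 0)
    have e1 : aeG (b1, q1) (b2, r) := ⟨hb, h1⟩
    exact (Relation.ReflTransGen.single e1).trans (ae_same _ _ _)

theorem ae_lin (a b : Bool × {q : M3 × M3 // q.1 * q.2 = 1}) (h : aeG a b) :
    ∃ l : (Fin 7 → ℂ) →ₗ[ℂ] ℂ,
    (∀ e ∈ XX, (aeC b).κ e 0 = l ((aeC a).κ e)) ∧ ∃ x, x 0 = 0 ∧ l x ≠ 0 := by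
  obtain ⟨b1, q1⟩ := a
  obtain ⟨b2, q2⟩ := b
  obtain ⟨hb, hs⟩ := h
  simp only at hb hs
  obtain ⟨l, hl, hx⟩ := model_lin q1.2 q2.2 hs
  refine ⟨l, ?_, hx⟩
  intro e he
  rw [aeC_spec, aeC_spec]
  cases b1 with
  | false =>
    cases b2 with
    | false => exact absurd rfl hb
    | true => simpa using hl e he
  | true =>
    cases b2 with
    | true => exact absurd rfl hb
    | false =>
      have := hl (swp e) ((swp_mem e).2.2 he)
      rw [(swp_mem e).1] at this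
      simpa using this

theorem ae_expo (a b b' : Bool × {q : M3 × M3 // q.1 * q.2 = 1}) (h : aeG a b) (h' : aeG a b') :
    ∃ e ∈ XX, (aeC b).κ e 0 ≠ 0 ∧ (aeC b').κ e 0 ≠ 0 ∧ (aeC a).κ e 0 = 0 := by
  obtain ⟨b0, q0⟩ := a
  obtain ⟨b1, q1⟩ := b
  obtain ⟨b2, q2⟩ := b'
  have hb := h.1
  have hb' := h'.1
  simp only at hb hb'
  have e1 : b1 = !b0 := by cases b0 <;> cases b1 <;> simp_all
  have e2 : b2 = !b0 := by cases b0 <;> cases b2 <;> simp_all
  obtain ⟨e, he, h1, h2, h3⟩ := model_expo (ae_col q1) (ae_col q2) (fun i => q0.1.1 i 0) (!b0)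
  rw [Bool.not_not] at h3
  refine ⟨e, he, ?_, ?_, ?_⟩
  · rw [aeC_zero, e1]
    exact mul_ne_zero (ae_det _) h1
  · rw [aeC_zero, e2]
    exact mul_ne_zero (ae_det _) h2
  · rw [aeC_zero]
    simp only
    rw [h3, mul_zero]

theorem atlas_exists : ∃ A : Atlas XX 6 3,
    ∀ e : Ix → ℂ, Sym3 e → e ≠ 0 → ∃ a, (A.c a).κ e 0 ≠ 0 := by
  refine ⟨⟨Bool × {q : M3 × M3 // q.1 * q.2 = 1}, aeC, aeG, ?_, aeG_symm, ae_lin, ae_expo,
    ae_conn, ?_⟩, ae_cover⟩
  · rintro e ⟨h0, P, Q, hPQ, rfl⟩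
    exact ae_cover _ (Phi_sym P Q) h0
  · obtain ⟨r, h1, -⟩ := aeG_perp false (fun i => (1 : M3) i 0) (fun i => (1 : M3) i 0)
    exact ⟨(false, ⟨(1, 1), one_mul 1⟩), (true, r), ⟨by simp, h1⟩⟩

end Fano612
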