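import Pool.Agent.Helper612.Fano.Defs
import Pool.Agent.Helper612.Fano.P_atlas_closed
import Pool.Agent.Helper612.Fano.P_Phi_sym
import Pool.Agent.Helper612.Fano.P_atlas_exists

set_option autoImplicit false
set_option linter.unusedVariables false
set_option linter.unusedSectionVars false

open MvPolynomial

namespace Fano612



theorem XX_closed : IsClosedCone XX := by
  obtain ⟨A, hA⟩ := atlas_exists
  refine atlas_closed A {F | ∃ (b : Bool) (i j l : Fin 3),
    F = X (b, i, j, l) - X (b, j, i, l) ∨ F = X (b, i, j, l) - X (b, i, l, j)} ?_ ?_ ?_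
  · rintro F ⟨b, i, j, l, rfl | rfl⟩
    · exact ⟨1, (isHomogeneous_X ℂ _).sub (isHomogeneous_X ℂ _)⟩
    · exact ⟨1, (isHomogeneous_X ℂ _).sub (isHomogeneous_X ℂ _)⟩
  · rintro F hF e ⟨-, P, Q, -, rfl⟩
    have h := Phi_sym P Q
    obtain ⟨b, i, j, l, rfl | rfl⟩ := hF
    · rw [map_sub, eval_X, eval_X, (h b i j l).1, sub_self]
    · rw [map_sub, eval_X, eval_X, (h b i j l).2, sub_self]
  · intro e he h
    apply hA e _ he
    intro b i j l
    have h1 := h _ ⟨b, i, j, l, Or.inl rfl⟩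
    have h2 := h _ ⟨b, i, j, l, Or.inr rfl⟩
    rw [map_sub, eval_X, eval_X, sub_eq_zero] at h1 h2
    exact ⟨h1, h2⟩

end Fano612
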