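import Pool.Agent.Helper612.Fano.Defs

set_option autoImplicit false
set_option linter.unusedVariables false
set_option linter.unusedSectionVars false

open MvPolynomial

namespace Fano612



theorem sec_const {ι : Type} [Fintype ι] (U : Set (ι → ℂ)) (c : ℂ) : IsSec U 0 (fun _ => c) := by
  intro v hv
  refine ⟨C c, C 1, 0, 0, isHomogeneous_C ι c, isHomogeneous_C ι 1, by simp, by simp, ?_⟩
  intro w hw _
  simp

end Fano612
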