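import Pool.Agent.Helper612.Fano.Defs

set_option autoImplicit false
set_option linter.unusedVariables false
set_option linter.unusedSectionVars false

open MvPolynomial

namespace Fano612



theorem sec_eq {ι : Type} [Fintype ι] {X U U' : Set (ι → ℂ)} (hX : IsIrr X) (hU : ZOpen X U)
    (hU' : ZOpen X U') (hn : U'.Nonempty) {m : ℤ} {h h' : (ι → ℂ) → ℂ}
    (H : IsSec U m h) (H' : IsSec U m h') (hh : ∀ v ∈ U ∩ U', h v = h' v) :
    ∀ v ∈ U, h v = h' v := by
  intro v hv
  obtain ⟨F, G, p, q, hF, hG, hpq, hG0, hFG⟩ := H v hv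
  obtain ⟨F', G', p', q', hF', hG', hpq', hG0', hFG'⟩ := H' v hv
  obtain ⟨u, hu⟩ := hn
  obtain ⟨A, ⟨dA, hA⟩, hA0, hAU⟩ := hU'.2 u hu
  obtain ⟨B, ⟨dB, hB⟩, hB0, hBU⟩ := hU.2 v hv
  have hvX : v ∈ X := hU.1 hv
  have huX : u ∈ X := hU'.1 hu
  have hdeg : p' + q = p + q' := by
    have : ((p' + q : ℕ) : ℤ) = ((p + q' : ℕ) : ℤ) := by push_cast; linarith
    exact_mod_cast this
  have hE : IsForm (F * G' - F' * G) := by
    refine ⟨p + q', ?_⟩
    have h1 : (F * G').IsHomogeneous (p + q') := hF.mul hG'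
    have h2 : (F' * G).IsHomogeneous (p + q') := by
      rw [← hdeg]; exact hF'.mul hG
    exact h1.sub h2
  have hR : IsForm (B * G * G') := ⟨dB + q + q', (hB.mul hG).mul hG'⟩
  have hP : IsForm (A * (B * G * G')) := ⟨dA + (dB + q + q'), hA.mul ((hB.mul hG).mul hG')⟩
  have hcov : ∀ w ∈ X, eval w (A * (B * G * G')) = 0 ∨ eval w (F * G' - F' * G) = 0 := by
    intro w hw
    by_cases hz : eval w (A * (B * G * G')) = 0
    · exact Or.inl hz
    · right
      simp only [map_mul] at hz
      have hAw : eval w A ≠ 0 := left_ne_zero_of_mul hz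
      have h3 : eval w B * eval w G * eval w G' ≠ 0 := right_ne_zero_of_mul hz
      have hGw' : eval w G' ≠ 0 := right_ne_zero_of_mul h3
      have h4 : eval w B * eval w G ≠ 0 := left_ne_zero_of_mul h3
      have hBw : eval w B ≠ 0 := left_ne_zero_of_mul h4
      have hGw : eval w G ≠ 0 := right_ne_zero_of_mul h4
      have hwU : w ∈ U := hBU w hw hBw
      have hwU' : w ∈ U' := hAU w hw hAw
      have e := hh w ⟨hwU, hwU'⟩
      rw [hFG w hwU hGw, hFG' w hwU hGw', div_eq_div_iff hGw hGw'] at e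
      rw [map_sub, map_mul, map_mul, e, sub_self]
  have hEX : ∀ w ∈ X, eval w (F * G' - F' * G) = 0 := by
    rcases hX.2 (A * (B * G * G')) (F * G' - F' * G) hP hE hcov with h1 | h1
    · exfalso
      have h5 : ∀ w ∈ X, eval w A = 0 ∨ eval w (B * G * G') = 0 := by
        intro w hw
        have := h1 w hw
        rw [map_mul] at this
        exact mul_eq_zero.1 this
      rcases hX.2 A (B * G * G') ⟨dA, hA⟩ hR h5 with h2 | h2
      · exact hA0 (h2 u huX)
      · have := h2 v hvX
        simp only [map_mul] at this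
        exact (mul_ne_zero (mul_ne_zero hB0 hG0) hG0') this
    · exact h1
  have e := hEX v hvX
  rw [map_sub, map_mul, map_mul, sub_eq_zero] at e
  rw [hFG v hv hG0, hFG' v hv hG0', div_eq_div_iff hG0 hG0']
  exact e

end Fano612
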