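import Pool.Agent.Helper612.Fano.Defs

set_option autoImplicit false
set_option linter.unusedVariables false
set_option linter.unusedSectionVars false

open MvPolynomial

namespace Fano612



theorem sec_inv {ι : Type} [Fintype ι] {U : Set (ι → ℂ)} {m : ℤ} {h : (ι → ℂ) → ℂ}
    (H : IsSec U m h) (h0 : ∀ v ∈ U, h v ≠ 0) : IsSec U (-m) (fun v => (h v)⁻¹) := by
  intro v hv
  obtain ⟨F, G, p, q, hF, hG, hpq, hGv, hw⟩ := H v hv
  have hFv : eval v F ≠ 0 := by
    intro h1
    apply h0 v hv
    rw [hw v hv hGv, h1, zero_div]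
  refine ⟨G * G, F * G, q + q, p + q, hG.mul hG, hF.mul hG, by push_cast; omega, ?_, ?_⟩
  · rw [map_mul]
    exact mul_ne_zero hFv hGv
  · intro w hwU hne
    rw [map_mul] at hne
    have h1 := left_ne_zero_of_mul hne
    have h2 := right_ne_zero_of_mul hne
    show (h w)⁻¹ = _
    rw [hw w hwU h2, map_mul, map_mul]
    field_simp

end Fano612
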