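import Pool.Agent.Helper612.Fano.Defs

set_option autoImplicit false
set_option linter.unusedVariables false
set_option linter.unusedSectionVars false

open MvPolynomial

namespace Fano612



theorem sec_form {ι : Type} [Fintype ι] (U : Set (ι → ℂ)) {p : ℕ} {F : MvPolynomial ι ℂ}
    (hF : F.IsHomogeneous p) : IsSec U p (fun v => eval v F) := by
  intro v _
  refine ⟨F, 1, p, 0, hF, MvPolynomial.isHomogeneous_one _ _, by simp, ?_, ?_⟩
  · rw [map_one]
    exact one_ne_zero
  · intro w _ _
    rw [map_one, div_one]

end Fano612
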