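import Pool.Agent.Helper612.Fano.Defs
import Pool.Agent.Helper612.Fano.P_sec_congr
import Pool.Agent.Helper612.Fano.P_sec_form

set_option autoImplicit false
set_option linter.unusedVariables false
set_option linter.unusedSectionVars false

open MvPolynomial

namespace Fano612



theorem sec_lin {ι : Type} [Fintype ι] (U : Set (ι → ℂ)) (l : (ι → ℂ) →ₗ[ℂ] ℂ) :
    IsSec U 1 (fun v => l v) := by
  classical
  have hF : (∑ i, C (l (Pi.single i 1)) * X i : MvPolynomial ι ℂ).IsHomogeneous 1 := by
    refine IsHomogeneous.sum _ _ _ (fun i _ => ?_)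
    have h := (isHomogeneous_C ι (l (Pi.single i 1))).mul (isHomogeneous_X ℂ i)
    rwa [zero_add] at h
  have h := sec_form U hF
  rw [Nat.cast_one] at h
  refine sec_congr h (fun v _ => ?_)
  have hv : v = ∑ i, v i • (Pi.single i (1 : ℂ) : ι → ℂ) := by
    funext j
    simp [Finset.sum_apply, Pi.single_apply]
  conv_lhs => rw [hv]
  simp only [map_sum, map_smul, smul_eq_mul, map_mul, eval_C, eval_X]
  exact Finset.sum_congr rfl (fun i _ => mul_comm _ _)

end Fano612
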