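import Pool.Agent.Helper612.Fano.Defs

set_option autoImplicit false
set_option linter.unusedVariables false
set_option linter.unusedSectionVars false

open MvPolynomial

namespace Fano612



theorem sec_mono {ι : Type} [Fintype ι] {U U' : Set (ι → ℂ)} {m : ℤ} {h : (ι → ℂ) → ℂ}
    (H : IsSec U m h) (hU : U' ⊆ U) : IsSec U' m h := by
  intro v hv
  obtain ⟨F, G, p, q, hF, hG, hpq, hne, hw⟩ := H v (hU hv)
  exact ⟨F, G, p, q, hF, hG, hpq, hne, fun w hw' hG' => hw w (hU hw') hG'⟩

end Fano612
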