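import Pool.Agent.Helper612.Fano.Defs

set_option autoImplicit false
set_option linter.unusedVariables false
set_option linter.unusedSectionVars false

open MvPolynomial

namespace Fano612



theorem sec_mul {ι : Type} [Fintype ι] {U : Set (ι → ℂ)} {m m' : ℤ} {h h' : (ι → ℂ) → ℂ}
    (H : IsSec U m h) (H' : IsSec U m' h') : IsSec U (m + m') (fun v => h v * h' v) := by
  intro v hv
  obtain ⟨F, G, p, q, hF, hG, hpq, hGv, hh⟩ := H v hv
  obtain ⟨F', G', p', q', hF', hG', hpq', hGv', hh'⟩ := H' v hv
  refine ⟨F * F', G * G', p + p', q + q', hF.mul hF', hG.mul hG', by push_cast; linarith, ?_, ?_⟩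
  · rw [map_mul]
    exact mul_ne_zero hGv hGv'
  · intro w hw hGw
    rw [map_mul] at hGw
    show h w * h' w = _
    rw [hh w hw (left_ne_zero_of_mul hGw), hh' w hw (right_ne_zero_of_mul hGw), map_mul, map_mul,
      div_mul_div_comm]

end Fano612
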