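import Pool.Agent.Helper612.Fano.Defs
import Pool.Agent.Helper612.Fano.P_sec_mul
import Pool.Agent.Helper612.Fano.P_sec_inv
import Pool.Agent.Helper612.Fano.P_sec_congr

set_option autoImplicit false
set_option linter.unusedVariables false
set_option linter.unusedSectionVars false

open MvPolynomial

namespace Fano612



theorem sec_one_aux {ι : Type} [Fintype ι] {U : Set (ι → ℂ)} : IsSec U 0 (fun _ => (1 : ℂ)) := by
  intro v _
  refine ⟨1, 1, 0, 0, isHomogeneous_one _ _, isHomogeneous_one _ _, by simp, by simp, ?_⟩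
  intro w _ _
  simp

theorem sec_pow_aux {ι : Type} [Fintype ι] {U : Set (ι → ℂ)} {m : ℤ} {h : (ι → ℂ) → ℂ}
    (H : IsSec U m h) (n : ℕ) : IsSec U ((n : ℤ) * m) (fun v => h v ^ n) := by
  induction n with
  | zero =>
    have h1 : ((0 : ℕ) : ℤ) * m = 0 := by simp
    rw [h1]
    exact sec_congr sec_one_aux (fun v _ => by simp)
  | succ n ih =>
    have h1 : ((n + 1 : ℕ) : ℤ) * m = (n : ℤ) * m + m := by push_cast; ring
    rw [h1]
    exact sec_congr (sec_mul ih H) (fun v _ => by rw [pow_succ])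

theorem sec_zpow {ι : Type} [Fintype ι] {U : Set (ι → ℂ)} {m : ℤ} {h : (ι → ℂ) → ℂ}
    (H : IsSec U m h) (h0 : ∀ v ∈ U, h v ≠ 0) (k : ℤ) : IsSec U (k * m) (fun v => h v ^ k) := by
  obtain ⟨n, rfl | rfl⟩ := Int.eq_nat_or_neg k
  · exact sec_congr (sec_pow_aux H n) (fun v _ => by rw [zpow_natCast])
  · have h1 := sec_inv (sec_pow_aux H n) (fun v hv => pow_ne_zero n (h0 v hv))
    have h2 : -((n : ℤ) * m) = -(n : ℤ) * m := by ring
    rw [h2] at h1
    exact sec_congr h1 (fun v _ => by rw [zpow_neg, zpow_natCast])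

end Fano612
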