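import Pool.Agent.Helper612.Fano.Defs

set_option autoImplicit false
set_option linter.unusedVariables false
set_option linter.unusedSectionVars false

open MvPolynomial

namespace Fano612



theorem zopen_inter {ι : Type} [Fintype ι] {X U U' : Set (ι → ℂ)} (h : ZOpen X U)
    (h' : ZOpen X U') : ZOpen X (U ∩ U') := by
  refine ⟨fun v hv => h.1 hv.1, fun v hv => ?_⟩
  obtain ⟨F, ⟨d, hF⟩, hF0, hFU⟩ := h.2 v hv.1
  obtain ⟨G, ⟨e, hG⟩, hG0, hGU⟩ := h'.2 v hv.2
  refine ⟨F * G, ⟨d + e, hF.mul hG⟩, ?_, fun w hw hne => ?_⟩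
  · rw [map_mul]
    exact mul_ne_zero hF0 hG0
  · rw [map_mul] at hne
    exact ⟨hFU w hw (left_ne_zero_of_mul hne), hGU w hw (right_ne_zero_of_mul hne)⟩

end Fano612
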