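import Pool.Agent.Helper612.Fano.Defs
import Pool.Agent.Helper612.Fano.P_sec_mul
import Pool.Agent.Helper612.Fano.P_sec_inv
import Pool.Agent.Helper612.Fano.P_sec_mono
import Pool.Agent.Helper612.Fano.P_sec_congr
import Pool.Agent.Helper612.Fano.P_sec_zpow
import Pool.Agent.Helper612.Fano.P_sec_const
import Pool.Agent.Helper612.Fano.P_sec_lin
import Pool.Agent.Helper612.Fano.P_zopen_inter
import Pool.Agent.Helper612.Fano.P_sec_eq
import Pool.Agent.Helper612.Fano.P_p_mem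
import Pool.Agent.Helper612.Fano.P_V_open
import Pool.Agent.Helper612.Fano.P_atlas_irr

set_option autoImplicit false
set_option linter.unusedVariables false
set_option linter.unusedSectionVars false

open MvPolynomial

namespace Fano612



theorem all_ratio {ι : Type} [Fintype ι] {X : Set (ι → ℂ)} {n D : ℕ} (A : Atlas X n D)
    (L : LineBundle X) (h : A.K → L.I → (ι → ℂ) → ℂ) (H : ∀ a, Triv (A.c a) L (h a)) (m : ℤ)
    (hm : ∀ a b, A.good a b → ∃ r : ℂ, r ≠ 0 ∧ Rat L (A.c a) (A.c b) (h a) (h b) r m) :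
    ∀ a b, ∃ r : ℂ, r ≠ 0 ∧ Rat L (A.c a) (A.c b) (h a) (h b) r m := by
  intro a b
  have hab := A.conn a b
  induction hab with
  | refl =>
    refine ⟨1, one_ne_zero, ?_⟩
    intro i e he hv _
    have h0 : (A.c a).κ e 0 ≠ 0 := hv.2
    rw [div_self h0, one_zpow, one_mul, one_mul]
  | @tail b b' _ hbb ih =>
    obtain ⟨r, hr, hR⟩ := ih
    obtain ⟨r', hr', hR'⟩ := hm b b' hbb
    refine ⟨r * r', mul_ne_zero hr hr', ?_⟩
    intro i
    have hXi : IsIrr X := atlas_irr A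
    obtain ⟨U, hU⟩ : ∃ U : Set (ι → ℂ), U = L.U i ∩ (A.c a).V ∩ (A.c b').V := ⟨_, rfl⟩
    have hUo : ZOpen X U := by
      rw [hU]
      exact zopen_inter (zopen_inter (L.isOpen i) (V_open _)) (V_open _)
    have hn : ((A.c b).V).Nonempty := ⟨_, (p_mem (A.c b) (fun _ => 0)).1⟩
    have hs1 : IsSec U 0 (h a i) := by
      refine sec_mono ((H a).1 i) ?_
      rw [hU]
      rintro e ⟨⟨h1, h2⟩, h3⟩
      exact ⟨h1, h2⟩
    have hs2 : IsSec U 0 (h b' i) := by
      refine sec_mono ((H b').1 i) ?_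
      rw [hU]
      rintro e ⟨⟨h1, h2⟩, h3⟩
      exact ⟨h1, h3⟩
    have hne : ∀ e ∈ U, (A.c a).κ e 0 ≠ 0 ∧ (A.c b').κ e 0 ≠ 0 := by
      intro e he
      rw [hU] at he
      exact ⟨he.1.2.2, he.2.2⟩
    have hl1 : IsSec U 1 (fun v => (A.c b').κ v 0) :=
      sec_lin U ((LinearMap.proj (R := ℂ) (φ := fun _ => ℂ) (0 : Fin (n + 1))).comp (A.c b').κ)
    have hl2 : IsSec U 1 (fun v => (A.c a).κ v 0) :=
      sec_lin U ((LinearMap.proj (R := ℂ) (φ := fun _ => ℂ) (0 : Fin (n + 1))).comp (A.c a).κ)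
    have hl3 := sec_mul hl1 (sec_inv hl2 fun v hv => (hne v hv).1)
    have hl4 := sec_zpow hl3 (fun v hv => mul_ne_zero (hne v hv).2 (inv_ne_zero (hne v hv).1)) m
    have hl5 := sec_mul (sec_mul (sec_const U (r * r')) hl4) hs2
    have hd : (0 : ℤ) + m * (1 + -1) + 0 = 0 := by ring
    rw [hd] at hl5
    have key := sec_eq hXi hUo (V_open (A.c b)) hn hs1 hl5 (by
      rintro e ⟨he, heb⟩
      beta_reduce
      have hne' := hne e he
      rw [hU] at he
      have h1 := hR i e he.1.1 he.1.2 heb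
      have h2 := hR' i e he.1.1 heb he.2
      have hb0 : (A.c b).κ e 0 ≠ 0 := heb.2
      rw [h1, h2]
      have h3 : ((A.c b').κ e 0 * ((A.c a).κ e 0)⁻¹) ^ m =
          ((A.c b).κ e 0 / (A.c a).κ e 0) ^ m * ((A.c b').κ e 0 / (A.c b).κ e 0) ^ m := by
        rw [← mul_zpow]
        congr 1
        field_simp
      rw [h3]
      ring)
    intro e he hea heb'
    have h4 := key e (by rw [hU]; exact ⟨⟨he, hea⟩, heb'⟩)
    rw [h4]
    beta_reduce
    rw [div_eq_mul_inv]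

end Fano612
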