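import Pool.Agent.Helper612.Fano.Defs

set_option autoImplicit false
set_option linter.unusedVariables false
set_option linter.unusedSectionVars false

open MvPolynomial

namespace Fano612



theorem alt_ne {V : Type} [AddCommGroup V] [Module ℂ V] {N : ℕ} (T : Submodule ℂ V)
    (hT : Module.finrank ℂ T = N) (δ : V [⋀^Fin N]→ₗ[ℂ] ℂ)
    (h : ∃ w : Fin N → V, (∀ a, w a ∈ T) ∧ δ w ≠ 0) (u : Fin N → V) (hu : ∀ a, u a ∈ T)
    (hi : LinearIndependent ℂ u) : δ u ≠ 0 := by
  obtain ⟨w, hw, hδ⟩ := h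
  rcases Nat.eq_zero_or_pos N with hN | hN
  · subst hN
    rwa [Subsingleton.elim u w]
  have : Nonempty (Fin N) := ⟨⟨0, hN⟩⟩
  have hi' : LinearIndependent ℂ (fun a => (⟨u a, hu a⟩ : T)) := by
    apply LinearIndependent.of_comp T.subtype
    exact hi
  let b := basisOfLinearIndependentOfCardEqFinrank hi' (by rw [Fintype.card_fin, hT])
  have hb : (b : Fin N → T) = fun a => (⟨u a, hu a⟩ : T) :=
    coe_basisOfLinearIndependentOfCardEqFinrank _ _
  intro hzero
  apply hδ
  have h1 := (δ.compLinearMap T.subtype).eq_smul_basis_det b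
  have h2 : (δ.compLinearMap T.subtype) b = 0 := by
    rw [hb]
    exact hzero
  rw [h2, zero_smul] at h1
  have h3 : (δ.compLinearMap T.subtype) (fun a => (⟨w a, hw a⟩ : T)) = 0 := by rw [h1]; rfl
  exact h3

end Fano612
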