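import Pool.Agent.Helper612.Fano.Defs

set_option autoImplicit false
set_option linter.unusedVariables false
set_option linter.unusedSectionVars false

open MvPolynomial

namespace Fano612



theorem alt_prop {V : Type} [AddCommGroup V] [Module ℂ V] {N : ℕ} (T : Submodule ℂ V)
    (hT : Module.finrank ℂ T = N) (α β : V [⋀^Fin N]→ₗ[ℂ] ℂ) (u : Fin N → V) (hu : ∀ a, u a ∈ T)
    (hβ : β u = 1) (w : Fin N → V) (hw : ∀ a, w a ∈ T) : α w = α u * β w := by
  rcases Nat.eq_zero_or_pos N with hN | hN
  · subst hN
    have h1 : w = u := Subsingleton.elim _ _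
    rw [h1, hβ, mul_one]
  · haveI : Module.Finite ℂ T := Module.finite_of_finrank_pos (by rw [hT]; exact hN)
    haveI : Nonempty (Fin N) := ⟨⟨0, hN⟩⟩
    let u' : Fin N → T := fun a => ⟨u a, hu a⟩
    let w' : Fin N → T := fun a => ⟨w a, hw a⟩
    let α' : T [⋀^Fin N]→ₗ[ℂ] ℂ := α.compLinearMap T.subtype
    let β' : T [⋀^Fin N]→ₗ[ℂ] ℂ := β.compLinearMap T.subtype
    have hα'u : α' u' = α u := rfl
    have hβ'u : β' u' = 1 := hβ
    have hα'w : α' w' = α w := rfl
    have hβ'w : β' w' = β w := rfl
    have hli : LinearIndependent ℂ u' := by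
      by_contra hc
      have := β'.map_linearDependent u' hc
      rw [hβ'u] at this
      exact one_ne_zero this
    let e := basisOfLinearIndependentOfCardEqFinrank hli (by rw [hT, Fintype.card_fin])
    have he : (e : Fin N → T) = u' := coe_basisOfLinearIndependentOfCardEqFinrank _ _
    have h1 := α'.eq_smul_basis_det e
    have h2 := β'.eq_smul_basis_det e
    rw [he] at h1 h2
    have h3 : α' w' = α' u' * e.det w' := by
      conv_lhs => rw [h1]
      rfl
    have h4 : β' w' = β' u' * e.det w' := by
      conv_lhs => rw [h2]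
      rfl
    rw [← hα'w, ← hβ'w, h3, h4, hβ'u, one_mul, hα'u]

end Fano612
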