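import Pool.Agent.Helper612.Fano.Defs
import Pool.Agent.Helper612.Fano.P_comp_lin

set_option autoImplicit false
set_option linter.unusedVariables false
set_option linter.unusedSectionVars false

open MvPolynomial

namespace Fano612



theorem fr_sec {ι : Type} [Fintype ι] {X : Set (ι → ℂ)} {n D : ℕ} (c : Chart X n D)
    (x : Fin (n + 1) → ℂ) (j : ι) : IsSec c.V 0 (fun e => c.fr x e j) := by
  have hA : (∑ b, C (x b) * pderiv b (c.Ψ j) : MvPolynomial (Fin (n + 1)) ℂ).IsHomogeneous D := by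
    refine IsHomogeneous.sum _ _ _ fun b _ => ?_
    have h1 : (pderiv b (c.Ψ j)).IsHomogeneous (D + 1 - 1) := (c.hom j).pderiv
    rw [Nat.add_sub_cancel] at h1
    have h2 := (isHomogeneous_C (Fin (n + 1)) (x b)).mul h1
    rwa [zero_add] at h2
  have hF0 : (MvPolynomial.X 0 * (∑ b, C (x b) * pderiv b (c.Ψ j)) - C ((D : ℂ) * x 0) * c.Ψ j :
      MvPolynomial (Fin (n + 1)) ℂ).IsHomogeneous (D + 1) := by
    refine IsHomogeneous.sub ?_ ?_
    · have h2 := (isHomogeneous_X ℂ (0 : Fin (n + 1))).mul hA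
      rwa [add_comm 1 D] at h2
    · have h2 := (isHomogeneous_C (Fin (n + 1)) ((D : ℂ) * x 0)).mul (c.hom j)
      rwa [zero_add] at h2
  have hG0 : (MvPolynomial.X 0 ^ (D + 1) : MvPolynomial (Fin (n + 1)) ℂ).IsHomogeneous (D + 1) := by
    have h2 := (isHomogeneous_X ℂ (0 : Fin (n + 1))).pow (D + 1)
    rwa [one_mul] at h2
  obtain ⟨F, hF, hF'⟩ := comp_lin c.κ hF0
  obtain ⟨G, hG, hG'⟩ := comp_lin c.κ hG0
  intro v hv
  refine ⟨F, G, D + 1, D + 1, hF, hG, by simp, ?_, ?_⟩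
  · rw [hG', map_pow, eval_X]
    exact pow_ne_zero _ hv.2
  · intro w hw _
    have hk : c.κ w 0 ≠ 0 := hw.2
    rw [hF', hG', map_pow, eval_X]
    simp only [map_sub, map_mul, map_sum, eval_X, eval_C]
    unfold Chart.fr
    rw [div_sub_div _ _ (pow_ne_zero _ hk) (pow_ne_zero _ hk),
      div_eq_div_iff (mul_ne_zero (pow_ne_zero _ hk) (pow_ne_zero _ hk)) (pow_ne_zero _ hk)]
    ring

end Fano612
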