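import Pool.Agent.Helper612.Fano.Defs

set_option autoImplicit false
set_option linter.unusedVariables false
set_option linter.unusedSectionVars false

open MvPolynomial

namespace Fano612



theorem eval_deriv {σ : Type} [Fintype σ] (p : MvPolynomial σ ℂ) (y x : σ → ℂ) :
    HasDerivAt (fun τ : ℂ => eval (y + τ • x) p) (∑ b, x b * eval y (pderiv b p)) 0 := by
  classical
  induction p using MvPolynomial.induction_on with
  | C a => simpa using hasDerivAt_const (0 : ℂ) a
  | add p q hp hq =>
    simp only [map_add, mul_add, Finset.sum_add_distrib]
    exact hp.add hq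
  | mul_X p i hp =>
    have h1 : HasDerivAt (fun τ : ℂ => y i + τ * x i) (x i) 0 := by
      simpa using ((hasDerivAt_id (0 : ℂ)).mul_const (x i)).const_add (y i)
    have h2 := hp.mul h1
    have e1 : (fun τ : ℂ => eval (y + τ • x) (p * X i)) =
        (fun τ : ℂ => eval (y + τ • x) p) * fun τ : ℂ => y i + τ * x i := by
      funext τ
      simp [smul_eq_mul]
    have e2 : ∑ b, x b * eval y (pderiv b (p * X i)) =
        (∑ b, x b * eval y (pderiv b p)) * (y i + 0 * x i) + eval (y + (0 : ℂ) • x) p * x i := by
      have h3 : ∀ b, x b * eval y (pderiv b (p * X i)) =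
          x b * eval y (pderiv b p) * y i + (if b = i then x b * eval y p else 0) := by
        intro b
        rw [pderiv_mul, pderiv_X]
        by_cases hb : b = i
        · subst hb
          simp
          ring
        · have h4 : (Pi.single b (1 : MvPolynomial σ ℂ) : σ → MvPolynomial σ ℂ) i = 0 :=
            Pi.single_eq_of_ne (Ne.symm hb) _
          simp [hb]
          ring
      simp_rw [h3]
      rw [Finset.sum_add_distrib, ← Finset.sum_mul, Finset.sum_ite_eq']
      simp
      ring
    rw [e1, e2]
    exact h2

end Fano612
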