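import Pool.Agent.Helper612.Fano.Defs
import Pool.Agent.Helper612.Fano.P_eval_hom
import Pool.Agent.Helper612.Fano.P_psi_mem
import Pool.Agent.Helper612.Fano.P_eval_deriv

set_option autoImplicit false
set_option linter.unusedVariables false
set_option linter.unusedSectionVars false

open MvPolynomial

namespace Fano612



theorem j18964_diff {ι : Type} [Fintype ι] (F : MvPolynomial ι ℂ) :
    Differentiable ℂ (fun z : ι → ℂ => eval z F) := by
  induction F using MvPolynomial.induction_on with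
  | C a => simp
  | add p q hp hq =>
    have : (fun z : ι → ℂ => eval z (p + q)) = fun z => eval z p + eval z q := by
      funext z; rw [map_add]
    rw [this]
    exact hp.add hq
  | mul_X p i hp =>
    have : (fun z : ι → ℂ => eval z (p * X i)) = fun z => eval z p * z i := by
      funext z; rw [map_mul, eval_X]
    rw [this]
    exact hp.mul (differentiable_apply i)

theorem fr_tang {ι : Type} [Fintype ι] {X : Set (ι → ℂ)} {n D : ℕ} (c : Chart X n D)
    {e : ι → ℂ} (he : e ∈ c.V) (x : Fin (n + 1) → ℂ) : c.fr x e ∈ tang X e := by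
  obtain ⟨heX, hs⟩ := he
  intro F hF hX
  obtain ⟨d, hd⟩ := hF
  have hme := (c.mem_iff e hs).1 heX
  let γ : ℂ → ι → ℂ := fun τ => ((c.κ e 0 + τ * x 0) ^ D)⁻¹ • c.ψ (c.κ e + τ • x)
  have hγ0 : γ 0 = e := by
    show ((c.κ e 0 + 0 * x 0) ^ D)⁻¹ • c.ψ (c.κ e + (0 : ℂ) • x) = e
    rw [zero_mul, add_zero, zero_smul, add_zero]
    have : c.ψ (c.κ e) = c.κ e 0 ^ D • e := hme.symm
    rw [this, smul_smul, inv_mul_cancel₀ (pow_ne_zero _ hs), one_smul]
  have h1 : HasDerivAt (fun τ : ℂ => c.κ e 0 + τ * x 0) (x 0) 0 := by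
    simpa using ((hasDerivAt_id (0 : ℂ)).mul_const (x 0)).const_add (c.κ e 0)
  have hderiv : HasDerivAt γ (c.fr x e) 0 := by
    rw [hasDerivAt_pi]
    intro j
    have h2 := (h1.pow D).inv (by simpa using pow_ne_zero D hs)
    have h3 := h2.mul (eval_deriv (c.Ψ j) (c.κ e) x)
    refine h3.congr_deriv ?_
    show _ = (∑ b, x b * eval (c.κ e) (pderiv b (c.Ψ j))) / c.κ e 0 ^ D -
      D * x 0 * eval (c.κ e) (c.Ψ j) / c.κ e 0 ^ (D + 1)
    simp only [Pi.pow_apply, Pi.inv_apply, zero_mul, add_zero, zero_smul]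
    generalize (∑ b, x b * eval (c.κ e) (pderiv b (c.Ψ j))) = A
    generalize eval (c.κ e) (c.Ψ j) = B
    generalize hs' : c.κ e 0 = s at hs
    generalize x 0 = x0
    cases D with
    | zero =>
      simp
    | succ D' =>
      simp only [Nat.add_sub_cancel]
      field_simp
      ring
  have h5 : HasDerivAt (fun τ => eval (γ τ) F)
      (fderiv ℂ (fun z : ι → ℂ => eval z F) e (c.fr x e)) 0 := by
    have h6 : HasFDerivAt (fun z : ι → ℂ => eval z F)
        (fderiv ℂ (fun z : ι → ℂ => eval z F) e) (γ 0) := by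
      rw [hγ0]
      exact (j18964_diff F e).hasFDerivAt
    exact h6.comp_hasDerivAt 0 hderiv
  have hzero : (fun τ => eval (γ τ) F) =ᶠ[nhds 0] fun _ => 0 := by
    have h7 : ∀ᶠ τ : ℂ in nhds 0, c.κ e 0 + τ * x 0 ≠ 0 :=
      h1.continuousAt.eventually_ne (by simpa using hs)
    filter_upwards [h7] with τ hτ
    show eval (((c.κ e 0 + τ * x 0) ^ D)⁻¹ • c.ψ (c.κ e + τ • x)) F = 0
    rw [eval_hom hd, hX _ (psi_mem c (x := c.κ e + τ • x) hτ), mul_zero]
  exact h5.unique ((hasDerivAt_const (0 : ℂ) (0 : ℂ)).congr_of_eventuallyEq hzero)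

end Fano612
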