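import Pool.Agent.Helper612.Fano.Defs
import Pool.Agent.Helper612.Fano.P_eval_deriv

set_option autoImplicit false
set_option linter.unusedVariables false
set_option linter.unusedSectionVars false

open MvPolynomial

namespace Fano612



lemma j18963_kap {ι : Type} [Fintype ι] {X : Set (ι → ℂ)} {n D : ℕ} (c : Chart X n D)
    (y x : Fin (n + 1) → ℂ) :
    c.κ (fun j => ∑ b, x b * eval y (pderiv b (c.Ψ j))) =
      ((D : ℂ) * y 0 ^ (D - 1) * x 0) • y + y 0 ^ D • x := by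
  classical
  have h1 : HasDerivAt (fun τ : ℂ => (fun j => eval (y + τ • x) (c.Ψ j) : ι → ℂ))
      (fun j => ∑ b, x b * eval y (pderiv b (c.Ψ j))) 0 := by
    rw [hasDerivAt_pi]
    intro j
    exact eval_deriv (c.Ψ j) y x
  let K : (ι → ℂ) →L[ℂ] (Fin (n + 1) → ℂ) := LinearMap.toContinuousLinearMap c.κ
  have hK : ∀ v, K v = c.κ v := fun v => rfl
  have h2 : HasDerivAt (fun τ : ℂ => K (fun j => eval (y + τ • x) (c.Ψ j) : ι → ℂ))
      (K (fun j => ∑ b, x b * eval y (pderiv b (c.Ψ j)))) 0 :=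
    K.hasFDerivAt.comp_hasDerivAt 0 h1
  have h3 : (fun τ : ℂ => K (fun j => eval (y + τ • x) (c.Ψ j) : ι → ℂ)) =
      fun τ : ℂ => (y 0 + τ * x 0) ^ D • (y + τ • x) := by
    funext τ
    rw [hK, c.right_inv]
    simp
  rw [h3] at h2
  have h4 : HasDerivAt (fun τ : ℂ => y 0 + τ * x 0) (x 0) 0 := by
    simpa using ((hasDerivAt_id (0:ℂ)).mul_const (x 0)).const_add (y 0)
  have h5 : HasDerivAt (fun τ : ℂ => y + τ • x) x 0 := by
    simpa using ((hasDerivAt_id (0:ℂ)).smul_const x).const_add y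
  have h6 : HasDerivAt (fun τ : ℂ => (y 0 + τ * x 0) ^ D)
      ((D : ℂ) * (y 0 + 0 * x 0) ^ (D - 1) * x 0) 0 := h4.pow D
  have h7 := h6.smul h5
  have h8 := h2.unique h7
  rw [← hK, h8]
  simp only [zero_mul, add_zero, zero_smul]
  exact add_comm _ _

theorem fr_kap {ι : Type} [Fintype ι] {X : Set (ι → ℂ)} {n D : ℕ} (c : Chart X n D)
    {e : ι → ℂ} (he : e ∈ c.V) (x : Fin (n + 1) → ℂ) : c.κ (c.fr x e) = x := by
  set y := c.κ e with hy
  have hs : y 0 ≠ 0 := he.2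
  have hfr : c.fr x e = (y 0 ^ D)⁻¹ • (fun j => ∑ b, x b * eval y (pderiv b (c.Ψ j))) -
      ((D : ℂ) * x 0 / y 0 ^ (D + 1)) • (fun j => eval y (c.Ψ j)) := by
    funext j
    simp only [Chart.fr, Pi.sub_apply, Pi.smul_apply, smul_eq_mul, ← hy]
    ring
  rw [hfr, map_sub, map_smul, map_smul, j18963_kap, c.right_inv]
  funext a
  simp only [Pi.sub_apply, Pi.smul_apply, Pi.add_apply, smul_eq_mul]
  rcases Nat.eq_zero_or_pos D with hD | hD
  · subst hD
    simp
  · obtain ⟨d, rfl⟩ : ∃ d, D = d + 1 := ⟨D - 1, by omega⟩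
    simp only [Nat.add_sub_cancel]
    field_simp
    ring

end Fano612
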