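import Pool.Agent.Helper612.Fano.Defs
import Pool.Agent.Helper612.Fano.P_comp_lin

set_option autoImplicit false
set_option linter.unusedVariables false
set_option linter.unusedSectionVars false

open MvPolynomial

namespace Fano612



theorem eval_diff612 {ι : Type} [Fintype ι] (F : MvPolynomial ι ℂ) :
    Differentiable ℂ (fun x : ι → ℂ => eval x F) := by
  induction F using MvPolynomial.induction_on with
  | C a => simp
  | add p q hp hq => simp only [map_add]; exact hp.add hq
  | mul_X p k hp =>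
    simp only [map_mul, eval_X]
    exact hp.mul (differentiable_apply k)

theorem tang_inj {ι : Type} [Fintype ι] {X : Set (ι → ℂ)} {n D : ℕ} (c : Chart X n D)
    {e : ι → ℂ} (he : e ∈ c.V) {w : ι → ℂ} (hw : w ∈ tang X e) (h0 : c.κ w = 0) : w = 0 := by
  obtain ⟨heX, hs⟩ := he
  funext j
  obtain ⟨G0, hG0, hG0e⟩ := comp_lin c.κ (isHomogeneous_X ℂ (0 : Fin (n + 1)))
  obtain ⟨Gj, hGj, hGje⟩ := comp_lin c.κ (c.hom j)
  set E : MvPolynomial ι ℂ := G0 * (G0 ^ D * MvPolynomial.X j - Gj) with hE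
  have hEval : ∀ v, eval v E = c.κ v 0 * (c.κ v 0 ^ D * v j - eval (c.κ v) (c.Ψ j)) := by
    intro v
    rw [hE, map_mul, map_sub, map_mul, map_pow, hG0e, hGje]
    simp
  have hform : IsForm E := by
    refine ⟨1 + (D + 1), ?_⟩
    apply hG0.mul
    apply IsHomogeneous.sub _ hGj
    have h1 := (hG0.pow D).mul (isHomogeneous_X ℂ j)
    rwa [one_mul] at h1
  have hvan : ∀ u ∈ X, eval u E = 0 := by
    intro u hu
    rw [hEval]
    by_cases h1 : c.κ u 0 = 0
    · rw [h1, zero_mul]
    · have h2 := (c.mem_iff u h1).mp hu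
      have h3 := congrFun h2 j
      rw [Pi.smul_apply, smul_eq_mul] at h3
      rw [h3, sub_self, mul_zero]
  have hder := hw E hform hvan
  have hl : HasDerivAt (fun τ : ℂ => e + τ • w) w 0 := by
    have h1 : HasDerivAt (fun τ : ℂ => τ • w) ((1 : ℂ) • w) 0 := (hasDerivAt_id (0 : ℂ)).smul_const w
    rw [one_smul] at h1
    exact h1.const_add e
  have h1 : HasDerivAt (fun τ : ℂ => eval (e + τ • w) E)
      (fderiv ℂ (fun x : ι → ℂ => eval x E) e w) 0 := by
    have h2 : HasFDerivAt (fun x : ι → ℂ => eval x E) (fderiv ℂ (fun x : ι → ℂ => eval x E) e)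
        (e + (0 : ℂ) • w) := by
      rw [zero_smul, add_zero]
      exact (eval_diff612 E e).hasFDerivAt
    exact h2.comp_hasDerivAt (0 : ℂ) hl
  have h2 : (fun τ : ℂ => eval (e + τ • w) E) =
      fun τ : ℂ => c.κ e 0 * (c.κ e 0 ^ D * (e j + τ * w j) - eval (c.κ e) (c.Ψ j)) := by
    funext τ
    rw [hEval]
    have h3 : c.κ (e + τ • w) = c.κ e := by rw [map_add, map_smul, h0, smul_zero, add_zero]
    rw [h3]
    simp
  have h3 : HasDerivAt (fun τ : ℂ => c.κ e 0 * (c.κ e 0 ^ D * (e j + τ * w j) - eval (c.κ e) (c.Ψ j)))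
      (c.κ e 0 * (c.κ e 0 ^ D * (1 * w j))) 0 := by
    have h4 : HasDerivAt (fun τ : ℂ => e j + τ * w j) (1 * w j) 0 :=
      ((hasDerivAt_id (0 : ℂ)).mul_const (w j)).const_add (e j)
    exact ((h4.const_mul _).sub_const _).const_mul _
  rw [h2] at h1
  have h4 := h1.unique h3
  rw [hder] at h4
  have h5 : c.κ e 0 * (c.κ e 0 ^ D * (1 * w j)) = 0 := h4.symm
  rcases mul_eq_zero.mp h5 with h6 | h6
  · exact absurd h6 hs
  · rcases mul_eq_zero.mp h6 with h7 | h7
    · exact absurd h7 (pow_ne_zero D hs)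
    · rw [one_mul] at h7
      exact h7

end Fano612
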