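import Pool.Agent.Helper612.Fano.Defs
import Pool.Agent.Helper612.Fano.P_fr_kap
import Pool.Agent.Helper612.Fano.P_fr_tang
import Pool.Agent.Helper612.Fano.P_tang_inj

set_option autoImplicit false
set_option linter.unusedVariables false
set_option linter.unusedSectionVars false

open MvPolynomial

namespace Fano612



theorem tang_dim {ι : Type} [Fintype ι] {X : Set (ι → ℂ)} {n D : ℕ} (c : Chart X n D)
    {e : ι → ℂ} (he : e ∈ c.V) : Module.finrank ℂ (tang X e) = n + 1 := by
  have hi : Function.Injective (c.κ.comp (tang X e).subtype) := by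
    rw [← LinearMap.ker_eq_bot, LinearMap.ker_eq_bot']
    intro w hw
    exact Subtype.ext (tang_inj c he w.2 hw)
  have hs : Function.Surjective (c.κ.comp (tang X e).subtype) := by
    intro x
    exact ⟨⟨c.fr x e, fr_tang c he x⟩, fr_kap c he x⟩
  rw [(LinearEquiv.ofBijective _ ⟨hi, hs⟩).finrank_eq, Module.finrank_fin_fun]

end Fano612
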