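import Pool.Agent.Helper612.Fano.Defs
import Pool.Agent.Helper612.Fano.P_fr_kap

set_option autoImplicit false
set_option linter.unusedVariables false
set_option linter.unusedSectionVars false

open MvPolynomial

namespace Fano612



theorem vol_frame {ι : Type} [Fintype ι] {X : Set (ι → ℂ)} {n D : ℕ} (c : Chart X n D)
    {e : ι → ℂ} (he : e ∈ c.V) : c.vol (fun a => c.fr (Pi.single a 1) e) = 1 := by
  have h1 : (fun a => c.κ (c.fr (Pi.single a 1) e)) = (1 : Matrix (Fin (n + 1)) (Fin (n + 1)) ℂ) := by
    funext a b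
    rw [fr_kap c he, Matrix.one_apply, Pi.single_apply]
    by_cases h : b = a
    · simp [h]
    · simp [h, Ne.symm h]
  have h2 : c.vol (fun a => c.fr (Pi.single a 1) e) =
      Matrix.det (fun a => c.κ (c.fr (Pi.single a 1) e) :
        Matrix (Fin (n + 1)) (Fin (n + 1)) ℂ) := rfl
  rw [h2, h1, Matrix.det_one]

end Fano612
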