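import Pool.Agent.Helper612.Fano.Defs
import Pool.Agent.Helper612.Fano.P_V_open
import Pool.Agent.Helper612.Fano.P_fr_tang
import Pool.Agent.Helper612.Fano.P_tang_dim
import Pool.Agent.Helper612.Fano.P_fr_sec
import Pool.Agent.Helper612.Fano.P_vol_frame
import Pool.Agent.Helper612.Fano.P_alt_prop

set_option autoImplicit false
set_option linter.unusedVariables false
set_option linter.unusedSectionVars false

open MvPolynomial

namespace Fano612



theorem anti_local {ι : Type} [Fintype ι] {X : Set (ι → ℂ)} {n D : ℕ} (c : Chart X n D)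
    {d : ℤ} {δ : (ι → ℂ) → (ι → ℂ) [⋀^Fin (n + 1)]→ₗ[ℂ] ℂ}
    (hδ : ∀ U : Set (ι → ℂ), ZOpen X U → ∀ w : Fin (n + 1) → (ι → ℂ) → (ι → ℂ),
      (∀ a, ∀ v ∈ U, w a v ∈ tang X v) → (∀ a b, IsSec U 0 (fun v => w a v b)) →
      IsSec U (d - (n + 1)) (fun v => δ v (fun a => w a v))) :
    ∃ h : (ι → ℂ) → ℂ, IsSec c.V (d - (n + 1)) h ∧
      ∀ e ∈ c.V, ∀ w : Fin (n + 1) → (ι → ℂ), (∀ a, w a ∈ tang X e) → δ e w = h e * c.vol w := by
  refine ⟨fun e => δ e (fun a => c.fr (Pi.single a 1) e), ?_, ?_⟩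
  · exact hδ c.V (V_open c) (fun a e => c.fr (Pi.single a 1) e)
      (fun a v hv => fr_tang c hv _) (fun a b => fr_sec c _ b)
  · intro e he w hw
    exact alt_prop (tang X e) (tang_dim c he) (δ e) c.vol (fun a => c.fr (Pi.single a 1) e)
      (fun a => fr_tang c he _) (vol_frame c he) w hw

end Fano612
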