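import Pool.Agent.Helper612.Fano.Defs

set_option autoImplicit false
set_option linter.unusedVariables false
set_option linter.unusedSectionVars false

open MvPolynomial

namespace Fano612



theorem sec_comp {ι ι' : Type} [Fintype ι] [Fintype ι'] {U : Set (ι → ℂ)} {m : ℤ}
    {h : (ι → ℂ) → ℂ} (H : IsSec U m h) (L : (ι' → ℂ) →ₗ[ℂ] (ι → ℂ)) {U' : Set (ι' → ℂ)}
    (hU : ∀ v ∈ U', L v ∈ U) : IsSec U' m (fun v => h (L v)) := by
  classical
  set Lp : ι → MvPolynomial ι' ℂ := fun j => ∑ i, C (L (Pi.single i 1) j) * X i with hLp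
  have hhom : ∀ j, (Lp j).IsHomogeneous 1 := by
    intro j
    simp only [hLp]
    refine IsHomogeneous.sum _ _ _ fun i _ => ?_
    exact (isHomogeneous_X _ _).C_mul _
  have hev : ∀ v j, eval v (Lp j) = L v j := by
    intro v j
    simp only [hLp, map_sum, map_mul, eval_C, eval_X]
    have h1 : v = ∑ i, v i • (Pi.single i (1 : ℂ) : ι' → ℂ) := by
      ext k
      simp [Finset.sum_apply, Pi.single_apply]
    conv_rhs => rw [h1]
    rw [map_sum, Finset.sum_apply]
    refine Finset.sum_congr rfl fun i _ => ?_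
    rw [map_smul, Pi.smul_apply, smul_eq_mul, mul_comm]
  have hF : ∀ (F : MvPolynomial ι ℂ) (v : ι' → ℂ), eval v (aeval Lp F) = eval (L v) F := by
    intro F v
    rw [MvPolynomial.map_aeval]
    have h1 : (fun i => eval v (Lp i)) = L v := funext fun j => hev v j
    rw [h1]
    have h2 : ((eval v).comp (algebraMap ℂ (MvPolynomial ι' ℂ))) = RingHom.id ℂ := by
      ext c; simp
    rw [h2]
    rfl
  intro v hv
  obtain ⟨F, G, p, q, hFp, hGq, hpq, hG, hw⟩ := H (L v) (hU v hv)
  refine ⟨aeval Lp F, aeval Lp G, p, q, ?_, ?_, hpq, ?_, ?_⟩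
  · simpa using hFp.aeval Lp hhom
  · simpa using hGq.aeval Lp hhom
  · rw [hF]; exact hG
  · intro w hwU hwG
    rw [hF] at hwG
    rw [hF, hF]
    exact hw (L w) (hU w hwU) hwG

end Fano612
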