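import Pool.Agent.Helper612.Fano.Defs

set_option autoImplicit false
set_option linter.unusedVariables false
set_option linter.unusedSectionVars false

open MvPolynomial

namespace Fano612



theorem sec_local {ι : Type} [Fintype ι] {X U : Set (ι → ℂ)} {m : ℤ} {h : (ι → ℂ) → ℂ}
    (hU : U ⊆ X) (H : ∀ v ∈ U, ∃ U' : Set (ι → ℂ), ZOpen X U' ∧ v ∈ U' ∧ IsSec (U ∩ U') m h) :
    IsSec U m h := by
  intro v hv
  obtain ⟨U', hU', hvU', hs⟩ := H v hv
  obtain ⟨F, G, p, q, hF, hG, hpq, hGv, hFG⟩ := hs v ⟨hv, hvU'⟩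
  obtain ⟨A, ⟨a, hA⟩, hAv, hAX⟩ := hU'.2 v hvU'
  refine ⟨F * A, G * A, p + a, q + a, hF.mul hA, hG.mul hA, by push_cast; linarith, ?_, ?_⟩
  · rw [map_mul]
    exact mul_ne_zero hGv hAv
  · intro w hw hne
    rw [map_mul] at hne
    have hA0 : eval w A ≠ 0 := right_ne_zero_of_mul hne
    have hG0 : eval w G ≠ 0 := left_ne_zero_of_mul hne
    rw [hFG w ⟨hw, hAX w (hU hw) hA0⟩ hG0, map_mul, map_mul, mul_div_mul_right _ _ hA0]

end Fano612
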