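import Pool.Agent.Helper612.Fano.Defs

set_option autoImplicit false
set_option linter.unusedVariables false
set_option linter.unusedSectionVars false

open MvPolynomial

namespace Fano612



theorem sec_add {ι : Type} [Fintype ι] {U : Set (ι → ℂ)} {m : ℤ} {h h' : (ι → ℂ) → ℂ}
    (H : IsSec U m h) (H' : IsSec U m h') : IsSec U m (fun v => h v + h' v) := by
  intro v hv
  obtain ⟨F, G, p, q, hF, hG, hpq, hGv, hh⟩ := H v hv
  obtain ⟨F', G', p', q', hF', hG', hpq', hGv', hh'⟩ := H' v hv
  have e : p' + q = p + q' := by omega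
  have h2 : (F' * G).IsHomogeneous (p + q') := by
    rw [← e]
    exact hF'.mul hG
  refine ⟨F * G' + F' * G, G * G', p + q', q + q', (hF.mul hG').add h2, hG.mul hG', ?_, ?_, ?_⟩
  · push_cast
    omega
  · rw [map_mul]
    exact mul_ne_zero hGv hGv'
  · intro w hw hne
    rw [map_mul] at hne
    have h3 : eval w G ≠ 0 := left_ne_zero_of_mul hne
    have h4 : eval w G' ≠ 0 := right_ne_zero_of_mul hne
    show h w + h' w = _
    rw [hh w hw h3, hh' w hw h4, map_add, map_mul, map_mul, map_mul]
    field_simp

end Fano612
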