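import Pool.Agent.Helper612.Fano.Defs
import Pool.Agent.Helper612.Fano.P_sec_congr
import Pool.Agent.Helper612.Fano.P_sec_add

set_option autoImplicit false
set_option linter.unusedVariables false
set_option linter.unusedSectionVars false

open MvPolynomial

namespace Fano612



theorem sec_sum {ι : Type} [Fintype ι] {U : Set (ι → ℂ)} {m : ℤ} {J : Type} (s : Finset J)
    {h : J → (ι → ℂ) → ℂ} (H : ∀ j ∈ s, IsSec U m (h j)) (hs : s.Nonempty) :
    IsSec U m (fun v => ∑ j ∈ s, h j v) := by
  classical
  induction hs using Finset.Nonempty.cons_induction with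
  | singleton a =>
    refine sec_congr (H a (Finset.mem_singleton_self a)) ?_
    intro v _
    rw [Finset.sum_singleton]
  | cons a s ha hs ih =>
    have h1 : IsSec U m (h a) := H a (Finset.mem_cons_self a s)
    have h2 := ih (fun j hj => H j (Finset.mem_cons_of_mem hj))
    refine sec_congr (sec_add h1 h2) ?_
    intro v _
    rw [Finset.sum_cons]

end Fano612
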