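import Pool.Agent.Helper612.Fano.Defs

set_option autoImplicit false
set_option linter.unusedVariables false
set_option linter.unusedSectionVars false

open MvPolynomial

namespace Fano612



theorem triv_indep {ι : Type} [Fintype ι] {X : Set (ι → ℂ)} {n k : ℕ} {W : Submodule ℂ (ι → ℂ)}
    (σ : Fin (n - k) → W →ₗ[ℂ] (ι → ℂ)) (w0 : Fin (k + 1) → ι → ℂ) (h0 : ∀ i, w0 i ∈ W)
    (hi : LinearIndependent ℂ w0) (w : W)
    (h : ∀ y ∈ tang X w, ∃! c : Fin (n - k) → ℂ, y - ∑ a, c a • σ a w ∈ W) :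
    LinearIndependent ℂ (Sum.elim w0 (fun a => σ a w)) := by
  rw [Fintype.linearIndependent_iff] at hi ⊢
  intro g hg
  rw [Fintype.sum_sum_type] at hg
  simp only [Sum.elim_inl, Sum.elim_inr] at hg
  obtain ⟨c, hc, huniq⟩ := h 0 (Submodule.zero_mem _)
  have h1 : (0 : ι → ℂ) - ∑ a, g (Sum.inr a) • σ a w ∈ W := by
    have : (0 : ι → ℂ) - ∑ a, g (Sum.inr a) • σ a w = ∑ i, g (Sum.inl i) • w0 i := by
      rw [zero_sub, neg_eq_iff_add_eq_zero, add_comm]
      exact hg
    rw [this]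
    exact W.sum_mem fun i _ => W.smul_mem _ (h0 i)
  have h2 : (0 : ι → ℂ) - ∑ a, (0 : Fin (n - k) → ℂ) a • σ a w ∈ W := by
    simp
  have h3 : (fun a => g (Sum.inr a)) = 0 := (huniq _ h1).trans (huniq _ h2).symm
  have h4 : ∀ a, g (Sum.inr a) = 0 := fun a => congrFun h3 a
  simp only [h4, zero_smul, Finset.sum_const_zero, add_zero] at hg
  have h5 := hi (fun i => g (Sum.inl i)) hg
  intro s
  cases s with
  | inl i => exact h5 i
  | inr a => exact h4 a

end Fano612
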