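import Pool.Agent.Helper612.Fano.Defs
import Pool.Agent.Helper612.Fano.P_sec_mul
import Pool.Agent.Helper612.Fano.P_sec_mono
import Pool.Agent.Helper612.Fano.P_sec_congr
import Pool.Agent.Helper612.Fano.P_sec_form
import Pool.Agent.Helper612.Fano.P_sec_const
import Pool.Agent.Helper612.Fano.P_sec_lin
import Pool.Agent.Helper612.Fano.P_sec_sum
import Pool.Agent.Helper612.Fano.P_sec_comp
import Pool.Agent.Helper612.Fano.P_sec_local
import Pool.Agent.Helper612.Fano.P_p1_degree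
import Pool.Agent.Helper612.Fano.P_V_open
import Pool.Agent.Helper612.Fano.P_comp_lin
import Pool.Agent.Helper612.Fano.P_tang_dim
import Pool.Agent.Helper612.Fano.P_alt_ne
import Pool.Agent.Helper612.Fano.P_anti_local
import Pool.Agent.Helper612.Fano.P_triv_indep

set_option autoImplicit false
set_option linter.unusedVariables false
set_option linter.unusedSectionVars false

open MvPolynomial

namespace Fano612



theorem anti_degree_line {ι : Type} [Fintype ι] {X : Set (ι → ℂ)} {W : Submodule ℂ (ι → ℂ)}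
    (hWX : ∀ w ∈ W, w ≠ 0 → w ∈ X) {w y : ι → ℂ} (hw : w ∈ W) (hw0 : w ≠ 0) (hy : y ∈ W) :
    y ∈ tang X w := by
  intro F hF hX
  by_cases hd : DifferentiableAt ℂ (fun x : ι → ℂ => eval x F) w
  · have h1 : HasDerivAt (fun t : ℂ => w + t • y) y 0 := by
      have := ((hasDerivAt_id (0 : ℂ)).smul_const y).const_add w
      simpa using this
    have h2 : HasFDerivAt (fun x : ι → ℂ => eval x F)
        (fderiv ℂ (fun x : ι → ℂ => eval x F) w) (w + (0 : ℂ) • y) := by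
      simpa using hd.hasFDerivAt
    have h3 := h2.comp_hasDerivAt (0 : ℂ) h1
    have h4 : ∀ᶠ t in nhds (0 : ℂ), w + t • y ≠ 0 := by
      have hc : ContinuousAt (fun t : ℂ => w + t • y) 0 := h1.continuousAt
      exact hc.eventually_ne (by simpa using hw0)
    have h5 : ((fun x : ι → ℂ => eval x F) ∘ fun t : ℂ => w + t • y) =ᶠ[nhds (0 : ℂ)]
        fun _ => (0 : ℂ) := by
      filter_upwards [h4] with t ht
      exact hX _ (hWX _ (W.add_mem hw (W.smul_mem t hy)) ht)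
    have h6 := h3.congr_of_eventuallyEq h5.symm
    exact (h6.unique (hasDerivAt_const (0 : ℂ) (0 : ℂ)))
  · rw [fderiv_zero_of_not_differentiableAt hd]
    rfl

theorem anti_degree_prod {ι : Type} [Fintype ι] {U : Set (ι → ℂ)} {J : Type} (s : Finset J)
    (m : J → ℤ) (h : J → (ι → ℂ) → ℂ) (H : ∀ j, IsSec U (m j) (h j)) :
    IsSec U (∑ j ∈ s, m j) (fun v => ∏ j ∈ s, h j v) := by
  classical
  induction s using Finset.induction_on with
  | empty => simpa using sec_const U 1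
  | insert a s ha ih =>
    simp only [Finset.sum_insert ha, Finset.prod_insert ha]
    exact sec_mul (H a) ih

theorem anti_degree_det {ι : Type} [Fintype ι] {U : Set (ι → ℂ)} {N : ℕ}
    (m : Fin N → ℤ) (M : (ι → ℂ) → Fin N → Fin N → ℂ)
    (H : ∀ a b, IsSec U (m a) (fun v => M v a b)) :
    IsSec U (∑ a, m a) (fun v => Matrix.det (Matrix.of (M v))) := by
  have h1 : ∀ v, Matrix.det (Matrix.of (M v)) =
      ∑ p ∈ (Finset.univ : Finset (Equiv.Perm (Fin N))),
        ((Equiv.Perm.sign p : ℤ) : ℂ) * ∏ i, M v (p i) i := by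
    intro v
    rw [Matrix.det_apply']
    rfl
  refine sec_congr (sec_sum (Finset.univ : Finset (Equiv.Perm (Fin N)))
    (h := fun p v => ((Equiv.Perm.sign p : ℤ) : ℂ) * ∏ i, M v (p i) i) ?_
    Finset.univ_nonempty) (fun v _ => h1 v)
  intro p _
  have h2 := sec_mul (sec_const U ((Equiv.Perm.sign p : ℤ) : ℂ))
    (anti_degree_prod (U := U) Finset.univ (fun i => m (p i)) (fun i v => M v (p i) i)
      (fun i => H (p i) i))
  rw [zero_add, Equiv.sum_comp p m] at h2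
  exact h2

theorem anti_degree {ι : Type} [Fintype ι] {X : Set (ι → ℂ)} {n D k : ℕ} (A : Atlas X n D)
    {d : ℤ} {W : Submodule ℂ (ι → ℂ)} (hk : 1 ≤ k) (hkn : k ≤ n) (hA : AntiCan X n d)
    (hW : TrivialNormal X n k W) : d = k + 1 := by
  classical
  obtain ⟨δ, hδ1, hδ2⟩ := hA
  obtain ⟨hfr, hWX, σ, hσ⟩ := hW
  have : Module.Finite ℂ W := Module.finite_of_finrank_pos (by omega)
  let b : Module.Basis (Fin (k + 1)) ℂ W := Module.finBasisOfFinrankEq ℂ W hfr
  let i0 : Fin (k + 1) := ⟨0, by omega⟩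
  let i1 : Fin (k + 1) := ⟨1, by omega⟩
  have hi01 : i0 ≠ i1 := by
    intro h
    have := congrArg Fin.val h
    simp [i0, i1] at this
  let B : (Fin 2 → ℂ) →ₗ[ℂ] W :=
    (LinearMap.proj (R := ℂ) (φ := fun _ : Fin 2 => ℂ) 0).smulRight (b i0) +
      (LinearMap.proj (R := ℂ) (φ := fun _ : Fin 2 => ℂ) 1).smulRight (b i1)
  have hB : ∀ v, B v = v 0 • b i0 + v 1 • b i1 := fun v => rfl
  have hB0 : ∀ v, v ≠ 0 → B v ≠ 0 := by
    intro v hv h
    apply hv
    have hr : b.repr (B v) = 0 := by rw [h, map_zero]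
    rw [hB] at hr
    simp only [map_add, map_smul, Module.Basis.repr_self] at hr
    have e0 := DFunLike.congr_fun hr i0
    have e1 := DFunLike.congr_fun hr i1
    simp [Finsupp.single_apply, hi01, hi01.symm] at e0 e1
    funext x
    fin_cases x
    · exact e0
    · exact e1
  let e : Fin (n + 1) ≃ Fin (k + 1) ⊕ Fin (n - k) :=
    (finCongr (by omega : n + 1 = (k + 1) + (n - k))).trans finSumFinEquiv.symm
  let w0 : Fin (k + 1) → ι → ℂ := fun i => (b i : ι → ℂ)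
  have hw0 : LinearIndependent ℂ w0 :=
    b.linearIndependent.map' W.subtype (Submodule.ker_subtype W)
  let BB : (Fin 2 → ℂ) →ₗ[ℂ] (ι → ℂ) := W.subtype ∘ₗ B
  have hBB : ∀ v, BB v = (B v : ι → ℂ) := fun v => rfl
  have hBB0 : ∀ v, v ≠ 0 → BB v ≠ 0 := by
    intro v hv h
    exact hB0 v hv (Subtype.ext h)
  have hBX : ∀ v, v ≠ 0 → BB v ∈ X := fun v hv => hWX _ (B v).2 (hBB0 v hv)
  let u : (Fin 2 → ℂ) → Fin (n + 1) → ι → ℂ := fun v a =>
    Sum.elim w0 (fun c => σ c (B v)) (e a)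
  have hu : ∀ v, v ≠ 0 → ∀ a, u v a ∈ tang X (BB v) := by
    intro v hv a
    show Sum.elim w0 (fun c => σ c (B v)) (e a) ∈ tang X (BB v)
    rcases e a with i | c
    · exact anti_degree_line hWX (B v).2 (hBB0 v hv) (b i).2
    · exact (hσ (B v) (hB0 v hv)).1 c
  have hne : ∀ v, v ≠ 0 → δ (BB v) (u v) ≠ 0 := by
    intro v hv
    obtain ⟨a, ha⟩ := A.cover _ (hBX v hv)
    refine alt_ne (tang X (BB v)) (tang_dim (A.c a) ⟨hBX v hv, ha⟩) (δ (BB v))
      (hδ1 _ (hBX v hv)) (u v) (hu v hv) ?_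
    have h1 := triv_indep (X := X) σ w0 (fun i => (b i).2) hw0 (B v) (hσ (B v) (hB0 v hv)).2
    exact h1.comp e e.injective
  have hsum : ∑ a : Fin (n + 1), (Sum.elim (fun _ : Fin (k + 1) => (0 : ℤ))
      (fun _ : Fin (n - k) => (1 : ℤ)) (e a)) = ((n - k : ℕ) : ℤ) := by
    rw [Equiv.sum_comp e (Sum.elim (fun _ : Fin (k + 1) => (0 : ℤ))
      (fun _ : Fin (n - k) => (1 : ℤ)))]
    rw [Fintype.sum_sum_type]
    simp
  have hsec : IsSec {v : Fin 2 → ℂ | v ≠ 0} (d - (n + 1) + ((n - k : ℕ) : ℤ))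
      (fun v => δ (BB v) (u v)) := by
    refine sec_local (X := {v : Fin 2 → ℂ | v ≠ 0}) (fun _ h => h) ?_
    intro v hv
    obtain ⟨a, ha⟩ := A.cover _ (hBX v hv)
    obtain ⟨h, hh1, hh2⟩ := anti_local (A.c a) hδ2
    refine ⟨{v' | v' ≠ 0 ∧ (A.c a).κ (BB v') 0 ≠ 0}, ⟨fun _ h => h.1, ?_⟩, ⟨hv, ha⟩, ?_⟩
    · intro v' hv'
      have hX0 : (MvPolynomial.X (0 : Fin (n + 1)) : MvPolynomial (Fin (n + 1)) ℂ).IsHomogeneous 1 :=
        isHomogeneous_X ℂ 0
      obtain ⟨G, hG, hG'⟩ := comp_lin (ι := Fin 2) (ι' := Fin (n + 1)) ((A.c a).κ ∘ₗ BB) hX0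
      refine ⟨G, ⟨1, hG⟩, ?_, ?_⟩
      · rw [hG']
        simpa using hv'.2
      · intro v'' h1 h2
        refine ⟨h1, ?_⟩
        rw [hG'] at h2
        simpa using h2
    · have hU : ∀ v' ∈ ({v : Fin 2 → ℂ | v ≠ 0} ∩
          {v' : Fin 2 → ℂ | v' ≠ 0 ∧ (A.c a).κ (BB v') 0 ≠ 0}), BB v' ∈ (A.c a).V :=
        fun v' hv' => ⟨hBX v' hv'.1, hv'.2.2⟩
      have s1 := sec_comp hh1 BB hU
      have s2 : IsSec ({v : Fin 2 → ℂ | v ≠ 0} ∩
          {v' : Fin 2 → ℂ | v' ≠ 0 ∧ (A.c a).κ (BB v') 0 ≠ 0}) ((n - k : ℕ) : ℤ)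
          (fun v => Matrix.det (Matrix.of (fun x y => (A.c a).κ (u v x) y))) := by
        rw [← hsum]
        refine anti_degree_det _ (fun v x y => (A.c a).κ (u v x) y) ?_
        intro x y
        show IsSec _ (Sum.elim (fun _ : Fin (k + 1) => (0 : ℤ))
          (fun _ : Fin (n - k) => (1 : ℤ)) (e x))
          (fun v => (A.c a).κ (Sum.elim w0 (fun c => σ c (B v)) (e x)) y)
        rcases e x with i | c
        · exact sec_const _ ((A.c a).κ (w0 i) y)
        · exact sec_lin _ ((LinearMap.proj (R := ℂ) (φ := fun _ : Fin (n + 1) => ℂ) y) ∘ₗ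
            (A.c a).κ ∘ₗ (σ c) ∘ₗ B)
      refine sec_congr (sec_mul s1 s2) ?_
      intro v' hv'
      exact hh2 _ (hU v' hv') _ (hu v' hv'.1)
  have hfin := p1_degree hsec (fun v hv => hne v hv)
  have hc : ((n - k : ℕ) : ℤ) = (n : ℤ) - k := by
    push_cast [hkn]
    ring
  rw [hc] at hfin
  linarith

end Fano612
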