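import Pool.Agent.Helper612.Fano.Defs
import Pool.Agent.Helper612.Fano.P_fr_tang
import Pool.Agent.Helper612.Fano.P_tang_dim
import Pool.Agent.Helper612.Fano.P_vol_frame
import Pool.Agent.Helper612.Fano.P_alt_prop

set_option autoImplicit false
set_option linter.unusedVariables false
set_option linter.unusedSectionVars false

open MvPolynomial

namespace Fano612



theorem vol_jac {ι : Type} [Fintype ι] {X : Set (ι → ℂ)} {n D : ℕ} (c c' : Chart X n D)
    {e : ι → ℂ} (he : e ∈ c.V) (he' : e ∈ c'.V) (w : Fin (n + 1) → (ι → ℂ))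
    (hw : ∀ a, w a ∈ tang X e) : c.vol w = c.jac c' e * c'.vol w :=
  alt_prop (tang X e) (tang_dim c he) c.vol c'.vol (fun a => c'.fr (Pi.single a 1) e)
    (fun _ => fr_tang c' he' _) (vol_frame c' he') w hw

end Fano612
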