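import Pool.Agent.Helper612.Fano.Defs
import Pool.Agent.Helper612.Fano.P_fr_tang
import Pool.Agent.Helper612.Fano.P_vol_frame
import Pool.Agent.Helper612.Fano.P_vol_jac

set_option autoImplicit false
set_option linter.unusedVariables false
set_option linter.unusedSectionVars false

open MvPolynomial

namespace Fano612



theorem jac_ne {ι : Type} [Fintype ι] {X : Set (ι → ℂ)} {n D : ℕ} (c c' : Chart X n D)
    {e : ι → ℂ} (he : e ∈ c.V) (he' : e ∈ c'.V) : c.jac c' e ≠ 0 := by
  intro h0
  have h1 := vol_jac c c' he he' (fun a => c.fr (Pi.single a 1) e)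
    (fun a => fr_tang c he (Pi.single a 1))
  rw [vol_frame c he, h0, zero_mul] at h1
  exact one_ne_zero h1

end Fano612
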