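import Pool.Agent.Helper612.Fano.Defs
import Pool.Agent.Helper612.Fano.P_sec_mul
import Pool.Agent.Helper612.Fano.P_sec_congr
import Pool.Agent.Helper612.Fano.P_sec_const
import Pool.Agent.Helper612.Fano.P_sec_add
import Pool.Agent.Helper612.Fano.P_sec_sum

set_option autoImplicit false
set_option linter.unusedVariables false
set_option linter.unusedSectionVars false

open MvPolynomial

namespace Fano612



theorem vs_sum0 {ι : Type} [Fintype ι] {U : Set (ι → ℂ)} {J : Type} (s : Finset J)
    {h : J → (ι → ℂ) → ℂ} (H : ∀ j ∈ s, IsSec U 0 (h j)) :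
    IsSec U 0 (fun v => ∑ j ∈ s, h j v) := by
  rcases s.eq_empty_or_nonempty with hs | hs
  · subst hs
    refine sec_congr (sec_const U 0) fun v _ => ?_
    simp
  · exact sec_sum s H hs

theorem vs_prod {ι : Type} [Fintype ι] {U : Set (ι → ℂ)} {J : Type} (s : Finset J)
    {h : J → (ι → ℂ) → ℂ} (H : ∀ j ∈ s, IsSec U 0 (h j)) :
    IsSec U 0 (fun v => ∏ j ∈ s, h j v) := by
  classical
  induction s using Finset.induction_on with
  | empty =>
    refine sec_congr (sec_const U 1) fun v _ => ?_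
    simp
  | insert a s ha ih =>
    have h1 := sec_mul (H a (Finset.mem_insert_self _ _))
      (ih fun j hj => H j (Finset.mem_insert_of_mem hj))
    rw [add_zero] at h1
    refine sec_congr h1 fun v _ => ?_
    rw [Finset.prod_insert ha]

theorem vol_sec {ι : Type} [Fintype ι] {X : Set (ι → ℂ)} {n D : ℕ} (c : Chart X n D)
    {U : Set (ι → ℂ)} (w : Fin (n + 1) → (ι → ℂ) → (ι → ℂ))
    (hw : ∀ a b, IsSec U 0 (fun v => w a v b)) : IsSec U 0 (fun v => c.vol (fun a => w a v)) := by
  classical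
  have hκ : ∀ a b, IsSec U 0 (fun v => c.κ (w a v) b) := by
    intro a b
    have h1 : IsSec U 0 (fun v => ∑ j ∈ Finset.univ,
        w a v j * c.κ (fun i => if j = i then 1 else 0) b) := by
      refine vs_sum0 Finset.univ (h := fun j v => w a v j * c.κ (fun i => if j = i then 1 else 0) b)
        fun j _ => ?_
      have h2 := sec_mul (hw a j) (sec_const U (c.κ (fun i => if j = i then 1 else 0) b))
      rwa [add_zero] at h2
    refine sec_congr h1 fun v _ => ?_
    have h3 := LinearMap.pi_apply_eq_sum_univ c.κ (w a v)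
    have h4 := congrFun h3 b
    rw [Finset.sum_apply] at h4
    exact h4
  have h5 : ∀ v, c.vol (fun a => w a v) =
      ∑ σ : Equiv.Perm (Fin (n + 1)), ((Equiv.Perm.sign σ : ℤ) : ℂ) *
        ∏ i, c.κ (w (σ i) v) i := by
    intro v
    show Matrix.det (fun a => c.κ (w a v)) = _
    rw [Matrix.det_apply']
  have h6 : IsSec U 0 (fun v => ∑ σ ∈ (Finset.univ : Finset (Equiv.Perm (Fin (n + 1)))),
      ((Equiv.Perm.sign σ : ℤ) : ℂ) * ∏ i, c.κ (w (σ i) v) i) := by
    refine vs_sum0 Finset.univ (h := fun (σ : Equiv.Perm (Fin (n + 1))) v =>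
      ((Equiv.Perm.sign σ : ℤ) : ℂ) * ∏ i, c.κ (w (σ i) v) i) fun σ _ => ?_
    have h7 := sec_mul (sec_const U ((Equiv.Perm.sign σ : ℤ) : ℂ))
      (vs_prod (U := U) (Finset.univ : Finset (Fin (n + 1)))
        (h := fun i v => c.κ (w (σ i) v) i) fun i _ => hκ (σ i) i)
    rwa [add_zero] at h7
  exact sec_congr h6 fun v _ => h5 v

end Fano612
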