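import Pool.Agent.Helper612.Fano.Defs
import Pool.Agent.Helper612.Fano.P_sec_mono
import Pool.Agent.Helper612.Fano.P_sec_congr
import Pool.Agent.Helper612.Fano.P_fr_sec
import Pool.Agent.Helper612.Fano.P_vol_sec

set_option autoImplicit false
set_option linter.unusedVariables false
set_option linter.unusedSectionVars false

open MvPolynomial

namespace Fano612



theorem jac_sec {ι : Type} [Fintype ι] {X : Set (ι → ℂ)} {n D : ℕ} (c c' : Chart X n D) :
    IsSec (c.V ∩ c'.V) 0 (c.jac c') :=
  vol_sec c (fun a v => c'.fr (Pi.single a 1) v)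
    (fun a b => sec_mono (fr_sec c' (Pi.single a 1) b) Set.inter_subset_right)

end Fano612
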