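import Pool.Agent.Helper612.Fano.Defs
import Pool.Agent.Helper612.Fano.P_sec_mul
import Pool.Agent.Helper612.Fano.P_sec_inv
import Pool.Agent.Helper612.Fano.P_sec_mono
import Pool.Agent.Helper612.Fano.P_sec_congr
import Pool.Agent.Helper612.Fano.P_sec_local
import Pool.Agent.Helper612.Fano.P_V_open
import Pool.Agent.Helper612.Fano.P_fr_tang
import Pool.Agent.Helper612.Fano.P_vol_frame
import Pool.Agent.Helper612.Fano.P_vol_jac
import Pool.Agent.Helper612.Fano.P_jac_ne
import Pool.Agent.Helper612.Fano.P_vol_sec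
import Pool.Agent.Helper612.Fano.P_jac_sec

set_option autoImplicit false
set_option linter.unusedVariables false
set_option linter.unusedSectionVars false

open MvPolynomial

namespace Fano612



/-- the line bundle of the volume forms of the charts -/
noncomputable def volBundle {ι : Type} [Fintype ι] {X : Set (ι → ℂ)} {n D : ℕ} (A : Atlas X n D) :
    LineBundle X where
  I := A.K
  U := fun a => (A.c a).V
  g := fun a b => (A.c a).jac (A.c b)
  isOpen := fun a => V_open _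
  cover := by
    intro v hv
    obtain ⟨a, ha⟩ := A.cover v hv
    exact ⟨a, hv, ha⟩
  reg := fun i j => jac_sec _ _
  ne_zero := fun i j v hv => jac_ne _ _ hv.1 hv.2
  cocycle := by
    intro i j k v hv
    exact (vol_jac (A.c i) (A.c j) hv.1.1 hv.1.2
      (fun a => (A.c k).fr (Pi.single a 1) v) (fun a => fr_tang (A.c k) hv.2 _)).symm

open Classical in
/-- the form `δ` -/
noncomputable def delForm {ι : Type} [Fintype ι] {X : Set (ι → ℂ)} {n D : ℕ} (A : Atlas X n D)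
    (h : A.K → (ι → ℂ) → ℂ) (e : ι → ℂ) : (ι → ℂ) [⋀^Fin (n + 1)]→ₗ[ℂ] ℂ :=
  if H : ∃ a, e ∈ (A.c a).V then (h H.choose e)⁻¹ • (A.c H.choose).vol else 0

theorem delForm_eq {ι : Type} [Fintype ι] {X : Set (ι → ℂ)} {n D : ℕ} (A : Atlas X n D)
    (h : A.K → (ι → ℂ) → ℂ) (hne : ∀ i, ∀ v ∈ (A.c i).V, h i v ≠ 0)
    (hco : ∀ i j, ∀ v ∈ (A.c i).V ∩ (A.c j).V, h i v = (A.c i).jac (A.c j) v * h j v)
    {e : ι → ℂ} (a : A.K) (he : e ∈ (A.c a).V) (w : Fin (n + 1) → (ι → ℂ))
    (hw : ∀ b, w b ∈ tang X e) : delForm A h e w = (h a e)⁻¹ * (A.c a).vol w := by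
  have H : ∃ a, e ∈ (A.c a).V := ⟨a, he⟩
  have hb := H.choose_spec
  have h1 : delForm A h e = (h H.choose e)⁻¹ • (A.c H.choose).vol := by
    unfold delForm
    rw [dif_pos H]
  rw [h1, AlternatingMap.smul_apply, smul_eq_mul, vol_jac (A.c H.choose) (A.c a) hb he w hw,
    hco H.choose a e ⟨hb, he⟩]
  have h2 := jac_ne (A.c H.choose) (A.c a) hb he
  have h3 := hne a e he
  field_simp

theorem anti_exists {ι : Type} [Fintype ι] {X : Set (ι → ℂ)} {n D : ℕ} (A : Atlas X n D)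
    (hP : PicZ X) : ∃ d : ℤ, AntiCan X n d := by
  obtain ⟨m, ⟨h, hsec, hne, hco⟩, _⟩ := hP (volBundle A)
  have hsec' : ∀ a : A.K, IsSec (A.c a).V (-m) (h a) := hsec
  have hne' : ∀ i : A.K, ∀ v ∈ (A.c i).V, h i v ≠ 0 := hne
  have hco' : ∀ i j : A.K, ∀ v ∈ (A.c i).V ∩ (A.c j).V,
      h i v = (A.c i).jac (A.c j) v * h j v := hco
  refine ⟨m + (n + 1), delForm A h, ?_, ?_⟩
  · intro v hv
    obtain ⟨a, ha⟩ := A.cover v hv
    have hva : v ∈ (A.c a).V := ⟨hv, ha⟩
    refine ⟨fun b => (A.c a).fr (Pi.single b 1) v, fun b => fr_tang (A.c a) hva _, ?_⟩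
    rw [delForm_eq A h hne' hco' a hva _ (fun b => fr_tang (A.c a) hva _), vol_frame (A.c a) hva,
      mul_one]
    exact inv_ne_zero (hne' a v hva)
  · intro U hU w hw hws
    have hdeg : (m + ((n : ℤ) + 1) - ((n : ℤ) + 1)) = -(-m) + 0 := by ring
    rw [hdeg]
    apply sec_local hU.1
    intro v hv
    obtain ⟨a, ha⟩ := A.cover v (hU.1 hv)
    refine ⟨(A.c a).V, V_open _, ⟨hU.1 hv, ha⟩, ?_⟩
    have h1 : IsSec (U ∩ (A.c a).V) (-(-m)) (fun v => (h a v)⁻¹) :=
      sec_inv (sec_mono (hsec' a) Set.inter_subset_right) (fun v hv => hne' a v hv.2)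
    have h2 : IsSec (U ∩ (A.c a).V) 0 (fun v => (A.c a).vol (fun b => w b v)) :=
      vol_sec (A.c a) w (fun b j => sec_mono (hws b j) Set.inter_subset_left)
    refine sec_congr (sec_mul h1 h2) ?_
    intro u hu
    exact delForm_eq A h hne' hco' a hu.2 _ (fun b => hw b u hu.1)

end Fano612
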