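import Pool.Agent.Helper612.Fano.Defs

set_option autoImplicit false
set_option linter.unusedVariables false
set_option linter.unusedSectionVars false

open MvPolynomial

namespace Fano612



theorem aopen_inter {n : ℕ} {O O' : Set (Fin n → ℂ)} (h : AOpen O) (h' : AOpen O') :
    AOpen (O ∩ O') := by
  rintro t ⟨ht, ht'⟩
  obtain ⟨p, hp1, hp2⟩ := h t ht
  obtain ⟨q, hq1, hq2⟩ := h' t ht'
  refine ⟨p * q, ?_, ?_⟩
  · rw [map_mul]
    exact mul_ne_zero hp1 hq1
  · intro t' h2
    rw [map_mul] at h2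
    exact ⟨hp2 t' (left_ne_zero_of_mul h2), hq2 t' (right_ne_zero_of_mul h2)⟩

end Fano612
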