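import Pool.Agent.Helper612.Fano.Defs

set_option autoImplicit false
set_option linter.unusedVariables false
set_option linter.unusedSectionVars false

open MvPolynomial

namespace Fano612



theorem aopen_meet {n : ℕ} {O O' : Set (Fin n → ℂ)} (h : AOpen O) (h' : AOpen O')
    (hn : O.Nonempty) (hn' : O'.Nonempty) : (O ∩ O').Nonempty := by
  obtain ⟨t, ht⟩ := hn
  obtain ⟨t', ht'⟩ := hn'
  obtain ⟨p, hp, hpO⟩ := h t ht
  obtain ⟨p', hp', hpO'⟩ := h' t' ht'
  have hp0 : p ≠ 0 := by rintro rfl; exact hp (map_zero _)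
  have hp0' : p' ≠ 0 := by rintro rfl; exact hp' (map_zero _)
  have hne : p * p' ≠ 0 := mul_ne_zero hp0 hp0'
  by_contra hcon
  apply hne
  apply MvPolynomial.funext
  intro s
  rw [map_zero]
  by_contra hs
  rw [map_mul] at hs
  exact hcon ⟨s, hpO s (left_ne_zero_of_mul hs), hpO' s (right_ne_zero_of_mul hs)⟩

end Fano612
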