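import Pool.Agent.Helper612.Fano.Defs

set_option autoImplicit false
set_option linter.unusedVariables false
set_option linter.unusedSectionVars false

open MvPolynomial

namespace Fano612



theorem poly_eq_open {n : ℕ} {p q : MvPolynomial (Fin n) ℂ} {O : Set (Fin n → ℂ)} (hO : AOpen O)
    (hn : O.Nonempty) (h : ∀ t ∈ O, eval t p = eval t q) : p = q := by
  obtain ⟨t, ht⟩ := hn
  obtain ⟨r, hr, hrO⟩ := hO t ht
  have hr0 : r ≠ 0 := by
    intro h0
    apply hr
    rw [h0, map_zero]
  have h1 : (p - q) * r = 0 := by
    apply MvPolynomial.funext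
    intro x
    rw [map_mul, map_sub, map_zero]
    by_cases hx : eval x r = 0
    · rw [hx, mul_zero]
    · rw [h x (hrO x hx), sub_self, zero_mul]
  exact sub_eq_zero.1 ((mul_eq_zero.1 h1).resolve_right hr0)

end Fano612
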