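import Pool.Agent.Helper612.Fano.Defs
import Pool.Agent.Helper612.Fano.P_aopen_inter
import Pool.Agent.Helper612.Fano.P_aopen_meet
import Pool.Agent.Helper612.Fano.P_poly_eq_open

set_option autoImplicit false
set_option linter.unusedVariables false
set_option linter.unusedSectionVars false

open MvPolynomial

namespace Fano612



theorem areg_fraction {n : ℕ} {O : Set (Fin n → ℂ)} (hO : AOpen O) (hn : O.Nonempty)
    {f : (Fin n → ℂ) → ℂ} (hf : AReg O f) : ∃ p q : MvPolynomial (Fin n) ℂ, IsRelPrime p q ∧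
      ∀ t ∈ O, eval t q ≠ 0 ∧ f t = eval t p / eval t q := by
  obtain ⟨t0, ht0⟩ := hn
  obtain ⟨p0, q0, hq0, hf0⟩ := hf t0 ht0
  have hq0' : q0 ≠ 0 := by
    rintro rfl
    exact hq0 (map_zero _)
  obtain ⟨p, q, d, hpq, hdp, hdq⟩ := UniqueFactorizationMonoid.exists_reduced_factors' p0 q0 hq0'
  have hd : d ≠ 0 := by
    rintro rfl
    exact hq0' (by rw [← hdq, zero_mul])
  have hq : q ≠ 0 := by
    rintro rfl
    exact hq0' (by rw [← hdq, mul_zero])
  refine ⟨p, q, hpq, fun t ht => ?_⟩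
  obtain ⟨pt, qt, hqt, hft⟩ := hf t ht
  have hA : ∀ r : MvPolynomial (Fin n) ℂ, AOpen {s : Fin n → ℂ | eval s r ≠ 0} :=
    fun r s hs => ⟨r, hs, fun s' hs' => hs'⟩
  have hO1 : AOpen (O ∩ {s : Fin n → ℂ | eval s q0 ≠ 0}) := aopen_inter hO (hA q0)
  have hO2 := aopen_inter hO1 (hA qt)
  have hne := aopen_meet hO1 (hA qt) ⟨t0, ht0, hq0⟩ ⟨t, hqt⟩
  have h1 : pt * q0 = p0 * qt := by
    apply poly_eq_open hO2 hne
    rintro s ⟨⟨hsO, hs1⟩, hs2⟩
    have e1 := hf0 s hsO hs1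
    have e2 := hft s hsO hs2
    rw [e1] at e2
    rw [map_mul, map_mul]
    have := (div_eq_div_iff hs1 hs2).1 e2
    rw [this]
  have h2 : pt * q = p * qt := by
    apply mul_left_cancel₀ hd
    calc d * (pt * q) = pt * (d * q) := by ring
      _ = p0 * qt := by rw [hdq, h1]
      _ = d * (p * qt) := by rw [← hdp]; ring
  have h3 : q ∣ qt := hpq.symm.dvd_of_dvd_mul_left (Dvd.intro_left pt h2)
  obtain ⟨c, hc⟩ := h3
  have h4 : pt = p * c := by
    apply mul_right_cancel₀ hq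
    rw [h2, hc]
    ring
  have h5 : eval t q * eval t c ≠ 0 := by
    rw [← map_mul, ← hc]
    exact hqt
  refine ⟨left_ne_zero_of_mul h5, ?_⟩
  rw [hft t ht hqt, h4, hc, map_mul, map_mul, mul_div_mul_right _ _ (right_ne_zero_of_mul h5)]

end Fano612
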