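import Pool.Agent.Helper612.Fano.Defs
import Pool.Agent.Helper612.Fano.P_psi_hom

set_option autoImplicit false
set_option linter.unusedVariables false
set_option linter.unusedSectionVars false

open MvPolynomial

namespace Fano612



theorem atlas_smul {ι : Type} [Fintype ι] {X : Set (ι → ℂ)} {n D : ℕ} (A : Atlas X n D) :
    ∀ e ∈ X, ∀ a : ℂ, a ≠ 0 → a • e ∈ X := by
  intro e he a ha
  obtain ⟨k, hk⟩ := A.cover e he
  have h1 : (A.c k).κ (a • e) = a • (A.c k).κ e := map_smul _ _ _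
  have h2 : (A.c k).κ (a • e) 0 = a * (A.c k).κ e 0 := by
    rw [h1]; rfl
  have h3 : (A.c k).κ (a • e) 0 ≠ 0 := by
    rw [h2]; exact mul_ne_zero ha hk
  have h4 : (A.c k).κ e 0 ^ D • e = (A.c k).ψ ((A.c k).κ e) := ((A.c k).mem_iff e hk).mp he
  refine ((A.c k).mem_iff (a • e) h3).mpr ?_
  change (A.c k).κ (a • e) 0 ^ D • (a • e) = (A.c k).ψ ((A.c k).κ (a • e))
  rw [h2, h1, psi_hom, ← h4, smul_smul, smul_smul]
  congr 1
  ring

end Fano612
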