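import Pool.Agent.Helper612.Fano.Defs

set_option autoImplicit false
set_option linter.unusedVariables false
set_option linter.unusedSectionVars false

open MvPolynomial

namespace Fano612



theorem dehom {n : ℕ} (G : MvPolynomial (Fin (n + 1)) ℂ) :
    ∃ G' : MvPolynomial (Fin n) ℂ, ∀ t : Fin n → ℂ, eval t G' = eval (Fin.cons 1 t) G := by
  refine ⟨bind₁ (Fin.cons 1 (fun b => X b)) G, fun t => ?_⟩
  induction G using MvPolynomial.induction_on with
  | C a => simp
  | add p q hp hq => rw [map_add, map_add, map_add, hp, hq]
  | mul_X p i hp =>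
    rw [map_mul, map_mul, map_mul, hp, bind₁_X_right, eval_X]
    congr 1
    refine Fin.cases ?_ (fun j => ?_) i
    · simp
    · simp

end Fano612
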