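import Pool.Agent.Helper612.Fano.Defs
import Pool.Agent.Helper612.Fano.P_p_mem
import Pool.Agent.Helper612.Fano.P_comp_psi
import Pool.Agent.Helper612.Fano.P_dehom

set_option autoImplicit false
set_option linter.unusedVariables false
set_option linter.unusedSectionVars false

open MvPolynomial

namespace Fano612



theorem chart_aopen {ι : Type} [Fintype ι] {X : Set (ι → ℂ)} {n D : ℕ} (c : Chart X n D)
    {U : Set (ι → ℂ)} (hU : ZOpen X U) : AOpen {t | c.p t ∈ U} := by
  intro t ht
  obtain ⟨F, ⟨d, hF⟩, h1, h2⟩ := hU.2 (c.p t) ht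
  obtain ⟨F', -, hF'⟩ := comp_psi c hF
  obtain ⟨G, hG⟩ := dehom F'
  have key : ∀ t', eval t' G = eval (c.p t') F := by
    intro t'
    rw [hG, hF']
    rfl
  refine ⟨G, ?_, fun t' ht' => ?_⟩
  · rw [key]; exact h1
  · rw [key] at ht'
    exact h2 _ (p_mem c t').1.1 ht'

end Fano612
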