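import Pool.Agent.Helper612.Fano.Defs
import Pool.Agent.Helper612.Fano.P_comp_psi
import Pool.Agent.Helper612.Fano.P_dehom

set_option autoImplicit false
set_option linter.unusedVariables false
set_option linter.unusedSectionVars false

open MvPolynomial

namespace Fano612



theorem chart_areg {ι : Type} [Fintype ι] {X : Set (ι → ℂ)} {n D : ℕ} (c : Chart X n D)
    {U : Set (ι → ℂ)} {m : ℤ} {h : (ι → ℂ) → ℂ} (H : IsSec U m h) :
    AReg {t | c.p t ∈ U} (fun t => h (c.p t)) := by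
  intro t ht
  obtain ⟨F, G, p, q, hF, hG, -, hG0, heq⟩ := H (c.p t) ht
  obtain ⟨F', -, hF'⟩ := comp_psi c hF
  obtain ⟨G', -, hG'⟩ := comp_psi c hG
  obtain ⟨F'', hF''⟩ := dehom F'
  obtain ⟨G'', hG''⟩ := dehom G'
  have eF : ∀ s : Fin n → ℂ, eval s F'' = eval (c.p s) F := fun s => by
    rw [hF'', hF']; rfl
  have eG : ∀ s : Fin n → ℂ, eval s G'' = eval (c.p s) G := fun s => by
    rw [hG'', hG']; rfl
  refine ⟨F'', G'', by rw [eG]; exact hG0, fun s hs hs0 => ?_⟩
  rw [eG] at hs0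
  rw [eF, eG]
  exact heq (c.p s) hs hs0

end Fano612
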