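import Pool.Agent.Helper612.Fano.Defs

set_option autoImplicit false
set_option linter.unusedVariables false
set_option linter.unusedSectionVars false

open MvPolynomial

namespace Fano612



theorem homog {n : ℕ} (p : MvPolynomial (Fin n) ℂ) :
    ∃ d0 : ℕ, ∀ d ≥ d0, ∃ G : MvPolynomial (Fin (n + 1)) ℂ, G.IsHomogeneous d ∧
      ∀ x : Fin (n + 1) → ℂ, x 0 ≠ 0 →
        eval x G = x 0 ^ d * eval (fun b : Fin n => x b.succ / x 0) p := by
  classical
  refine ⟨p.totalDegree, fun d hd => ⟨∑ s ∈ p.support, C (coeff s p) *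
    (X 0 ^ (d - ∑ b, s b) * ∏ b : Fin n, (X b.succ : MvPolynomial (Fin (n + 1)) ℂ) ^ (s b)), ?_, ?_⟩⟩
  · refine IsHomogeneous.sum _ _ _ (fun s hs => ?_)
    have hdeg : ∑ b, s b ≤ d := by
      have h1 := le_totalDegree hs
      rw [Finsupp.sum_fintype _ _ (fun _ => rfl)] at h1
      exact h1.trans hd
    have h2 : (X 0 ^ (d - ∑ b, s b) * ∏ b : Fin n,
        (X b.succ : MvPolynomial (Fin (n + 1)) ℂ) ^ (s b)).IsHomogeneous
          ((d - ∑ b, s b) + ∑ b, s b) := by
      refine IsHomogeneous.mul ?_ ?_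
      · exact isHomogeneous_X_pow _ _
      · exact IsHomogeneous.prod _ _ _ (fun b _ => isHomogeneous_X_pow _ _)
    have h3 := (isHomogeneous_C (Fin (n + 1)) (coeff s p)).mul h2
    have h4 : 0 + ((d - ∑ b, s b) + ∑ b, s b) = d := by omega
    rw [h4] at h3
    exact h3
  · intro x hx
    rw [map_sum, eval_eq', Finset.mul_sum]
    refine Finset.sum_congr rfl (fun s hs => ?_)
    have hdeg : ∑ b, s b ≤ d := by
      have h1 := le_totalDegree hs
      rw [Finsupp.sum_fintype _ _ (fun _ => rfl)] at h1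
      exact h1.trans hd
    simp only [map_mul, eval_C, map_pow, eval_X, map_prod]
    have h5 : ∏ b : Fin n, (x b.succ / x 0) ^ (s b)
        = (∏ b : Fin n, x b.succ ^ (s b)) / x 0 ^ (∑ b, s b) := by
      simp_rw [div_pow]
      rw [Finset.prod_div_distrib, Finset.prod_pow_eq_pow_sum]
    rw [h5]
    have h6 : x 0 ^ d = x 0 ^ (d - ∑ b, s b) * x 0 ^ (∑ b, s b) := by
      rw [← pow_add]; congr 1; omega
    rw [h6]
    have h7 : x 0 ^ (∑ b, s b) ≠ 0 := pow_ne_zero _ hx
    field_simp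

end Fano612
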