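import Pool.Agent.Helper612.Fano.Defs
import Pool.Agent.Helper612.Fano.P_psi_hom

set_option autoImplicit false
set_option linter.unusedVariables false
set_option linter.unusedSectionVars false

open MvPolynomial

namespace Fano612



theorem p_t {ι : Type} [Fintype ι] {X : Set (ι → ℂ)} {n D : ℕ} (c : Chart X n D)
    {e : ι → ℂ} (he : e ∈ c.V) : e = c.κ e 0 • c.p (c.t e) := by
  obtain ⟨heX, hs⟩ := he
  have h1 : c.κ e 0 ^ D • e = c.ψ (c.κ e) := (c.mem_iff e hs).1 heX
  have h2 : c.κ e = c.κ e 0 • (Fin.cons 1 (c.t e) : Fin (n + 1) → ℂ) := by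
    funext b
    refine Fin.cases ?_ (fun b => ?_) b
    · simp
    · simp only [Pi.smul_apply, Fin.cons_succ, smul_eq_mul]
      unfold Chart.t
      field_simp
  rw [h2, psi_hom] at h1
  have h0 : (c.κ e 0 • (Fin.cons 1 (c.t e) : Fin (n + 1) → ℂ)) 0 = c.κ e 0 := by simp
  rw [h0, pow_succ, mul_smul] at h1
  exact smul_right_injective _ (pow_ne_zero D hs) h1

end Fano612
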