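import Pool.Agent.Helper612.Fano.Defs
import Pool.Agent.Helper612.Fano.P_eval_hom
import Pool.Agent.Helper612.Fano.P_p_mem
import Pool.Agent.Helper612.Fano.P_p_t
import Pool.Agent.Helper612.Fano.P_comp_lin
import Pool.Agent.Helper612.Fano.P_homog

set_option autoImplicit false
set_option linter.unusedVariables false
set_option linter.unusedSectionVars false

open MvPolynomial

namespace Fano612



theorem chart_sec {ι : Type} [Fintype ι] {X : Set (ι → ℂ)} {n D : ℕ} (c : Chart X n D)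
    {U : Set (ι → ℂ)} (hU : ZOpen X U) (hs : ∀ e ∈ X, ∀ a : ℂ, a ≠ 0 → a • e ∈ X)
    {f : (Fin n → ℂ) → ℂ} (H : AReg {t | c.p t ∈ U} f) :
    IsSec (U ∩ c.V) 0 (fun e => f (c.t e)) := by
  have hA : ∀ e ∈ U ∩ c.V, c.p (c.t e) ∈ U := by
    rintro e ⟨heU, heV⟩
    obtain ⟨F, ⟨d, hF⟩, hFe, hFU⟩ := hU.2 e heU
    refine hFU _ (p_mem c (c.t e)).1.1 fun h0 => hFe ?_
    rw [p_t c heV, eval_hom hF, h0, mul_zero]
  intro v hv
  obtain ⟨p, q, hq, hpq⟩ := H (c.t v) (hA v hv)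
  obtain ⟨d1, h1⟩ := homog p
  obtain ⟨d2, h2⟩ := homog q
  obtain ⟨Gp, hGp, hGp'⟩ := h1 (max d1 d2) (le_max_left _ _)
  obtain ⟨Gq, hGq, hGq'⟩ := h2 (max d1 d2) (le_max_right _ _)
  obtain ⟨F, hF, hF'⟩ := comp_lin c.κ hGp
  obtain ⟨G, hG, hG'⟩ := comp_lin c.κ hGq
  have e1 : ∀ w ∈ c.V, eval w F = c.κ w 0 ^ (max d1 d2) * eval (c.t w) p := fun w hw => by
    rw [hF', hGp' _ hw.2]; rfl
  have e2 : ∀ w ∈ c.V, eval w G = c.κ w 0 ^ (max d1 d2) * eval (c.t w) q := fun w hw => by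
    rw [hG', hGq' _ hw.2]; rfl
  refine ⟨F, G, max d1 d2, max d1 d2, hF, hG, by simp, ?_, fun w hw hwG => ?_⟩
  · rw [e2 v hv.2]
    exact mul_ne_zero (pow_ne_zero _ hv.2.2) hq
  · rw [e2 w hw.2] at hwG
    rw [e1 w hw.2, e2 w hw.2, mul_div_mul_left _ _ (pow_ne_zero _ hw.2.2)]
    exact hpq _ (hA w hw) (right_ne_zero_of_mul hwG)

end Fano612
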