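import Pool.Agent.Helper612.Fano.Defs

set_option autoImplicit false
set_option linter.unusedVariables false
set_option linter.unusedSectionVars false

open MvPolynomial

namespace Fano612



theorem eg_not_dvd {R : Type*} [CommRing R] [IsDomain R] (T : Finset R)
    (hT : ∀ π ∈ T, Prime π) (f : R → ℕ) (ρ : R) (hρ : Prime ρ)
    (hna : ∀ π ∈ T, ¬ Associated π ρ) : ¬ ρ ∣ ∏ π ∈ T, π ^ f π := by
  intro h
  obtain ⟨π, hπ, hd⟩ := (hρ.dvd_finsetProd_iff _).1 h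
  have h1 : ρ ∣ π := hρ.dvd_of_dvd_pow hd
  have h2 : Associated ρ π := (hρ.dvd_prime_iff_associated (hT π hπ)).1 h1
  exact hna π hπ h2.symm

theorem eg_mult {R : Type*} [CommRing R] [IsDomain R] (T : Finset R)
    (hT : ∀ π ∈ T, Prime π) (hna : ∀ π ∈ T, ∀ π' ∈ T, Associated π π' → π = π') (f : R → ℕ)
    (ρ : R) (hρ : ρ ∈ T) : multiplicity ρ (∏ π ∈ T, π ^ f π) = f ρ := by
  classical
  have h1 := Finset.mul_prod_erase T (fun π => π ^ f π) hρ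
  have h2 : ¬ ρ ∣ ∏ π ∈ T.erase ρ, π ^ f π := by
    apply eg_not_dvd _ (fun π hπ => hT π (Finset.mem_of_mem_erase hπ)) f ρ (hT ρ hρ)
    intro π hπ ha
    exact (Finset.ne_of_mem_erase hπ) (hna π (Finset.mem_of_mem_erase hπ) ρ hρ ha)
  rw [← h1]
  apply multiplicity_eq_of_dvd_of_not_dvd
  · exact dvd_mul_right _ _
  · intro h3
    rw [pow_succ] at h3
    exact h2 ((mul_dvd_mul_iff_left (pow_ne_zero _ (hT ρ hρ).ne_zero)).1 h3)

theorem exists_gamma {n : ℕ} (S : Finset (MvPolynomial (Fin n) ℂ)) (hS : ∀ π ∈ S, Prime π)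
    (hna : ∀ π ∈ S, ∀ π' ∈ S, Associated π π' → π = π') (e : MvPolynomial (Fin n) ℂ → ℤ) :
    ∃ P Q : MvPolynomial (Fin n) ℂ, P ≠ 0 ∧ Q ≠ 0 ∧
      (∀ π ∈ S, (multiplicity π P : ℤ) - multiplicity π Q = e π) ∧
      ∀ π, Prime π → (∀ π' ∈ S, ¬ Associated π' π) → multiplicity π P = 0 ∧ multiplicity π Q = 0 := by
  refine ⟨∏ π ∈ S, π ^ (e π).toNat, ∏ π ∈ S, π ^ (-e π).toNat, ?_, ?_, ?_, ?_⟩
  · exact Finset.prod_ne_zero_iff.2 fun π hπ => pow_ne_zero _ (hS π hπ).ne_zero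
  · exact Finset.prod_ne_zero_iff.2 fun π hπ => pow_ne_zero _ (hS π hπ).ne_zero
  · intro π hπ
    rw [eg_mult S hS hna (fun π => (e π).toNat) π hπ,
      eg_mult S hS hna (fun π => (-e π).toNat) π hπ]
    omega
  · intro π hπ hn
    exact ⟨multiplicity_eq_zero.2 (eg_not_dvd S hS _ π hπ hn),
      multiplicity_eq_zero.2 (eg_not_dvd S hS _ π hπ hn)⟩

end Fano612
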