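import Pool.Agent.Helper612.Fano.Defs

set_option autoImplicit false
set_option linter.unusedVariables false
set_option linter.unusedSectionVars false

open MvPolynomial

namespace Fano612



theorem null_prime {n : ℕ} {π q : MvPolynomial (Fin n) ℂ} (hπ : Prime π)
    (h : ∀ t, eval t π = 0 → eval t q = 0) : π ∣ q := by
  haveI hP : (Ideal.span {π} : Ideal (MvPolynomial (Fin n) ℂ)).IsPrime :=
    (Ideal.span_singleton_prime hπ.ne_zero).2 hπ
  have h1 := MvPolynomial.IsPrime.vanishingIdeal_zeroLocus (K := ℂ) (Ideal.span {π})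
  have h2 : q ∈ MvPolynomial.vanishingIdeal ℂ (MvPolynomial.zeroLocus ℂ (Ideal.span {π})) := by
    rw [MvPolynomial.mem_vanishingIdeal_iff]
    intro t ht
    have h3 := (MvPolynomial.mem_zeroLocus_iff.1 ht) π (Ideal.mem_span_singleton_self π)
    have h4 : eval t π = 0 := by rw [← MvPolynomial.coe_aeval_eq_eval]; exact h3
    have h5 := h t h4
    rw [← MvPolynomial.coe_aeval_eq_eval] at h5
    exact h5
  rw [h1] at h2
  exact Ideal.mem_span_singleton.1 h2

end Fano612
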