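import Pool.Agent.Helper612.Fano.Defs
import Pool.Agent.Helper612.Fano.P_null_prime

set_option autoImplicit false
set_option linter.unusedVariables false
set_option linter.unusedSectionVars false

open MvPolynomial

namespace Fano612



theorem prime_open {n : ℕ} {π q : MvPolynomial (Fin n) ℂ} (hπ : Prime π) {O : Set (Fin n → ℂ)}
    (hO : AOpen O) {t : Fin n → ℂ} (ht : t ∈ O) (h0 : eval t π = 0)
    (h : ∀ t' ∈ O, eval t' π = 0 → eval t' q = 0) : π ∣ q := by
  obtain ⟨p, hp, hp'⟩ := hO t ht
  have h1 : π ∣ q * p := by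
    apply null_prime hπ
    intro t' ht'
    rw [map_mul]
    by_cases h2 : eval t' p = 0
    · rw [h2, mul_zero]
    · rw [h t' (hp' t' h2) ht', zero_mul]
  rcases hπ.dvd_or_dvd h1 with h3 | h3
  · exact h3
  · exfalso
    obtain ⟨r, hr⟩ := h3
    apply hp
    rw [hr, map_mul, h0, zero_mul]

end Fano612
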