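import Pool.Agent.Helper612.Fano.Defs
import Pool.Agent.Helper612.Fano.P_null_prime

set_option autoImplicit false
set_option linter.unusedVariables false
set_option linter.unusedSectionVars false

open MvPolynomial

namespace Fano612



theorem prime_zero {n : ℕ} {π : MvPolynomial (Fin n) ℂ} (hπ : Prime π) : ∃ t, eval t π = 0 := by
  by_contra hcon
  push Not at hcon
  have h1 : π ∣ 1 := null_prime hπ (fun t ht => absurd ht (hcon t))
  exact hπ.not_unit (isUnit_of_dvd_one h1)

end Fano612
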