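import Pool.Agent.Helper612.Fano.Defs

set_option autoImplicit false
set_option linter.unusedVariables false
set_option linter.unusedSectionVars false

open MvPolynomial

namespace Fano612



theorem val_cross {n : ℕ} {a b p q p' q' π : MvPolynomial (Fin n) ℂ} (hπ : Prime π)
    (hp : p ≠ 0) (hq : q ≠ 0) (hp' : p' ≠ 0) (hq' : q' ≠ 0) (ha : ¬ π ∣ a) (hb : ¬ π ∣ b)
    (h : a * (q * p') = b * (p * q')) :
    (multiplicity π p : ℤ) - multiplicity π q = (multiplicity π p' : ℤ) - multiplicity π q' := by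
  have ha0 : a ≠ 0 := fun h0 => ha (h0 ▸ dvd_zero π)
  have hb0 : b ≠ 0 := fun h0 => hb (h0 ▸ dvd_zero π)
  have hfin : ∀ x : MvPolynomial (Fin n) ℂ, x ≠ 0 → FiniteMultiplicity π x := fun x hx =>
    FiniteMultiplicity.of_prime_left hπ hx
  have hmul : ∀ x y : MvPolynomial (Fin n) ℂ, x ≠ 0 → y ≠ 0 →
      multiplicity π (x * y) = multiplicity π x + multiplicity π y := fun x y hx hy =>
    multiplicity_mul hπ (hfin _ (mul_ne_zero hx hy))
  have h1 := congrArg (multiplicity π) h
  rw [hmul _ _ ha0 (mul_ne_zero hq hp'), hmul _ _ hq hp', hmul _ _ hb0 (mul_ne_zero hp hq'),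
    hmul _ _ hp hq', multiplicity_eq_zero.2 ha, multiplicity_eq_zero.2 hb] at h1
  omega

end Fano612
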