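import Pool.Agent.Helper612.Fano.Defs
import Pool.Agent.Helper612.Fano.P_null_prime
import Pool.Agent.Helper612.Fano.P_prime_zero
import Pool.Agent.Helper612.Fano.P_prime_open
import Pool.Agent.Helper612.Fano.P_aopen_inter
import Pool.Agent.Helper612.Fano.P_aopen_meet
import Pool.Agent.Helper612.Fano.P_poly_eq_open
import Pool.Agent.Helper612.Fano.P_areg_fraction
import Pool.Agent.Helper612.Fano.P_val_cross
import Pool.Agent.Helper612.Fano.P_exists_gamma
import Pool.Agent.Helper612.Fano.P_nonvanish_of_val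

set_option autoImplicit false
set_option linter.unusedVariables false
set_option linter.unusedSectionVars false

open MvPolynomial

namespace Fano612



theorem pa_common {n : ℕ} {π : MvPolynomial (Fin n) ℂ} (hπ : Prime π) {O O' : Set (Fin n → ℂ)}
    (hO : AOpen O) (hO' : AOpen O') {t t' : Fin n → ℂ} (ht : t ∈ O) (ht' : t' ∈ O')
    (h0 : eval t π = 0) (h0' : eval t' π = 0) : ∃ s ∈ O ∩ O', eval s π = 0 := by
  by_contra hcon
  push Not at hcon
  obtain ⟨p, hp, hp2⟩ := hO t ht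
  obtain ⟨p', hp', hp2'⟩ := hO' t' ht'
  have h1 : ∀ s, eval s π = 0 → eval s (p * p') = 0 := by
    intro s hs
    rw [map_mul]
    by_contra hne
    rw [mul_eq_zero, not_or] at hne
    exact hcon s ⟨hp2 s hne.1, hp2' s hne.2⟩ hs
  have h2 := null_prime hπ h1
  rcases hπ.dvd_or_dvd h2 with h3 | h3
  · obtain ⟨c, hc⟩ := h3
    apply hp
    rw [hc, map_mul, h0, zero_mul]
  · obtain ⟨c, hc⟩ := h3
    apply hp'
    rw [hc, map_mul, h0', zero_mul]

theorem pa_eval_dvd {n : ℕ} {π q : MvPolynomial (Fin n) ℂ} (h : π ∣ q) {t : Fin n → ℂ}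
    (h0 : eval t π = 0) : eval t q = 0 := by
  obtain ⟨c, hc⟩ := h
  rw [hc, map_mul, h0, zero_mul]

theorem pa_ne {n : ℕ} {q : MvPolynomial (Fin n) ℂ} {t : Fin n → ℂ} (h : eval t q ≠ 0) : q ≠ 0 := by
  intro h0
  rw [h0, map_zero] at h
  exact h rfl

/-- representatives of the primes dividing a polynomial -/
theorem pa_reps {n : ℕ} {f : MvPolynomial (Fin n) ℂ} (hf : f ≠ 0) :
    ∃ S : Finset (MvPolynomial (Fin n) ℂ), (∀ π ∈ S, Prime π ∧ π ∣ f) ∧
      (∀ π ∈ S, ∀ π' ∈ S, Associated π π' → π = π') ∧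
      ∀ π, Prime π → π ∣ f → ∃ π' ∈ S, Associated π' π := by
  classical
  obtain ⟨r, hr⟩ : ∃ r : MvPolynomial (Fin n) ℂ → MvPolynomial (Fin n) ℂ,
      r = fun π => Quotient.out (Associates.mk π) := ⟨_, rfl⟩
  have hra : ∀ π, Associated (r π) π := by
    intro π
    rw [← Associates.mk_eq_mk_iff_associated, hr]
    exact Quotient.out_eq (Associates.mk π)
  have hre : ∀ π π', Associated π π' → r π = r π' := by
    intro π π' h
    rw [hr]
    simp only
    rw [Associates.mk_eq_mk_iff_associated.2 h]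
  refine ⟨(UniqueFactorizationMonoid.factors f).toFinset.image r, ?_, ?_, ?_⟩
  · intro π hπ
    obtain ⟨π0, h1, rfl⟩ := Finset.mem_image.1 hπ
    rw [Multiset.mem_toFinset] at h1
    refine ⟨(hra π0).symm.prime (UniqueFactorizationMonoid.prime_of_factor π0 h1), ?_⟩
    exact (hra π0).dvd.trans (UniqueFactorizationMonoid.dvd_of_mem_factors h1)
  · intro π hπ π' hπ' h
    obtain ⟨π0, h1, rfl⟩ := Finset.mem_image.1 hπ
    obtain ⟨π1, h2, rfl⟩ := Finset.mem_image.1 hπ'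
    exact hre _ _ (((hra π0).symm.trans h).trans (hra π1))
  · intro π hπ hd
    obtain ⟨π0, h1, h2⟩ := UniqueFactorizationMonoid.exists_mem_factors_of_dvd hf hπ.irreducible hd
    refine ⟨r π0, Finset.mem_image.2 ⟨π0, Multiset.mem_toFinset.2 h1, rfl⟩, ?_⟩
    exact (hra π0).trans h2.symm

theorem pa_mult_mul {n : ℕ} {π a b : MvPolynomial (Fin n) ℂ} (hπ : Prime π) (ha : a ≠ 0)
    (hb : b ≠ 0) : multiplicity π (a * b) = multiplicity π a + multiplicity π b :=
  multiplicity_mul hπ (FiniteMultiplicity.of_prime_left hπ (mul_ne_zero ha hb))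

theorem pic_affine {n : ℕ} {I : Type} (O : I → Set (Fin n → ℂ)) (hO : ∀ i, AOpen (O i))
    (hc : ∀ t, ∃ i, t ∈ O i) (g : I → I → (Fin n → ℂ) → ℂ)
    (hg : ∀ i j, AReg (O i ∩ O j) (g i j)) (h0 : ∀ i j, ∀ t ∈ O i ∩ O j, g i j t ≠ 0)
    (hcc : ∀ i j k, ∀ t ∈ O i ∩ O j ∩ O k, g i j t * g j k t = g i k t) :
    ∃ h : I → (Fin n → ℂ) → ℂ, (∀ i, AReg (O i) (h i)) ∧ (∀ i, ∀ t ∈ O i, h i t ≠ 0) ∧
      ∀ i j, ∀ t ∈ O i ∩ O j, h i t = g i j t * h j t := by
  classical
  obtain ⟨i0, hi0⟩ := hc 0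
  have hne0 : (O i0).Nonempty := ⟨0, hi0⟩
  -- fractions
  have frac : ∀ i j, (O i).Nonempty → (O j).Nonempty → ∃ a b : MvPolynomial (Fin n) ℂ,
      a ≠ 0 ∧ b ≠ 0 ∧ ∀ t ∈ O i ∩ O j, eval t a ≠ 0 ∧ eval t b ≠ 0 ∧
        g i j t = eval t a / eval t b := by
    intro i j hi hj
    have hn := aopen_meet (hO i) (hO j) hi hj
    obtain ⟨a, b, -, h1⟩ := areg_fraction (aopen_inter (hO i) (hO j)) hn (hg i j)
    have h2 : ∀ t ∈ O i ∩ O j, eval t a ≠ 0 ∧ eval t b ≠ 0 ∧ g i j t = eval t a / eval t b := by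
      intro t ht
      refine ⟨?_, (h1 t ht).1, (h1 t ht).2⟩
      intro h3
      apply h0 i j t ht
      rw [(h1 t ht).2, h3, zero_div]
    obtain ⟨t, ht⟩ := hn
    exact ⟨a, b, pa_ne (h2 t ht).1, pa_ne (h2 t ht).2.1, h2⟩
  have hpq : ∀ i, ∃ p q : MvPolynomial (Fin n) ℂ, (O i).Nonempty → (p ≠ 0 ∧ q ≠ 0 ∧
      ∀ t ∈ O i ∩ O i0, eval t p ≠ 0 ∧ eval t q ≠ 0 ∧ g i i0 t = eval t p / eval t q) := by
    intro i
    by_cases hi : (O i).Nonempty
    · obtain ⟨p, q, h⟩ := frac i i0 hi hne0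
      exact ⟨p, q, fun _ => h⟩
    · exact ⟨1, 1, fun h => absurd h hi⟩
  choose p q hpq using hpq
  -- polynomial form of the cocycle relation
  have hcoc : ∀ i j (hi : (O i).Nonempty) (hj : (O j).Nonempty) (a b : MvPolynomial (Fin n) ℂ),
      (∀ t ∈ O i ∩ O j, eval t a ≠ 0 ∧ eval t b ≠ 0 ∧ g i j t = eval t a / eval t b) →
      a * (q i * p j) = b * (p i * q j) := by
    intro i j hi hj a b hab
    have ho1 := aopen_inter (hO i) (hO j)
    have hn1 := aopen_meet (hO i) (hO j) hi hj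
    refine poly_eq_open (aopen_inter ho1 (hO i0)) (aopen_meet ho1 (hO i0) hn1 hne0) ?_
    intro t ht
    obtain ⟨a1, a2, a3⟩ := hab t ht.1
    obtain ⟨b1, b2, b3⟩ := (hpq i hi).2.2 t ⟨ht.1.1, ht.2⟩
    obtain ⟨c1, c2, c3⟩ := (hpq j hj).2.2 t ⟨ht.1.2, ht.2⟩
    have h1 := hcc i j i0 t ht
    rw [a3, b3, c3] at h1
    rw [div_mul_div_comm, div_eq_div_iff (mul_ne_zero a2 c2) b2] at h1
    simp only [map_mul]
    linear_combination h1
  -- invariance of the valuation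
  have hinv : ∀ i j (π : MvPolynomial (Fin n) ℂ), Prime π → (∃ t ∈ O i, eval t π = 0) →
      (∃ t ∈ O j, eval t π = 0) →
      (multiplicity π (p i) : ℤ) - multiplicity π (q i) =
        (multiplicity π (p j) : ℤ) - multiplicity π (q j) := by
    rintro i j π hπ ⟨t, ht, ht0⟩ ⟨t', ht', ht0'⟩
    obtain ⟨s, hs, hs0⟩ := pa_common hπ (hO i) (hO j) ht ht' ht0 ht0'
    have hi : (O i).Nonempty := ⟨t, ht⟩
    have hj : (O j).Nonempty := ⟨t', ht'⟩
    obtain ⟨a, b, ha, hb, hab⟩ := frac i j hi hj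
    refine val_cross hπ (hpq i hi).1 (hpq i hi).2.1 (hpq j hj).1 (hpq j hj).2.1 ?_ ?_
      (hcoc i j hi hj a b hab)
    · intro h
      exact (hab s hs).1 (pa_eval_dvd h hs0)
    · intro h
      exact (hab s hs).2.1 (pa_eval_dvd h hs0)
  obtain ⟨f0, hf0, hf1⟩ := hO i0 0 hi0
  obtain ⟨S, hS1, hS2, hS3⟩ := pa_reps (pa_ne hf0)
  have hidx : ∀ π : MvPolynomial (Fin n) ℂ, ∃ i, Prime π → ∃ t ∈ O i, eval t π = 0 := by
    intro π
    by_cases hπ : Prime π
    · obtain ⟨t, ht⟩ := prime_zero hπ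
      obtain ⟨i, hi⟩ := hc t
      exact ⟨i, fun _ => ⟨t, hi, ht⟩⟩
    · exact ⟨i0, fun h => absurd h hπ⟩
  choose idx hidx using hidx
  obtain ⟨P, Q, hP, hQ, hPQ1, hPQ2⟩ := exists_gamma S (fun π hπ => (hS1 π hπ).1) hS2
    (fun π => (multiplicity π (p (idx π)) : ℤ) - multiplicity π (q (idx π)))
  -- valuations of the glued function
  have hval : ∀ i (π : MvPolynomial (Fin n) ℂ), Prime π → (∃ t ∈ O i, eval t π = 0) →
      multiplicity π (p i * Q) = multiplicity π (q i * P) := by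
    intro i π hπ hz
    have hi : (O i).Nonempty := by
      obtain ⟨t, ht, -⟩ := hz
      exact ⟨t, ht⟩
    rw [pa_mult_mul hπ (hpq i hi).1 hQ, pa_mult_mul hπ (hpq i hi).2.1 hP]
    by_cases hd : π ∣ f0
    · obtain ⟨π', hπ', has⟩ := hS3 π hπ hd
      have hp' := (hS1 π' hπ').1
      have h1 := hPQ1 π' hπ'
      have hz' : ∃ t ∈ O i, eval t π' = 0 := by
        obtain ⟨t, ht, ht0⟩ := hz
        exact ⟨t, ht, pa_eval_dvd has.symm.dvd ht0⟩
      have h2 := hinv (idx π') i π' hp' (hidx π' hp') hz'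
      have hm : ∀ w : MvPolynomial (Fin n) ℂ, multiplicity π w = multiplicity π' w :=
        fun w => multiplicity_eq_of_associated_left has
      rw [hm (p i), hm Q, hm (q i), hm P]
      omega
    · have h1 := hPQ2 π hπ (fun π' hπ' has => hd (has.symm.dvd.trans (hS1 π' hπ').2))
      obtain ⟨t, ht, ht0⟩ := hz
      have key : ∀ w : MvPolynomial (Fin n) ℂ, (∀ s ∈ O i ∩ O i0, eval s w ≠ 0) →
          multiplicity π w = 0 := by
        intro w hw
        rw [multiplicity_eq_zero]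
        intro hdw
        apply hd
        refine prime_open hπ (hO i) ht ht0 ?_
        intro t' ht' ht0'
        by_contra hne
        exact hw t' ⟨ht', hf1 t' hne⟩ (pa_eval_dvd hdw ht0')
      rw [h1.1, h1.2, key (p i) (fun s hs => ((hpq i hi).2.2 s hs).1),
        key (q i) (fun s hs => ((hpq i hi).2.2 s hs).2.1)]
  have hab : ∀ i, ∃ a b : MvPolynomial (Fin n) ℂ, (∀ t ∈ O i, eval t a ≠ 0) ∧
      (∀ t ∈ O i, eval t b ≠ 0) ∧ ((O i).Nonempty → a * (q i * P) = b * (p i * Q)) := by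
    intro i
    by_cases hi : (O i).Nonempty
    · obtain ⟨a, b, h1, h2, h3⟩ := nonvanish_of_val (mul_ne_zero (hpq i hi).1 hQ)
        (mul_ne_zero (hpq i hi).2.1 hP) (hval i)
      exact ⟨a, b, h1, h2, fun _ => h3⟩
    · refine ⟨1, 1, ?_, ?_, fun h => absurd h hi⟩
      · intro t ht; exact absurd ⟨t, ht⟩ hi
      · intro t ht; exact absurd ⟨t, ht⟩ hi
  choose a b ha hb hab using hab
  refine ⟨fun i t => eval t (a i) / eval t (b i), ?_, ?_, ?_⟩
  · intro i t ht
    exact ⟨a i, b i, hb i t ht, fun t' _ _ => rfl⟩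
  · intro i t ht
    exact div_ne_zero (ha i t ht) (hb i t ht)
  · intro i j t ht
    have hi : (O i).Nonempty := ⟨t, ht.1⟩
    have hj : (O j).Nonempty := ⟨t, ht.2⟩
    obtain ⟨c, d, hc0, hd0, hcd⟩ := frac i j hi hj
    have e1 := hcoc i j hi hj c d hcd
    have e2 := hab i hi
    have e3 := hab j hj
    have hpoly : a i * (d * b j) = c * (a j * b i) := by
      have hnz : q i * P * (p j * Q) ≠ 0 :=
        mul_ne_zero (mul_ne_zero (hpq i hi).2.1 hP) (mul_ne_zero (hpq j hj).1 hQ)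
      apply mul_right_cancel₀ hnz
      linear_combination (d * b j * (p j * Q)) * e2 - (d * b i * p i * Q) * e3
        - (b i * a j * P * Q) * e1
    obtain ⟨c1, c2, c3⟩ := hcd t ht
    have h5 := congrArg (eval t) hpoly
    simp only [map_mul] at h5
    show eval t (a i) / eval t (b i) = g i j t * (eval t (a j) / eval t (b j))
    rw [c3, div_mul_div_comm, div_eq_div_iff (hb i t ht.1) (mul_ne_zero c2 (hb j t ht.2))]
    linear_combination h5

end Fano612
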