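import Pool.Agent.Helper612.Fano.Defs

set_option autoImplicit false
set_option linter.unusedVariables false
set_option linter.unusedSectionVars false

open MvPolynomial

namespace Fano612



theorem eval_smul_hom {ι : Type} [Fintype ι] {F : MvPolynomial ι ℂ} {p : ℕ}
    (hF : F.IsHomogeneous p) (c : ℂ) (v : ι → ℂ) : eval (c • v) F = c ^ p * eval v F := by
  rw [eval_eq', eval_eq', Finset.mul_sum]
  refine Finset.sum_congr rfl fun d hd => ?_
  have h1 : ∑ i, d i = p := by
    have h2 := hF (mem_support_iff.1 hd)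
    rw [Finsupp.weight_apply, Finsupp.sum_fintype _ _ (by simp)] at h2
    simpa using h2
  have h3 : ∏ i, (c • v) i ^ d i = c ^ p * ∏ i, v i ^ d i := by
    rw [← h1, ← Finset.prod_pow_eq_pow_sum, ← Finset.prod_mul_distrib]
    exact Finset.prod_congr rfl fun i _ => by rw [Pi.smul_apply, smul_eq_mul, mul_pow]
  rw [h3]
  ring

theorem sec_smul {ι : Type} [Fintype ι] {U : Set (ι → ℂ)} {m : ℤ} {h : (ι → ℂ) → ℂ}
    (H : IsSec U m h) {v : ι → ℂ} {c : ℂ} (hc : c ≠ 0) (hv : v ∈ U) (hcv : c • v ∈ U) :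
    h (c • v) = c ^ m * h v := by
  obtain ⟨F, G, p, q, hF, hG, hpq, hne, hw⟩ := H v hv
  have e1 := hw v hv hne
  have hne2 : eval (c • v) G ≠ 0 := by
    rw [eval_smul_hom hG]
    exact mul_ne_zero (pow_ne_zero _ hc) hne
  have e2 := hw (c • v) hcv hne2
  rw [e1, e2, eval_smul_hom hF, eval_smul_hom hG]
  have h3 : c ^ m = c ^ p / c ^ q := by
    have : m = (p : ℤ) - q := by omega
    rw [this, zpow_sub₀ hc, zpow_natCast, zpow_natCast]
  rw [h3]
  have hq : c ^ q ≠ 0 := pow_ne_zero _ hc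
  field_simp

end Fano612
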