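import Pool.Agent.Helper612.Fano.Defs
import Pool.Agent.Helper612.Fano.P_sec_smul
import Pool.Agent.Helper612.Fano.P_pic_affine
import Pool.Agent.Helper612.Fano.P_eval_hom
import Pool.Agent.Helper612.Fano.P_p_mem
import Pool.Agent.Helper612.Fano.P_p_t
import Pool.Agent.Helper612.Fano.P_chart_aopen
import Pool.Agent.Helper612.Fano.P_chart_areg
import Pool.Agent.Helper612.Fano.P_chart_sec

set_option autoImplicit false
set_option linter.unusedVariables false
set_option linter.unusedSectionVars false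

open MvPolynomial

namespace Fano612



theorem chart_triv_stable {ι : Type} [Fintype ι] {X U : Set (ι → ℂ)} (hU : ZOpen X U)
    {e : ι → ℂ} (he : e ∈ U) {a : ℂ} (ha : a ≠ 0) (hX : a • e ∈ X) : a • e ∈ U := by
  obtain ⟨F, ⟨d, hF⟩, hFe, hFU⟩ := hU.2 e he
  apply hFU _ hX
  rw [eval_hom hF]
  exact mul_ne_zero (pow_ne_zero _ ha) hFe

theorem chart_triv {ι : Type} [Fintype ι] {X : Set (ι → ℂ)} {n D : ℕ} (c : Chart X n D)
    (hs : ∀ e ∈ X, ∀ a : ℂ, a ≠ 0 → a • e ∈ X) (L : LineBundle X) :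
    ∃ h : L.I → (ι → ℂ) → ℂ, Triv c L h := by
  obtain ⟨h, h1, h2, h3⟩ := pic_affine (fun i => {t | c.p t ∈ L.U i})
    (fun i => chart_aopen c (L.isOpen i))
    (fun t => L.cover _ (p_mem c t).1.1)
    (fun i j t => L.g i j (c.p t))
    (fun i j => chart_areg c (L.reg i j))
    (fun i j t ht => L.ne_zero i j _ ht)
    (fun i j k t ht => L.cocycle i j k _ ht)
  have hst : ∀ i, ∀ e ∈ L.U i, e ∈ c.V → c.p (c.t e) ∈ L.U i := by
    intro i e he heV
    have hκ : c.κ e 0 ≠ 0 := heV.2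
    have h4 : c.p (c.t e) = (c.κ e 0)⁻¹ • e := by
      conv_rhs => rw [p_t c heV]
      rw [map_smul, Pi.smul_apply, (p_mem c (c.t e)).2.1]
      simp only [Fin.cons_zero, smul_eq_mul, mul_one]
      rw [smul_smul, inv_mul_cancel₀ hκ, one_smul]
    rw [h4]
    refine chart_triv_stable (L.isOpen i) he (inv_ne_zero hκ) ?_
    rw [← h4]
    exact (p_mem c _).1.1
  refine ⟨fun i e => h i (c.t e), ?_, ?_, ?_⟩
  · intro i
    exact chart_sec c (L.isOpen i) hs (h1 i)
  · rintro i e ⟨he, heV⟩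
    exact h2 i _ (hst i e he heV)
  · rintro i j e ⟨⟨hi, hj⟩, heV⟩
    have hpi := hst i e hi heV
    have hpj := hst j e hj heV
    have h4 := h3 i j (c.t e) ⟨hpi, hpj⟩
    show h i (c.t e) = L.g i j e * h j (c.t e)
    rw [h4]
    congr 1
    have h5 := sec_smul (L.reg i j) (v := c.p (c.t e)) (c := c.κ e 0) heV.2 ⟨hpi, hpj⟩
      (by rw [← p_t c heV]; exact ⟨hi, hj⟩)
    rw [← p_t c heV, zpow_zero, one_mul] at h5
    exact h5.symm

end Fano612
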