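import Pool.Agent.Helper612.Fano.Defs
import Pool.Agent.Helper612.Fano.P_sec_mul
import Pool.Agent.Helper612.Fano.P_sec_mono
import Pool.Agent.Helper612.Fano.P_sec_congr
import Pool.Agent.Helper612.Fano.P_sec_zpow
import Pool.Agent.Helper612.Fano.P_sec_const
import Pool.Agent.Helper612.Fano.P_sec_lin
import Pool.Agent.Helper612.Fano.P_zopen_inter
import Pool.Agent.Helper612.Fano.P_sec_eq
import Pool.Agent.Helper612.Fano.P_p_mem
import Pool.Agent.Helper612.Fano.P_V_open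
import Pool.Agent.Helper612.Fano.P_atlas_irr

set_option autoImplicit false
set_option linter.unusedVariables false
set_option linter.unusedSectionVars false

open MvPolynomial

namespace Fano612



theorem sec_npow19 {ι : Type} [Fintype ι] (U : Set (ι → ℂ)) (l : (ι → ℂ) →ₗ[ℂ] ℂ) (k : ℕ) :
    IsSec U (k : ℤ) (fun v => l v ^ k) := by
  induction k with
  | zero =>
    have := sec_const U 1
    simpa using this
  | succ k ih =>
    have h1 := sec_mul ih (sec_lin U l)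
    have e1 : ((k + 1 : ℕ) : ℤ) = (k : ℤ) + 1 := by push_cast; ring
    rw [e1]
    exact sec_congr h1 fun v _ => by simp [pow_succ]

theorem expo_le19 {ι : Type} [Fintype ι] {X : Set (ι → ℂ)} {n D : ℕ} (A : Atlas X n D)
    (L : LineBundle X) {a b b' : A.K}
    (hexp : ∃ e ∈ X, (A.c b).κ e 0 ≠ 0 ∧ (A.c b').κ e 0 ≠ 0 ∧ (A.c a).κ e 0 = 0)
    {h h1 h2 : L.I → (ι → ℂ) → ℂ} (H1 : Triv (A.c b) L h1)
    (H2 : Triv (A.c b') L h2) {r r' : ℂ} {m m' : ℤ} (hr : r ≠ 0)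
    (E : Rat L (A.c a) (A.c b) h h1 r m) (E' : Rat L (A.c a) (A.c b') h h2 r' m') : m ≤ m' := by
  by_contra hlt
  push Not at hlt
  obtain ⟨e0, he0, hb0, hb0', ha0⟩ := hexp
  obtain ⟨i, hi⟩ := L.cover e0 he0
  obtain ⟨k, hk⟩ : ∃ k : ℕ, m = m' + k := ⟨(m - m').toNat, by omega⟩
  have hk0 : k ≠ 0 := by rintro rfl; simp at hk; omega
  let la : (ι → ℂ) →ₗ[ℂ] ℂ := (LinearMap.proj 0).comp (A.c a).κ
  let lb : (ι → ℂ) →ₗ[ℂ] ℂ := (LinearMap.proj 0).comp (A.c b).κ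
  let lb' : (ι → ℂ) →ₗ[ℂ] ℂ := (LinearMap.proj 0).comp (A.c b').κ
  have hla : ∀ e, la e = (A.c a).κ e 0 := fun e => rfl
  have hlb : ∀ e, lb e = (A.c b).κ e 0 := fun e => rfl
  have hlb' : ∀ e, lb' e = (A.c b').κ e 0 := fun e => rfl
  set U : Set (ι → ℂ) := L.U i ∩ (A.c b).V ∩ (A.c b').V with hU
  have hUo : ZOpen X U := zopen_inter (zopen_inter (L.isOpen i) (V_open _)) (V_open _)
  have hUb : ∀ v ∈ U, lb v ≠ 0 := fun v hv => hv.1.2.2
  have hUb' : ∀ v ∈ U, lb' v ≠ 0 := fun v hv => hv.2.2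
  have S1 : IsSec U 0 (h1 i) := sec_mono (H1.1 i) fun v hv => hv.1
  have S2 : IsSec U 0 (h2 i) := sec_mono (H2.1 i) fun v hv => ⟨hv.1.1, hv.2⟩
  have SA : IsSec U m (fun v => r * lb v ^ m * h1 i v) := by
    have := sec_mul (sec_mul (sec_const U r) (sec_zpow (sec_lin U lb) hUb m)) S1
    have e1 : (0 : ℤ) + m * 1 + 0 = m := by ring
    rw [e1] at this
    exact this
  have SB : IsSec U m (fun v => r' * lb' v ^ m' * la v ^ k * h2 i v) := by
    have := sec_mul (sec_mul (sec_mul (sec_const U r') (sec_zpow (sec_lin U lb') hUb' m'))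
      (sec_npow19 U la k)) S2
    have e1 : (0 : ℤ) + m' * 1 + k + 0 = m := by rw [hk]; ring
    rw [e1] at this
    exact this
  have hag : ∀ v ∈ U ∩ (A.c a).V, (fun v => r * lb v ^ m * h1 i v) v =
      (fun v => r' * lb' v ^ m' * la v ^ k * h2 i v) v := by
    rintro v ⟨hv, hva⟩
    have hav : la v ≠ 0 := hva.2
    have x1 := E i v hv.1.1 hva hv.1.2
    have x2 := E' i v hv.1.1 hva hv.2
    rw [← hla, ← hlb, div_zpow] at x1
    rw [← hla, ← hlb', div_zpow] at x2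
    have hm0 : la v ^ m ≠ 0 := zpow_ne_zero _ hav
    have hm0' : la v ^ m' ≠ 0 := zpow_ne_zero _ hav
    have hmm : la v ^ m = la v ^ m' * la v ^ k := by
      rw [hk, zpow_add₀ hav, zpow_natCast]
    show r * lb v ^ m * h1 i v = r' * lb' v ^ m' * la v ^ k * h2 i v
    have y1 : r * lb v ^ m * h1 i v = h i v * la v ^ m := by
      rw [x1]; field_simp
    have y2 : r' * lb' v ^ m' * la v ^ k * h2 i v = h i v * la v ^ m := by
      rw [x2, hmm]; field_simp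
    rw [y1, y2]
  have hne : (A.c a).V.Nonempty := ⟨_, (p_mem (A.c a) 0).1⟩
  have hall := sec_eq (atlas_irr A) hUo (V_open (A.c a)) hne SA SB hag
  have he0U : e0 ∈ U := ⟨⟨hi, he0, hb0⟩, he0, hb0'⟩
  have hfin := hall e0 he0U
  have hz : la e0 = 0 := ha0
  rw [hz, zero_pow hk0, mul_zero, zero_mul] at hfin
  have h1ne : h1 i e0 ≠ 0 := H1.2.1 i e0 ⟨hi, he0, hb0⟩
  exact (mul_ne_zero (mul_ne_zero hr (zpow_ne_zero _ (hUb e0 he0U))) h1ne) hfin

theorem expo_eq {ι : Type} [Fintype ι] {X : Set (ι → ℂ)} {n D : ℕ} (A : Atlas X n D)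
    (L : LineBundle X) {a b b' : A.K} (hb : A.good a b) (hb' : A.good a b')
    {h h1 h2 : L.I → (ι → ℂ) → ℂ} (H : Triv (A.c a) L h) (H1 : Triv (A.c b) L h1)
    (H2 : Triv (A.c b') L h2) {r r' : ℂ} {m m' : ℤ} (hr : r ≠ 0) (hr' : r' ≠ 0)
    (E : Rat L (A.c a) (A.c b) h h1 r m) (E' : Rat L (A.c a) (A.c b') h h2 r' m') : m = m' := by
  apply le_antisymm
  · exact expo_le19 A L (A.expo a b b' hb hb') H1 H2 hr E E'
  · exact expo_le19 A L (A.expo a b' b hb' hb) H2 H1 hr' E' E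

end Fano612
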