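import Pool.Agent.Helper612.Fano.Defs

set_option autoImplicit false
set_option linter.unusedVariables false
set_option linter.unusedSectionVars false

open MvPolynomial

namespace Fano612



theorem lin_prime_expand {n : ℕ} (l : (Fin (n + 1) → ℂ) →ₗ[ℂ] ℂ) (x : Fin (n + 1) → ℂ) :
    l x = x 0 * l (Pi.single 0 1) + ∑ b : Fin n, x b.succ * l (Pi.single b.succ 1) := by
  have h := LinearMap.pi_apply_eq_sum_univ l x
  rw [Fin.sum_univ_succ] at h
  have h2 : ∀ i : Fin (n + 1), (fun j : Fin (n + 1) => if i = j then (1:ℂ) else 0)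
      = Pi.single i 1 := by
    intro i
    ext j
    by_cases hij : i = j
    · subst hij; simp
    · simp [hij, Pi.single_apply, Ne.symm hij]
  simp only [h2, smul_eq_mul] at h
  exact h

theorem lin_prime_coeff {n : ℕ} (c : ℂ) (a : Fin n → ℂ) (b : Fin n) :
    coeff (Finsupp.single b 1) (C c + ∑ b : Fin n, C (a b) * X b : MvPolynomial (Fin n) ℂ)
      = a b := by
  classical
  rw [coeff_add, coeff_sum, coeff_C, if_neg, zero_add, Finset.sum_eq_single b]
  · rw [coeff_C_mul, coeff_X, if_pos rfl, mul_one]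
  · intro b' _ hb'
    rw [coeff_C_mul, coeff_X, if_neg, mul_zero]
    rwa [Finsupp.single_left_inj one_ne_zero]
  · intro hb
    exact absurd (Finset.mem_univ b) hb
  · intro h0
    have := DFunLike.congr_fun h0 b
    simp at this

theorem lin_prime_deg {n : ℕ} (c : ℂ) (a : Fin n → ℂ) (b : Fin n) (hb : a b ≠ 0) :
    (C c + ∑ b : Fin n, C (a b) * X b : MvPolynomial (Fin n) ℂ).totalDegree = 1 := by
  apply le_antisymm
  · refine (totalDegree_add _ _).trans (max_le ?_ ?_)
    · rw [totalDegree_C]; exact zero_le_one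
    · refine (totalDegree_finsetSum _ _).trans ?_
      apply Finset.sup_le
      intro b _
      refine (totalDegree_mul _ _).trans ?_
      rw [totalDegree_C, totalDegree_X]
  · have h1 : Finsupp.single b 1 ∈
        (C c + ∑ b : Fin n, C (a b) * X b : MvPolynomial (Fin n) ℂ).support := by
      rw [mem_support_iff, lin_prime_coeff]
      exact hb
    have h2 := le_totalDegree h1
    rwa [Finsupp.sum_single_index rfl] at h2

theorem lin_prime {n : ℕ} (l : (Fin (n + 1) → ℂ) →ₗ[ℂ] ℂ) (hl : ∃ x, x 0 = 0 ∧ l x ≠ 0) :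
    ∃ p : MvPolynomial (Fin n) ℂ, Prime p ∧ ∀ t, eval t p = l (Fin.cons 1 t) := by
  obtain ⟨x, hx0, hx⟩ := hl
  rw [lin_prime_expand, hx0, zero_mul, zero_add] at hx
  obtain ⟨b, -, hb⟩ := Finset.exists_ne_zero_of_sum_ne_zero hx
  have hb' : l (Pi.single b.succ 1) ≠ 0 := right_ne_zero_of_mul hb
  refine ⟨C (l (Pi.single 0 1)) + ∑ b : Fin n, C (l (Pi.single b.succ 1)) * X b, ?_, ?_⟩
  · have hdeg := lin_prime_deg (l (Pi.single 0 1)) (fun b : Fin n => l (Pi.single b.succ 1)) b hb'
    apply Irreducible.prime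
    apply irreducible_of_totalDegree_eq_one hdeg
    intro y hy
    have h1 := hy (Finsupp.single b 1)
    rw [lin_prime_coeff (l (Pi.single 0 1)) (fun b : Fin n => l (Pi.single b.succ 1)) b] at h1
    rw [isUnit_iff_ne_zero]
    intro hy0
    rw [hy0, zero_dvd_iff] at h1
    exact hb' h1
  · intro t
    rw [lin_prime_expand l (Fin.cons 1 t)]
    simp only [map_add, eval_C, map_sum, map_mul, eval_X, Fin.cons_zero, Fin.cons_succ, one_mul]
    congr 1
    exact Finset.sum_congr rfl fun b _ => mul_comm _ _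

end Fano612
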