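import Pool.Agent.Helper612.Fano.Defs
import Pool.Agent.Helper612.Fano.P_null_prime
import Pool.Agent.Helper612.Fano.P_aopen_inter
import Pool.Agent.Helper612.Fano.P_aopen_meet
import Pool.Agent.Helper612.Fano.P_poly_eq_open
import Pool.Agent.Helper612.Fano.P_areg_fraction

set_option autoImplicit false
set_option linter.unusedVariables false
set_option linter.unusedSectionVars false

open MvPolynomial

namespace Fano612



theorem ua_pow {n : ℕ} {π : MvPolynomial (Fin n) ℂ} (hπ : Prime π) (r : MvPolynomial (Fin n) ℂ) :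
    (∀ t, eval t π ≠ 0 → eval t r ≠ 0) → ∃ (c : ℂ) (k : ℕ), c ≠ 0 ∧ r = C c * π ^ k := by
  have hne : ∃ t, eval t π ≠ 0 := by
    by_contra hc
    push Not at hc
    apply hπ.ne_zero
    apply MvPolynomial.funext
    intro t
    rw [hc t, map_zero]
  have hunit : ∀ x : MvPolynomial (Fin n) ℂ, IsUnit x → ∃ c : ℂ, c ≠ 0 ∧ x = C c := by
    intro x hx
    obtain ⟨c, hc, hxc⟩ := MvPolynomial.isUnit_iff_eq_C_of_isReduced.1 hx
    exact ⟨c, hc.ne_zero, hxc⟩
  refine UniqueFactorizationMonoid.induction_on_prime r ?_ ?_ ?_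
  · intro h
    obtain ⟨t, ht⟩ := hne
    exact absurd (map_zero _) (h t ht)
  · intro x hx _
    obtain ⟨c, hc, hxc⟩ := hunit x hx
    exact ⟨c, 0, hc, by rw [pow_zero, mul_one, hxc]⟩
  · intro a p ha hp ih h
    obtain ⟨c, k, hc, hak⟩ := ih (fun t ht h0 => h t ht (by rw [map_mul, h0, mul_zero]))
    have hdvd : p ∣ π := null_prime hp (fun t ht => by
      by_contra hne'
      exact h t hne' (by rw [map_mul, ht, zero_mul]))
    have hass : Associated p π := hp.irreducible.associated_of_dvd hπ.irreducible hdvd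
    obtain ⟨u, hu⟩ := hass.symm
    obtain ⟨d, hd, hud⟩ := hunit u u.isUnit
    refine ⟨d * c, k + 1, mul_ne_zero hd hc, ?_⟩
    rw [← hu, hud, hak, C_mul, pow_succ]
    ring

theorem unit_affine {n : ℕ} {π : MvPolynomial (Fin n) ℂ} (hπ : Prime π)
    {f : (Fin n → ℂ) → ℂ} (hf : AReg {t | eval t π ≠ 0} f) (h0 : ∀ t, eval t π ≠ 0 → f t ≠ 0) :
    ∃ (a : ℂ) (m : ℤ), a ≠ 0 ∧ ∀ t, eval t π ≠ 0 → f t = a * eval t π ^ m := by
  have hne : ∃ t, eval t π ≠ 0 := by
    by_contra hc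
    push Not at hc
    apply hπ.ne_zero
    apply MvPolynomial.funext
    intro t
    rw [hc t, map_zero]
  have hO : AOpen {t : Fin n → ℂ | eval t π ≠ 0} := fun t ht => ⟨π, ht, fun t' ht' => ht'⟩
  obtain ⟨p, q, -, hpq⟩ := areg_fraction hO hne hf
  obtain ⟨c, k, hc, hck⟩ := ua_pow hπ q (fun t ht => (hpq t ht).1)
  obtain ⟨d, l, hd, hdl⟩ := ua_pow hπ p (fun t ht h => by
    apply h0 t ht
    rw [(hpq t ht).2, h, zero_div])
  refine ⟨d / c, (l : ℤ) - (k : ℤ), div_ne_zero hd hc, fun t ht => ?_⟩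
  rw [(hpq t ht).2, hck, hdl, zpow_sub₀ ht, zpow_natCast, zpow_natCast]
  simp only [map_mul, map_pow, eval_C]
  rw [mul_div_mul_comm]

end Fano612
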