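import Pool.Agent.Helper612.Fano.Defs
import Pool.Agent.Helper612.Fano.P_sec_smul
import Pool.Agent.Helper612.Fano.P_zopen_inter
import Pool.Agent.Helper612.Fano.P_aopen_inter
import Pool.Agent.Helper612.Fano.P_lin_prime
import Pool.Agent.Helper612.Fano.P_unit_affine
import Pool.Agent.Helper612.Fano.P_eval_hom
import Pool.Agent.Helper612.Fano.P_p_mem
import Pool.Agent.Helper612.Fano.P_p_t
import Pool.Agent.Helper612.Fano.P_atlas_smul
import Pool.Agent.Helper612.Fano.P_V_open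
import Pool.Agent.Helper612.Fano.P_chart_aopen
import Pool.Agent.Helper612.Fano.P_chart_areg

set_option autoImplicit false
set_option linter.unusedVariables false
set_option linter.unusedSectionVars false

open MvPolynomial

namespace Fano612



theorem good_ratio_scale {ι : Type} [Fintype ι] {X : Set (ι → ℂ)} {n D : ℕ} (A : Atlas X n D)
    {U : Set (ι → ℂ)} (hU : ZOpen X U) {e : ι → ℂ} (he : e ∈ U) {s : ℂ} (hs : s ≠ 0) :
    s • e ∈ U := by
  obtain ⟨F, ⟨d, hF⟩, h1, h2⟩ := hU.2 e he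
  refine h2 _ (atlas_smul A e (hU.1 he) s hs) ?_
  rw [eval_hom hF]
  exact mul_ne_zero (pow_ne_zero _ hs) h1

theorem good_ratio {ι : Type} [Fintype ι] {X : Set (ι → ℂ)} {n D : ℕ} (A : Atlas X n D)
    (L : LineBundle X) {a b : A.K} (hg : A.good a b) {h h' : L.I → (ι → ℂ) → ℂ}
    (H : Triv (A.c a) L h) (H' : Triv (A.c b) L h') :
    ∃ (r : ℂ) (m : ℤ), r ≠ 0 ∧ Rat L (A.c a) (A.c b) h h' r m := by
  classical
  obtain ⟨l, hl, hx⟩ := A.lin a b hg
  obtain ⟨π, hπ, hπl⟩ := lin_prime l hx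
  have hpm := fun t => p_mem (A.c a) t
  have hpX : ∀ t, (A.c a).p t ∈ X := fun t => (hpm t).1.1
  have hκb : ∀ t, (A.c b).κ ((A.c a).p t) 0 = eval t π := by
    intro t
    rw [hl _ (hpX t), (hpm t).2.1, hπl]
  have hVb : ∀ t, eval t π ≠ 0 → (A.c a).p t ∈ (A.c b).V := by
    intro t ht
    exact ⟨hpX t, by rw [hκb]; exact ht⟩
  have hcov : ∀ t, ∃ i, (A.c a).p t ∈ L.U i := fun t => L.cover _ (hpX t)
  choose ix hix using hcov
  -- independence of the index
  have hind : ∀ t, eval t π ≠ 0 → ∀ i j, (A.c a).p t ∈ L.U i → (A.c a).p t ∈ L.U j →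
      h i ((A.c a).p t) / h' i ((A.c a).p t) = h j ((A.c a).p t) / h' j ((A.c a).p t) := by
    intro t ht i j hi hj
    have e1 := H.2.2 i j _ ⟨⟨hi, hj⟩, (hpm t).1⟩
    have e2 := H'.2.2 i j _ ⟨⟨hi, hj⟩, hVb t ht⟩
    have e3 := L.ne_zero i j _ ⟨hi, hj⟩
    rw [e1, e2, mul_div_mul_left _ _ e3]
  let f : (Fin n → ℂ) → ℂ := fun t => h (ix t) ((A.c a).p t) / h' (ix t) ((A.c a).p t)
  have hf0 : ∀ t, eval t π ≠ 0 → f t ≠ 0 := by
    intro t ht
    exact div_ne_zero (H.2.1 _ _ ⟨hix t, (hpm t).1⟩) (H'.2.1 _ _ ⟨hix t, hVb t ht⟩)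
  have hfr : AReg {t | eval t π ≠ 0} f := by
    intro t ht
    have ht' : eval t π ≠ 0 := ht
    obtain ⟨p1, q1, hq1, h1⟩ := chart_areg (A.c a) (H.1 (ix t)) t ⟨hix t, (hpm t).1⟩
    obtain ⟨p2, q2, hq2, h2⟩ := chart_areg (A.c a) (H'.1 (ix t)) t ⟨hix t, hVb t ht'⟩
    obtain ⟨s, hs, h3⟩ := chart_aopen (A.c a) (L.isOpen (ix t)) t (hix t)
    have hp2 : eval t p2 ≠ 0 := by
      have e1 : h' (ix t) ((A.c a).p t) = eval t p2 / eval t q2 := h2 t ⟨hix t, hVb t ht'⟩ hq2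
      have e2 := H'.2.1 _ _ ⟨hix t, hVb t ht'⟩
      intro e3
      apply e2
      rw [e1, e3, zero_div]
    refine ⟨p1 * q2 * s * q2, q1 * p2 * s * q2, ?_, ?_⟩
    · simp only [map_mul]
      exact mul_ne_zero (mul_ne_zero (mul_ne_zero hq1 hp2) hs) hq2
    · intro t' ht1 hq
      simp only [map_mul] at hq
      have hq2' : eval t' q2 ≠ 0 := right_ne_zero_of_mul hq
      have hq' := left_ne_zero_of_mul hq
      have hs' : eval t' s ≠ 0 := right_ne_zero_of_mul hq'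
      have hq'' := left_ne_zero_of_mul hq'
      have hp2' : eval t' p2 ≠ 0 := right_ne_zero_of_mul hq''
      have hq1' : eval t' q1 ≠ 0 := left_ne_zero_of_mul hq''
      have hU' := h3 t' hs'
      have e1 : h (ix t) ((A.c a).p t') = eval t' p1 / eval t' q1 := h1 t' ⟨hU', (hpm t').1⟩ hq1'
      have e2 : h' (ix t) ((A.c a).p t') = eval t' p2 / eval t' q2 := h2 t' ⟨hU', hVb t' ht1⟩ hq2'
      have e3 := hind t' ht1 (ix t') (ix t) (hix t') hU'
      change h (ix t') ((A.c a).p t') / h' (ix t') ((A.c a).p t') = _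
      rw [e3, e1, e2]
      simp only [map_mul]
      field_simp
  obtain ⟨r, m, hr, hrm⟩ := unit_affine hπ hfr hf0
  refine ⟨r, m, hr, ?_⟩
  intro i e hei hea heb
  have hs : (A.c a).κ e 0 ≠ 0 := hea.2
  have hpt := p_t (A.c a) hea
  set t := (A.c a).t e with htdef
  set s := (A.c a).κ e 0 with hsdef
  have hpe : (A.c a).p t = s⁻¹ • e := by
    rw [hpt, smul_smul, inv_mul_cancel₀ hs, one_smul]
  have hpU : (A.c a).p t ∈ L.U i := by
    rw [hpe]
    exact good_ratio_scale A (L.isOpen i) hei (inv_ne_zero hs)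
  have hπt : eval t π = (A.c b).κ e 0 / s := by
    rw [← hκb, hpe, map_smul, Pi.smul_apply, smul_eq_mul, div_eq_inv_mul]
  have hπ0 : eval t π ≠ 0 := by
    rw [hπt]
    exact div_ne_zero heb.2 hs
  have e1 : h i e = h i ((A.c a).p t) := by
    have := sec_smul (H.1 i) hs (v := (A.c a).p t) ⟨hpU, (hpm t).1⟩
      (by rw [← hpt]; exact ⟨hei, hea⟩)
    rw [← hpt, zpow_zero, one_mul] at this
    exact this
  have e2 : h' i e = h' i ((A.c a).p t) := by
    have := sec_smul (H'.1 i) hs (v := (A.c a).p t) ⟨hpU, hVb t hπ0⟩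
      (by rw [← hpt]; exact ⟨hei, heb⟩)
    rw [← hpt, zpow_zero, one_mul] at this
    exact this
  have e3 : h i ((A.c a).p t) / h' i ((A.c a).p t) = r * eval t π ^ m := by
    rw [← hrm t hπ0]
    exact hind t hπ0 i (ix t) hpU (hix t)
  have e4 : h' i ((A.c a).p t) ≠ 0 := H'.2.1 _ _ ⟨hpU, hVb t hπ0⟩
  rw [e1, e2, ← hπt, ← e3, div_mul_cancel₀ _ e4]

end Fano612
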