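import Pool.Agent.Helper612.Fano.Defs
import Pool.Agent.Helper612.Fano.P_good_ratio
import Pool.Agent.Helper612.Fano.P_expo_eq

set_option autoImplicit false
set_option linter.unusedVariables false
set_option linter.unusedSectionVars false

open MvPolynomial

namespace Fano612



theorem rat_symm' {ι : Type} [Fintype ι] {X : Set (ι → ℂ)} {n D : ℕ} (L : LineBundle X)
    {c c' : Chart X n D} {h h' : L.I → (ι → ℂ) → ℂ} {r : ℂ} {m : ℤ} (hr : r ≠ 0)
    (E : Rat L c c' h h' r m) : Rat L c' c h' h r⁻¹ m := by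
  intro i e he he' hec
  have h1 : c.κ e 0 ≠ 0 := hec.2
  have h2 : c'.κ e 0 ≠ 0 := he'.2
  rw [E i e he hec he']
  have h3 : (c.κ e 0 / c'.κ e 0) ^ m = ((c'.κ e 0 / c.κ e 0) ^ m)⁻¹ := by
    rw [← inv_zpow, inv_div]
  rw [h3]
  have h4 : (c'.κ e 0 / c.κ e 0) ^ m ≠ 0 := zpow_ne_zero _ (div_ne_zero h2 h1)
  generalize (c'.κ e 0 / c.κ e 0) ^ m = w at *
  field_simp

theorem common_expo {ι : Type} [Fintype ι] {X : Set (ι → ℂ)} {n D : ℕ} (A : Atlas X n D)
    (L : LineBundle X) (h : A.K → L.I → (ι → ℂ) → ℂ) (H : ∀ a, Triv (A.c a) L (h a)) :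
    ∃ m : ℤ, ∀ a b, A.good a b → ∃ r : ℂ, r ≠ 0 ∧ Rat L (A.c a) (A.c b) (h a) (h b) r m := by
  obtain ⟨a0, b0, g0⟩ := A.edge
  obtain ⟨r0, m, hr0, E0⟩ := good_ratio A L g0 (H a0) (H b0)
  refine ⟨m, fun a => ?_⟩
  have key : ∀ x, Relation.ReflTransGen A.good a0 x → ∀ b, A.good x b →
      ∃ r : ℂ, r ≠ 0 ∧ Rat L (A.c x) (A.c b) (h x) (h b) r m := by
    intro x hx
    induction hx with
    | refl =>
      intro b hb
      obtain ⟨r', m', hr', E'⟩ := good_ratio A L hb (H a0) (H b)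
      have hm := expo_eq A L g0 hb (H a0) (H b0) (H b) hr0 hr' E0 E'
      subst hm
      exact ⟨r', hr', E'⟩
    | tail _ hyz ih =>
      intro b hb
      obtain ⟨r, hr, E⟩ := ih _ hyz
      obtain ⟨r', m', hr', E'⟩ := good_ratio A L hb (H _) (H b)
      have hm := expo_eq A L (A.symm _ _ hyz) hb (H _) (H _) (H b) (inv_ne_zero hr) hr'
        (rat_symm' L hr E) E'
      subst hm
      exact ⟨r', hr', E'⟩
  exact key a (A.conn a0 a)

end Fano612
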