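import Pool.Agent.Helper612.Fano.Defs
import Pool.Agent.Helper612.Fano.P_W_map

set_option autoImplicit false
set_option linter.unusedVariables false
set_option linter.unusedSectionVars false

open MvPolynomial

namespace Fano612



theorem line_XX : ∃ B : (Fin 2 → ℂ) →ₗ[ℂ] (Ix → ℂ), ∀ v, v ≠ 0 → B v ∈ XX := by
  obtain ⟨B, _, _, hB⟩ := W_map
  let e : (Fin 2 → ℂ) →ₗ[ℂ] (Fin 3 → ℂ) :=
    { toFun := fun v => ![v 0, v 1, 0]
      map_add' := by
        intro x y
        ext i
        fin_cases i <;> simp
      map_smul' := by
        intro c x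
        ext i
        fin_cases i <;> simp }
  refine ⟨B.comp e, fun v hv => hB _ ?_⟩
  intro h
  apply hv
  have h0 : v 0 = 0 := by
    have := congrFun h 0
    simpa [e] using this
  have h1 : v 1 = 0 := by
    have := congrFun h 1
    simpa [e] using this
  ext i
  fin_cases i
  · exact h0
  · exact h1

end Fano612
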