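import Pool.Agent.Helper612.Fano.Defs

set_option autoImplicit false
set_option linter.unusedVariables false
set_option linter.unusedSectionVars false

open MvPolynomial

namespace Fano612



theorem nov_prime {n : ℕ} (t : Fin n → ℂ) (a : MvPolynomial (Fin n) ℂ) :
    a ≠ 0 → eval t a = 0 → ∃ π, Prime π ∧ π ∣ a ∧ eval t π = 0 := by
  refine UniqueFactorizationMonoid.induction_on_prime a ?_ ?_ ?_
  · intro h; exact absurd rfl h
  · intro u hu _ h
    exact absurd h (hu.map (eval t)).ne_zero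
  · intro a' p' ha' hp' ih _ h
    rw [map_mul] at h
    rcases mul_eq_zero.1 h with h | h
    · exact ⟨p', hp', dvd_mul_right _ _, h⟩
    · obtain ⟨π, h1, h2, h3⟩ := ih ha' h
      exact ⟨π, h1, dvd_mul_of_dvd_right h2 _, h3⟩

theorem nov_aux {n : ℕ} {d a b : MvPolynomial (Fin n) ℂ} (hp : d * a ≠ 0) (hq : d * b ≠ 0)
    (hrel : IsRelPrime a b) {O : Set (Fin n → ℂ)}
    (h : ∀ π, Prime π → (∃ t ∈ O, eval t π = 0) →
      multiplicity π (d * a) = multiplicity π (d * b)) (t : Fin n → ℂ) (ht : t ∈ O) :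
    eval t a ≠ 0 := by
  intro h0
  obtain ⟨π, hπ, hπa, hπt⟩ := nov_prime t a (right_ne_zero_of_mul hp) h0
  have hπb : ¬ π ∣ b := fun hb => hπ.not_unit (hrel hπa hb)
  have h1 := h π hπ ⟨t, ht, hπt⟩
  rw [multiplicity_mul hπ (FiniteMultiplicity.of_not_isUnit hπ.not_unit hp),
    multiplicity_mul hπ (FiniteMultiplicity.of_not_isUnit hπ.not_unit hq),
    multiplicity_eq_zero.2 hπb] at h1
  have h2 : multiplicity π a = 0 := by omega
  exact multiplicity_eq_zero.1 h2 hπa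

theorem nonvanish_of_val {n : ℕ} {p q : MvPolynomial (Fin n) ℂ} (hp : p ≠ 0) (hq : q ≠ 0)
    {O : Set (Fin n → ℂ)}
    (h : ∀ π, Prime π → (∃ t ∈ O, eval t π = 0) → multiplicity π p = multiplicity π q) :
    ∃ a b : MvPolynomial (Fin n) ℂ, (∀ t ∈ O, eval t a ≠ 0) ∧ (∀ t ∈ O, eval t b ≠ 0) ∧
      a * q = b * p := by
  obtain ⟨a, b, d, hrel, rfl, rfl⟩ := UniqueFactorizationMonoid.exists_reduced_factors p hp q
  refine ⟨a, b, fun t ht => nov_aux hp hq hrel h t ht, fun t ht => ?_, by ring⟩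
  exact nov_aux hq hp hrel.symm (fun π h1 h2 => (h π h1 h2).symm) t ht

end Fano612
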