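import Pool.Agent.Helper612.Fano.Defs
import Pool.Agent.Helper612.Fano.P_sec_smul

set_option autoImplicit false
set_option linter.unusedVariables false
set_option linter.unusedSectionVars false

open MvPolynomial

namespace Fano612



theorem p1d_ev (w : Fin 2 → Polynomial ℂ) (F : MvPolynomial (Fin 2) ℂ) (s : ℂ) :
    (MvPolynomial.aeval w F).eval s = MvPolynomial.eval (fun i => (w i).eval s) F := by
  induction F using MvPolynomial.induction_on with
  | C a => simp
  | add p q hp hq => simp [hp, hq]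
  | mul_X p i hp => simp [hp]

theorem p1d_const (a : ℂ → ℂ)
    (h : ∀ t, ∃ p q : Polynomial ℂ, q.eval t ≠ 0 ∧ ∀ s, q.eval s ≠ 0 → a s = p.eval s / q.eval s)
    (h0 : ∀ t, a t ≠ 0) : ∃ c, c ≠ 0 ∧ ∀ t, a t = c := by
  classical
  obtain ⟨p0, q0, hq0, h00⟩ := h 0
  have hq0' : q0 ≠ 0 := by rintro rfl; simp at hq0
  obtain ⟨p, hp⟩ := EuclideanDomain.gcd_dvd_left p0 q0
  obtain ⟨q, hq⟩ := EuclideanDomain.gcd_dvd_right p0 q0
  set d := EuclideanDomain.gcd p0 q0 with hdd
  have hd : d ≠ 0 := by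
    intro h1
    exact hq0' (EuclideanDomain.gcd_eq_zero_iff.mp h1).2
  obtain ⟨u, v, huv⟩ : ∃ u v : Polynomial ℂ, u * p + v * q = 1 := by
    refine ⟨EuclideanDomain.gcdA p0 q0, EuclideanDomain.gcdB p0 q0, ?_⟩
    have h1 := EuclideanDomain.gcd_eq_gcd_ab p0 q0
    rw [← hdd] at h1
    have h2 : d * (EuclideanDomain.gcdA p0 q0 * p + EuclideanDomain.gcdB p0 q0 * q) = d * 1 := by
      calc d * (EuclideanDomain.gcdA p0 q0 * p + EuclideanDomain.gcdB p0 q0 * q)
          = (d * p) * EuclideanDomain.gcdA p0 q0 + (d * q) * EuclideanDomain.gcdB p0 q0 := by ring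
        _ = p0 * EuclideanDomain.gcdA p0 q0 + q0 * EuclideanDomain.gcdB p0 q0 := by
            rw [← hp, ← hq]
        _ = d * 1 := by rw [mul_one]; exact h1.symm
    exact mul_left_cancel₀ hd h2
  have key : ∀ t, q.eval t ≠ 0 ∧ a t = p.eval t / q.eval t := by
    intro t
    obtain ⟨p1, q1, hq1, h11⟩ := h t
    have hq1' : q1 ≠ 0 := by rintro rfl; simp at hq1
    have e1 : (q0 * q1) * (p1 * q0 - p0 * q1) = 0 := by
      apply Polynomial.funext
      intro s
      simp only [Polynomial.eval_mul, Polynomial.eval_sub, Polynomial.eval_zero]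
      by_cases c0 : q0.eval s = 0
      · rw [c0]; ring
      by_cases c1 : q1.eval s = 0
      · rw [c1]; ring
      have h3 := h00 s c0
      have h4 := h11 s c1
      rw [h3] at h4
      field_simp at h4
      have h5 : p1.eval s * q0.eval s - p0.eval s * q1.eval s = 0 := by
        linear_combination -h4
      rw [h5, mul_zero]
    have e2 : p1 * q0 - p0 * q1 = 0 := by
      rcases mul_eq_zero.mp e1 with h5 | h5
      · rcases mul_eq_zero.mp h5 with h6 | h6
        · exact absurd h6 hq0'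
        · exact absurd h6 hq1'
      · exact h5
    have e3 : p1 * q = p * q1 := by
      have : d * (p1 * q) = d * (p * q1) := by
        calc d * (p1 * q) = p1 * (d * q) := by ring
          _ = p1 * q0 := by rw [← hq]
          _ = p0 * q1 := by linear_combination e2
          _ = (d * p) * q1 := by rw [← hp]
          _ = d * (p * q1) := by ring
      exact mul_left_cancel₀ hd this
    have e4 := congrArg (Polynomial.eval t) e3
    simp only [Polynomial.eval_mul] at e4
    have e5 := congrArg (Polynomial.eval t) huv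
    simp only [Polynomial.eval_mul, Polynomial.eval_add, Polynomial.eval_one] at e5
    have hqt : q.eval t ≠ 0 := by
      intro hz
      rw [hz] at e4 e5
      rw [mul_zero] at e4
      have hpz : p.eval t = 0 := by
        rcases mul_eq_zero.mp e4.symm with h6 | h6
        · exact h6
        · exact absurd h6 hq1
      rw [hpz] at e5
      simp at e5
    refine ⟨hqt, ?_⟩
    rw [h11 t hq1]
    field_simp
    linear_combination e4
  have hp0 : ∀ t, p.eval t ≠ 0 := by
    intro t hz
    apply h0 t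
    rw [(key t).2, hz, zero_div]
  have hdeg : ∀ r : Polynomial ℂ, (∀ t, r.eval t ≠ 0) → ∃ c, c ≠ 0 ∧ r = Polynomial.C c := by
    intro r hr
    have hr0 : r.degree ≤ 0 := by
      by_contra hcon
      push_neg at hcon
      obtain ⟨z, hz⟩ := IsAlgClosed.exists_root r (ne_of_gt hcon)
      exact hr z hz
    refine ⟨r.coeff 0, ?_, Polynomial.eq_C_of_degree_le_zero hr0⟩
    intro hz
    apply hr 0
    rw [Polynomial.eq_C_of_degree_le_zero hr0, hz]; simp
  obtain ⟨c1, hc1, hpc⟩ := hdeg p hp0
  obtain ⟨c2, hc2, hqc⟩ := hdeg q (fun t => (key t).1)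
  refine ⟨c1 / c2, div_ne_zero hc1 hc2, fun t => ?_⟩
  rw [(key t).2, hpc, hqc]; simp

theorem p1_degree {e : ℤ} {f : (Fin 2 → ℂ) → ℂ} (H : IsSec {v : Fin 2 → ℂ | v ≠ 0} e f)
    (h0 : ∀ v : Fin 2 → ℂ, v ≠ 0 → f v ≠ 0) : e = 0 := by
  have n1 : ∀ t : ℂ, (![1, t] : Fin 2 → ℂ) ≠ 0 := by
    intro t h
    have := congrFun h 0
    simp at this
  have n2 : ∀ t : ℂ, (![t, 1] : Fin 2 → ℂ) ≠ 0 := by
    intro t h
    have := congrFun h 1
    simp at this
  have c1 : ∃ c, c ≠ 0 ∧ ∀ t, (fun t => f ![1, t]) t = c := by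
    apply p1d_const
    · intro t
      obtain ⟨F, G, p, q, hF, hG, hpq, hv, hw⟩ := H ![1, t] (n1 t)
      refine ⟨MvPolynomial.aeval ![1, Polynomial.X] F, MvPolynomial.aeval ![1, Polynomial.X] G, ?_, ?_⟩
      · rw [p1d_ev]
        have : (fun i => ((![1, Polynomial.X] : Fin 2 → Polynomial ℂ) i).eval t) = ![1, t] := by
          funext i; fin_cases i <;> simp
        rw [this]; exact hv
      · intro s
        have : (fun i => ((![1, Polynomial.X] : Fin 2 → Polynomial ℂ) i).eval s) = ![1, s] := by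
          funext i; fin_cases i <;> simp
        rw [p1d_ev, p1d_ev, this]
        intro hs
        exact hw _ (n1 s) hs
    · intro t; exact h0 _ (n1 t)
  have c2 : ∃ c, c ≠ 0 ∧ ∀ t, (fun t => f ![t, 1]) t = c := by
    apply p1d_const
    · intro t
      obtain ⟨F, G, p, q, hF, hG, hpq, hv, hw⟩ := H ![t, 1] (n2 t)
      refine ⟨MvPolynomial.aeval ![Polynomial.X, 1] F, MvPolynomial.aeval ![Polynomial.X, 1] G, ?_, ?_⟩
      · rw [p1d_ev]
        have : (fun i => ((![Polynomial.X, 1] : Fin 2 → Polynomial ℂ) i).eval t) = ![t, 1] := by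
          funext i; fin_cases i <;> simp
        rw [this]; exact hv
      · intro s
        have : (fun i => ((![Polynomial.X, 1] : Fin 2 → Polynomial ℂ) i).eval s) = ![s, 1] := by
          funext i; fin_cases i <;> simp
        rw [p1d_ev, p1d_ev, this]
        intro hs
        exact hw _ (n2 s) hs
    · intro t; exact h0 _ (n2 t)
  obtain ⟨α, hα, hfα⟩ := c1
  obtain ⟨β, hβ, hfβ⟩ := c2
  simp only at hfα hfβ
  have hom : f ![1, 2] = (2 : ℂ) ^ e * f ![1/2, 1] := by
    have hsm : (![1, 2] : Fin 2 → ℂ) = (2 : ℂ) • ![1/2, 1] := by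
      funext i; fin_cases i <;> simp
    have hin : (2 : ℂ) • (![1/2, 1] : Fin 2 → ℂ) ∈ {v : Fin 2 → ℂ | v ≠ 0} := by
      rw [← hsm]; exact n1 2
    have := sec_smul H (v := ![1/2, 1]) (c := 2) two_ne_zero (n2 _) hin
    rw [← hsm] at this
    exact this
  rw [hfα, hfβ] at hom
  have h11 : α = β := by
    rw [← hfα 1, ← hfβ 1]
  rw [h11] at hom
  have h2e : (2 : ℂ) ^ e = 1 := by
    have : (2 : ℂ) ^ e * β = 1 * β := by rw [← hom, one_mul]
    exact mul_right_cancel₀ hβ this
  have h2r : (2 : ℝ) ^ e = 1 := by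
    have := congrArg norm h2e
    rw [norm_zpow] at this
    simpa using this
  exact (zpow_eq_one_iff_right₀ (by norm_num) (by norm_num)).mp h2r

end Fano612
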