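import Pool.Agent.Helper612.Fano.Defs

set_option autoImplicit false
set_option linter.unusedVariables false
set_option linter.unusedSectionVars false

open MvPolynomial

namespace Fano612



theorem zopen_meet {ι : Type} [Fintype ι] {X U U' : Set (ι → ℂ)} (hX : IsIrr X) (h : ZOpen X U)
    (h' : ZOpen X U') (hn : U.Nonempty) (hn' : U'.Nonempty) : (U ∩ U').Nonempty := by
  obtain ⟨u, hu⟩ := hn
  obtain ⟨u', hu'⟩ := hn'
  obtain ⟨F, hF, hFu, hFU⟩ := h.2 u hu
  obtain ⟨G, hG, hGu, hGU⟩ := h'.2 u' hu'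
  by_contra hcon
  rw [Set.not_nonempty_iff_eq_empty] at hcon
  have key : ∀ v ∈ X, eval v F = 0 ∨ eval v G = 0 := by
    intro v hv
    by_contra hne
    push Not at hne
    have : v ∈ U ∩ U' := ⟨hFU v hv hne.1, hGU v hv hne.2⟩
    rw [hcon] at this
    exact this
  rcases hX.2 F G hF hG key with h1 | h1
  · exact hFu (h1 u (h.1 hu))
  · exact hGu (h1 u' (h'.1 hu'))

end Fano612
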