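import Pool.Agent.Helper612.Fano.Defs
import Pool.Agent.Helper612.Fano.P_sec_mul
import Pool.Agent.Helper612.Fano.P_sec_mono
import Pool.Agent.Helper612.Fano.P_sec_congr
import Pool.Agent.Helper612.Fano.P_sec_zpow
import Pool.Agent.Helper612.Fano.P_sec_const
import Pool.Agent.Helper612.Fano.P_sec_lin
import Pool.Agent.Helper612.Fano.P_zopen_inter
import Pool.Agent.Helper612.Fano.P_sec_local
import Pool.Agent.Helper612.Fano.P_zopen_meet
import Pool.Agent.Helper612.Fano.P_p_mem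
import Pool.Agent.Helper612.Fano.P_atlas_smul
import Pool.Agent.Helper612.Fano.P_V_open
import Pool.Agent.Helper612.Fano.P_atlas_meet
import Pool.Agent.Helper612.Fano.P_atlas_irr
import Pool.Agent.Helper612.Fano.P_chart_triv
import Pool.Agent.Helper612.Fano.P_common_expo
import Pool.Agent.Helper612.Fano.P_all_ratio

set_option autoImplicit false
set_option linter.unusedVariables false
set_option linter.unusedSectionVars false

open MvPolynomial

namespace Fano612



theorem pic_exists {ι : Type} [Fintype ι] {X : Set (ι → ℂ)} {n D : ℕ} (A : Atlas X n D)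
    (L : LineBundle X) : ∃ m : ℤ, L.IsO m := by
  classical
  choose h hT using fun a => chart_triv (A.c a) (atlas_smul A) L
  obtain ⟨m, hm⟩ := common_expo A L h hT
  choose r hr0 hr using all_ratio A L h hT m hm
  obtain ⟨a0, _, _⟩ := A.edge
  -- cocycle relation for the constants
  have hrr : ∀ a b, r a0 a * r a b = r a0 b := by
    intro a b
    have hne1 : ((A.c a0).V ∩ (A.c a).V).Nonempty := by
      obtain ⟨e, he, h1, h2⟩ := atlas_meet A a0 a
      exact ⟨e, ⟨he, h1⟩, ⟨he, h2⟩⟩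
    have hne2 : ((A.c b).V).Nonempty := by
      obtain ⟨e, he, h1, _⟩ := atlas_meet A b b
      exact ⟨e, ⟨he, h1⟩⟩
    obtain ⟨e, ⟨he0, hea⟩, heb⟩ := zopen_meet (atlas_irr A)
      (zopen_inter (V_open (A.c a0)) (V_open (A.c a))) (V_open (A.c b)) hne1 hne2
    obtain ⟨i, hi⟩ := L.cover e he0.1
    have e1 := hr a0 a i e hi he0 hea
    have e2 := hr a b i e hi hea heb
    have e3 := hr a0 b i e hi he0 heb
    have hb0 : h b i e ≠ 0 := (hT b).2.1 i e ⟨hi, heb⟩
    have k0 := he0.2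
    have ka := hea.2
    have kb := heb.2
    rw [e2, e3] at e1
    have hq : ((A.c b).κ e 0 / (A.c a0).κ e 0) ^ m
        = ((A.c a).κ e 0 / (A.c a0).κ e 0) ^ m * ((A.c b).κ e 0 / (A.c a).κ e 0) ^ m := by
      rw [← mul_zpow]
      congr 1
      field_simp
    have hq0 : ((A.c b).κ e 0 / (A.c a0).κ e 0) ^ m ≠ 0 := zpow_ne_zero _ (div_ne_zero kb k0)
    have e4 : r a0 b * (((A.c b).κ e 0 / (A.c a0).κ e 0) ^ m * h b i e)
        = (r a0 a * r a b) * (((A.c b).κ e 0 / (A.c a0).κ e 0) ^ m * h b i e) := by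
      calc r a0 b * (((A.c b).κ e 0 / (A.c a0).κ e 0) ^ m * h b i e)
          = r a0 b * ((A.c b).κ e 0 / (A.c a0).κ e 0) ^ m * h b i e := by ring
        _ = _ := e1
        _ = _ := by rw [hq]; ring
    exact (mul_right_cancel₀ (mul_ne_zero hq0 hb0) e4).symm
  let G : A.K → L.I → (ι → ℂ) → ℂ := fun a i e => r a0 a * ((A.c a).κ e 0) ^ m * h a i e
  have hG : ∀ a i e, G a i e = r a0 a * ((A.c a).κ e 0) ^ m * h a i e := fun _ _ _ => rfl
  have hGG : ∀ a b i e, e ∈ L.U i → e ∈ (A.c a).V → e ∈ (A.c b).V → G a i e = G b i e := by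
    intro a b i e hi hea heb
    rw [hG, hG, hr a b i e hi hea heb, ← hrr a b]
    have ka := hea.2
    have hq : ((A.c b).κ e 0) ^ m = ((A.c a).κ e 0) ^ m * ((A.c b).κ e 0 / (A.c a).κ e 0) ^ m := by
      rw [← mul_zpow]
      congr 1
      field_simp
    rw [hq]
    ring
  have hex : ∀ e ∈ X, ∃ a, e ∈ (A.c a).V := by
    intro e he
    obtain ⟨a, ha⟩ := A.cover e he
    exact ⟨a, he, ha⟩
  let H : L.I → (ι → ℂ) → ℂ := fun i e =>
    if hx : ∃ a, e ∈ (A.c a).V then G hx.choose i e else 1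
  have hH : ∀ a i e, e ∈ L.U i → e ∈ (A.c a).V → H i e = G a i e := by
    intro a i e hi hea
    have hx : ∃ a, e ∈ (A.c a).V := ⟨a, hea⟩
    have h1 : H i e = G hx.choose i e := dif_pos hx
    rw [h1]
    exact hGG _ _ _ _ hi hx.choose_spec hea
  refine ⟨-m, H, ?_, ?_, ?_⟩
  · intro i
    rw [neg_neg]
    apply sec_local (L.isOpen i).1
    intro v hv
    obtain ⟨a, ha⟩ := hex v ((L.isOpen i).1 hv)
    refine ⟨(A.c a).V, V_open _, ha, ?_⟩
    have h1 : IsSec (L.U i ∩ (A.c a).V) (m * 1) (fun v => ((A.c a).κ v 0) ^ m) := by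
      refine sec_zpow (h := fun v => (A.c a).κ v 0) ?_ ?_ m
      · exact sec_lin _ ((LinearMap.proj (0 : Fin (n + 1))).comp (A.c a).κ)
      · intro v hv
        exact hv.2.2
    have h2 := sec_mul (sec_mul (sec_const (L.U i ∩ (A.c a).V) (r a0 a)) h1) ((hT a).1 i)
    have h3 : (0 + m * 1 + 0 : ℤ) = m := by ring
    rw [h3] at h2
    refine sec_congr h2 ?_
    intro v hv
    exact hH a i v hv.1 hv.2
  · intro i v hv
    obtain ⟨a, ha⟩ := hex v ((L.isOpen i).1 hv)
    rw [hH a i v hv ha, hG]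
    exact mul_ne_zero (mul_ne_zero (hr0 _ _) (zpow_ne_zero _ ha.2)) ((hT a).2.1 i v ⟨hv, ha⟩)
  · intro i j v hv
    obtain ⟨a, ha⟩ := hex v ((L.isOpen i).1 hv.1)
    rw [hH a i v hv.1 ha, hH a j v hv.2 ha, hG, hG, (hT a).2.2 i j v ⟨hv, ha⟩]
    ring

end Fano612
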