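import Pool.Agent.Helper612.Fano.Defs
import Pool.Agent.Helper612.Fano.P_sec_mul
import Pool.Agent.Helper612.Fano.P_sec_inv
import Pool.Agent.Helper612.Fano.P_sec_mono
import Pool.Agent.Helper612.Fano.P_sec_congr
import Pool.Agent.Helper612.Fano.P_sec_comp
import Pool.Agent.Helper612.Fano.P_sec_local
import Pool.Agent.Helper612.Fano.P_p1_degree
import Pool.Agent.Helper612.Fano.P_comp_lin

set_option autoImplicit false
set_option linter.unusedVariables false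
set_option linter.unusedSectionVars false

open MvPolynomial

namespace Fano612



theorem pic_unique {ι : Type} [Fintype ι] {X : Set (ι → ℂ)}
    (hl : ∃ B : (Fin 2 → ℂ) →ₗ[ℂ] (ι → ℂ), ∀ v, v ≠ 0 → B v ∈ X) (L : LineBundle X) {m m' : ℤ}
    (h : L.IsO m) (h' : L.IsO m') : m = m' := by
  obtain ⟨B, hB⟩ := hl
  obtain ⟨a, a1, a2, a3⟩ := h
  obtain ⟨b, b1, b2, b3⟩ := h'
  have hone : (fun _ => 1 : Fin 2 → ℂ) ≠ 0 := by
    intro h0
    have := congrFun h0 0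
    simp at this
  obtain ⟨i0, -⟩ := L.cover _ (hB _ hone)
  have hex : ∀ v : Fin 2 → ℂ, ∃ i : L.I, v ≠ 0 → B v ∈ L.U i := by
    intro v
    by_cases hv : v = 0
    · exact ⟨i0, fun h => absurd hv h⟩
    · obtain ⟨i, hi⟩ := L.cover _ (hB v hv)
      exact ⟨i, fun _ => hi⟩
  choose ix hix using hex
  have hind : ∀ v : Fin 2 → ℂ, v ≠ 0 → ∀ i, B v ∈ L.U i →
      a (ix v) (B v) * (b (ix v) (B v))⁻¹ = a i (B v) * (b i (B v))⁻¹ := by
    intro v hv i hi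
    have e1 := a3 (ix v) i (B v) ⟨hix v hv, hi⟩
    have e2 := b3 (ix v) i (B v) ⟨hix v hv, hi⟩
    have e3 := L.ne_zero (ix v) i (B v) ⟨hix v hv, hi⟩
    have e4 := b2 i (B v) hi
    rw [e1, e2]
    field_simp
  have hsec : IsSec {v : Fin 2 → ℂ | v ≠ 0} (m' - m)
      (fun v => a (ix v) (B v) * (b (ix v) (B v))⁻¹) := by
    refine sec_local (X := {v : Fin 2 → ℂ | v ≠ 0}) Set.Subset.rfl fun v hv => ?_
    refine ⟨{w | w ≠ 0 ∧ B w ∈ L.U (ix v)}, ⟨fun w hw => hw.1, fun w hw => ?_⟩,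
      ⟨hv, hix v hv⟩, ?_⟩
    · obtain ⟨F, ⟨d, hF⟩, hF1, hF2⟩ := (L.isOpen (ix v)).2 (B w) hw.2
      obtain ⟨G, hG, hG2⟩ := comp_lin B hF
      refine ⟨G, ⟨d, hG⟩, ?_, fun w' hw' hw2 => ⟨hw', ?_⟩⟩
      · rw [hG2]; exact hF1
      · rw [hG2] at hw2
        exact hF2 _ (hB w' hw') hw2
    · have h1 := sec_comp (sec_mul (a1 (ix v)) (sec_inv (b1 (ix v)) (b2 (ix v)))) B
        (U' := {v : Fin 2 → ℂ | v ≠ 0} ∩ {w | w ≠ 0 ∧ B w ∈ L.U (ix v)})
        (fun w hw => hw.2.2)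
      have e : -m + - -m' = m' - m := by ring
      rw [e] at h1
      exact sec_congr h1 fun w hw => hind w hw.1 (ix v) hw.2.2
  have h0 := p1_degree hsec fun v hv =>
    mul_ne_zero (a2 _ _ (hix v hv)) (inv_ne_zero (b2 _ _ (hix v hv)))
  omega

end Fano612
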