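import Pool.Agent.Helper612.Fano.Defs
import Pool.Agent.Helper612.Fano.P_cub_Phi

set_option autoImplicit false
set_option linter.unusedVariables false
set_option linter.unusedSectionVars false

open MvPolynomial

namespace Fano612



theorem sg_aux (x y p q s : ℂ) (h1 : x = 0 ∨ s = 0) (h2 : y = 0 ∨ p = 0)
    (h3 : (x + y) * (p + s - q) = 0) (h4 : (x - y) * (p + q + s) = 0)
    (h5 : ¬ (p = 0 ∧ q = 0 ∧ s = 0)) : x = 0 ∧ y = 0 := by
  by_cases hx : x = 0
  · refine ⟨hx, ?_⟩
    by_contra hy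
    have hp := h2.resolve_left hy
    subst hx hp
    have e3 := (mul_eq_zero.1 h3).resolve_left (by simpa using hy)
    have e4 := (mul_eq_zero.1 h4).resolve_left (by simpa using hy)
    exact h5 ⟨rfl, by linear_combination (e4 - e3) / 2, by linear_combination (e4 + e3) / 2⟩
  · exfalso
    have hs := h1.resolve_left hx
    subst hs
    by_cases hy : y = 0
    · subst hy
      have e3 := (mul_eq_zero.1 h3).resolve_left (by simpa using hx)
      have e4 := (mul_eq_zero.1 h4).resolve_left (by simpa using hx)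
      exact h5 ⟨by linear_combination (e4 + e3) / 2, by linear_combination (e4 - e3) / 2, rfl⟩
    · have hp := h2.resolve_left hy
      subst hp
      have hq : q ≠ 0 := fun hq => h5 ⟨rfl, hq, rfl⟩
      have e3 := (mul_eq_zero.1 h3).resolve_right (by simpa using hq)
      have e4 := (mul_eq_zero.1 h4).resolve_right (by simpa using hq)
      exact hx (by linear_combination (e3 + e4) / 2)

theorem cub_add_aux (b : Bool) (e f : Ix → ℂ) (u : Fin 3 → ℂ) :
    cub b (e + f) u = cub b e u + cub b f u := by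
  unfold cub
  simp only [Pi.add_apply, add_mul, Finset.sum_add_distrib]

theorem cub_smul_aux (b : Bool) (r : ℂ) (e : Ix → ℂ) (u : Fin 3 → ℂ) :
    cub b (r • e) u = r * cub b e u := by
  unfold cub
  simp only [Pi.smul_apply, smul_eq_mul, Finset.mul_sum, mul_assoc]

theorem sg_indep {z : Fin 3 → ℂ} (hz : z ≠ 0) (c : Fin 4 → ℂ) (z' : Fin 3 → ℂ)
    (h : ∑ a, c a • sg (Mb a) z = Phi hh (qq z')) : c = 0 := by
  rw [Fin.sum_univ_four] at h
  have key : ∀ (b : Bool) (u : Fin 3 → ℂ), c 0 * cub b (sg (Mb 0) z) u + c 1 * cub b (sg (Mb 1) z) u +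
      c 2 * cub b (sg (Mb 2) z) u + c 3 * cub b (sg (Mb 3) z) u = cub b (Phi hh (qq z')) u := by
    intro b u
    rw [← h]
    simp only [cub_add_aux, cub_smul_aux]
  have kf : ∀ (u : Fin 3 → ℂ), _ := fun u => key false u
  have kt : ∀ (u : Fin 3 → ℂ), _ := fun u => key true u
  simp only [sg, cub_add_aux, (cub_Phi _ _ _).1] at kf
  simp only [sg, cub_add_aux, (cub_Phi _ _ _).2] at kt
  have f1 := kf ![0, 1, 0]
  have f2 := kf ![0, 0, 1]
  have f3 := kf ![0, 1, 1]
  have f4 := kf ![0, 1, -1]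
  have t1 := kt ![0, 1, 0]
  have t2 := kt ![0, 0, 1]
  have t3 := kt ![0, 1, 1]
  have t4 := kt ![0, 1, -1]
  simp [Mb, hh, qq, det3, Matrix.mulVec, Matrix.mul_apply, dotProduct, Fin.sum_univ_three, Matrix.vecHead, Matrix.vecTail] at f1 f2 f3 f4 t1 t2 t3 t4
  have hz' : ¬ (z 0 = 0 ∧ z 1 = 0 ∧ z 2 = 0) := by
    rintro ⟨h0, h1, h2⟩
    apply hz
    funext i
    fin_cases i
    · exact h0
    · exact h1
    · exact h2
  obtain ⟨e0, e1⟩ := sg_aux (c 0) (c 1) (-z 1) (-z 0) (z 2) f1 (f2.imp id neg_eq_zero.2)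
    (by linear_combination -f3) (by linear_combination -f4)
    (fun hh => hz' ⟨neg_eq_zero.1 hh.2.1, neg_eq_zero.1 hh.1, hh.2.2⟩)
  obtain ⟨e2, e3⟩ := sg_aux (c 2) (c 3) (-z 2) (-z 0) (z 1) t1 (t2.imp id neg_eq_zero.2)
    (by linear_combination t3) (by linear_combination t4)
    (fun hh => hz' ⟨neg_eq_zero.1 hh.2.1, hh.2.2, neg_eq_zero.1 hh.1⟩)
  funext i
  fin_cases i
  · exact e0
  · exact e1
  · exact e2
  · exact e3

end Fano612
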