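import Pool.Agent.Helper612.Fano.Defs
import Pool.Agent.Helper612.Fano.P_Phi_bil

set_option autoImplicit false
set_option linter.unusedVariables false
set_option linter.unusedSectionVars false

open MvPolynomial

namespace Fano612



theorem Phi_add' (P Q Q' : M3) : Phi P (Q + Q') = Phi P Q + Phi P Q' := by
  have h := (Phi_bil P P Q Q' 1).2
  rw [one_smul, one_smul] at h
  exact h

theorem Phi_zero' (P : M3) : Phi P 0 = 0 := by
  have h := Phi_add' P 0 0
  rw [add_zero] at h
  exact left_eq_add.mp h

theorem Phi_smul' (P Q : M3) (r : ℂ) : Phi P (r • Q) = r • Phi P Q := by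
  have h := (Phi_bil P P 0 Q r).2
  rw [zero_add, Phi_zero', zero_add] at h
  exact h

theorem qq_add' (z w : Fin 3 → ℂ) : qq (z + w) = qq z + qq w := by
  ext i j
  fin_cases i <;> fin_cases j <;> simp [qq]

theorem qq_smul' (r : ℂ) (z : Fin 3 → ℂ) : qq (r • z) = r • qq z := by
  ext i j
  fin_cases i <;> fin_cases j <;> simp [qq]

theorem sg_lin (M : M3) : ∃ S : (Fin 3 → ℂ) →ₗ[ℂ] (Ix → ℂ), ∀ z, S z = sg M z := by
  refine ⟨{ toFun := sg M, map_add' := ?_, map_smul' := ?_ }, fun z => rfl⟩
  · intro z w
    unfold sg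
    have h1 : (qq z + qq w) * M - M * (qq z + qq w) =
        (qq z * M - M * qq z) + (qq w * M - M * qq w) := by
      rw [add_mul, mul_add]; abel
    rw [qq_add', h1, Phi_add', Phi_add']
    abel
  · intro r z
    unfold sg
    have h1 : (r • qq z) * M - M * (r • qq z) = r • (qq z * M - M * qq z) := by
      rw [smul_mul_assoc, mul_smul_comm, smul_sub]
    rw [qq_smul', h1, Phi_smul', Phi_smul', RingHom.id_apply, smul_add]

end Fano612
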