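import Pool.Agent.Helper612.Fano.Defs
import Pool.Agent.Helper612.Fano.P_Phi_bil
import Pool.Agent.Helper612.Fano.P_act_Phi
import Pool.Agent.Helper612.Fano.P_act_mem
import Pool.Agent.Helper612.Fano.P_W_map

set_option autoImplicit false
set_option linter.unusedVariables false
set_option linter.unusedSectionVars false

open MvPolynomial

namespace Fano612



theorem sgt_diff {ι : Type} [Fintype ι] (F : MvPolynomial ι ℂ) :
    Differentiable ℂ (fun x : ι → ℂ => eval x F) := by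
  induction F using MvPolynomial.induction_on with
  | C a => simp
  | add p q hp hq =>
    have e : (fun x : ι → ℂ => eval x (p + q)) = (fun x => eval x p) + fun x => eval x q := by
      funext x
      simp
    rw [e]
    exact hp.add hq
  | mul_X p i hp =>
    have e : (fun x : ι → ℂ => eval x (p * X i)) = (fun x => eval x p) * fun x => x i := by
      funext x
      simp
    rw [e]
    exact hp.mul (differentiable_apply (𝕜 := ℂ) (F' := fun _ : ι => ℂ) i)

theorem sgt_poly (a b c d f : ℂ) :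
    HasDerivAt (fun t : ℂ => a + t * b + t ^ 2 * c + t ^ 3 * d + t ^ 4 * f) b 0 := by
  have h1 := (hasDerivAt_id (0 : ℂ)).mul_const b
  have h2 := ((hasDerivAt_id (0 : ℂ)).pow 2).mul_const c
  have h3 := ((hasDerivAt_id (0 : ℂ)).pow 3).mul_const d
  have h4 := ((hasDerivAt_id (0 : ℂ)).pow 4).mul_const f
  have h5 := ((((hasDerivAt_const (0 : ℂ) a).add h1).add h2).add h3).add h4
  refine (h5.congr_deriv (by simp)).congr_of_eventuallyEq (Filter.Eventually.of_forall fun t => ?_)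
  rfl

theorem sgt_expand (P0 P1 P2 Q0 Q1 Q2 : M3) (t : ℂ) :
    Phi (P0 + t • P1 + t ^ 2 • P2) (Q0 + t • Q1 + t ^ 2 • Q2) =
      Phi P0 Q0 + t • (Phi P1 Q0 + Phi P0 Q1) + t ^ 2 • (Phi P0 Q2 + Phi P1 Q1 + Phi P2 Q0) +
        t ^ 3 • (Phi P1 Q2 + Phi P2 Q1) + t ^ 4 • Phi P2 Q2 := by
  have hl : ∀ (P P' Q : M3) (a : ℂ), Phi (P + a • P') Q = Phi P Q + a • Phi P' Q :=
    fun P P' Q a => (Phi_bil P P' Q 0 a).1
  have hr : ∀ (P Q Q' : M3) (a : ℂ), Phi P (Q + a • Q') = Phi P Q + a • Phi P Q' :=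
    fun P Q Q' a => (Phi_bil P 0 Q Q' a).2
  rw [hl, hl, hr, hr, hr, hr, hr, hr]
  module

theorem sg_tang {M : M3} (hM : M * M = 0) {z : Fin 3 → ℂ} (hz : z ≠ 0) :
    sg M z ∈ tang XX (Phi hh (qq z)) := by
  obtain ⟨B, hB1, _, hB3⟩ := W_map
  have he : Phi hh (qq z) ∈ XX := by
    rw [← hB1]
    exact hB3 z hz
  intro F hF hX
  have hgk : ∀ t : ℂ, (1 + t • M) * (1 - t • M) = 1 := by
    intro t
    rw [add_mul, mul_sub, mul_sub, one_mul, mul_one, one_mul, smul_mul_assoc, mul_smul_comm, hM]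
    simp
  have hconj : ∀ (P : M3) (t : ℂ), (1 - t • M) * P * (1 + t • M) =
      P + t • (P * M - M * P) + t ^ 2 • (-(M * P * M)) := by
    intro P t
    rw [sub_mul, one_mul, mul_add, mul_one, sub_mul, smul_mul_assoc, mul_smul_comm,
      smul_mul_assoc, mul_smul_comm]
    module
  let c : ℂ → (Ix → ℂ) := fun t => act (1 + t • M) (1 - t • M) (Phi hh (qq z))
  have hcX : ∀ t, c t ∈ XX := fun t => (act_mem (hgk t) _).2 he
  have hc : ∀ t, c t = Phi hh (qq z) + t • sg M z +
      t ^ 2 • (Phi hh (-(M * qq z * M)) + Phi (hh * M - M * hh) (qq z * M - M * qq z) +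
        Phi (-(M * hh * M)) (qq z)) +
      t ^ 3 • (Phi (hh * M - M * hh) (-(M * qq z * M)) +
        Phi (-(M * hh * M)) (qq z * M - M * qq z)) +
      t ^ 4 • Phi (-(M * hh * M)) (-(M * qq z * M)) := by
    intro t
    show act (1 + t • M) (1 - t • M) (Phi hh (qq z)) = _
    rw [act_Phi (hgk t), hconj, hconj, sgt_expand]
    rfl
  have hc0 : c 0 = Phi hh (qq z) := by
    rw [hc 0]
    simp
  have hder : HasDerivAt c (sg M z) 0 := by
    rw [hasDerivAt_pi]
    intro x
    refine HasDerivAt.congr_of_eventuallyEq (sgt_poly (Phi hh (qq z) x) (sg M z x)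
      ((Phi hh (-(M * qq z * M)) + Phi (hh * M - M * hh) (qq z * M - M * qq z) +
        Phi (-(M * hh * M)) (qq z)) x)
      ((Phi (hh * M - M * hh) (-(M * qq z * M)) +
        Phi (-(M * hh * M)) (qq z * M - M * qq z)) x)
      (Phi (-(M * hh * M)) (-(M * qq z * M)) x)) (Filter.Eventually.of_forall fun t => ?_)
    show c t x = _
    rw [hc t]
    rfl
  have h1 : HasFDerivAt (fun x : Ix → ℂ => eval x F)
      (fderiv ℂ (fun x : Ix → ℂ => eval x F) (c 0)) (c 0) :=
    (sgt_diff F (c 0)).hasFDerivAt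
  have h2 := h1.comp_hasDerivAt (0 : ℂ) hder
  have h3 : ((fun x : Ix → ℂ => eval x F) ∘ c) = fun _ => 0 := by
    funext t
    exact hX _ (hcX t)
  rw [h3] at h2
  have h4 := h2.unique (hasDerivAt_const (0 : ℂ) (0 : ℂ))
  rw [hc0] at h4
  exact h4

end Fano612
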