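import Pool.Agent.Helper612.Fano.Defs
import Pool.Agent.Helper612.Fano.P_tang_dim
import Pool.Agent.Helper612.Fano.P_atlas_exists
import Pool.Agent.Helper612.Fano.P_W_map
import Pool.Agent.Helper612.Fano.P_sg_lin
import Pool.Agent.Helper612.Fano.P_sg_tang
import Pool.Agent.Helper612.Fano.P_sg_indep

set_option autoImplicit false
set_option linter.unusedVariables false
set_option linter.unusedSectionVars false

open MvPolynomial

namespace Fano612



theorem triv_line_tang {W : Submodule ℂ (Ix → ℂ)} {X : Set (Ix → ℂ)}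
    (hW : ∀ w ∈ W, w ≠ 0 → w ∈ X) {w : Ix → ℂ} (hw : w ∈ W) (hw0 : w ≠ 0) : W ≤ tang X w := by
  intro w' hw' F hF hX
  have hd : DifferentiableAt ℂ (fun x : Ix → ℂ => eval x F) w :=
    ((AnalyticOnNhd.eval_mvPolynomial F) w (Set.mem_univ _)).differentiableAt
  have h1 : HasDerivAt (fun τ : ℂ => eval (w + τ • w') F)
      (fderiv ℂ (fun x : Ix → ℂ => eval x F) w w') 0 := by
    have hl : HasDerivAt (fun τ : ℂ => w + τ • w') w' 0 := by
      simpa using ((hasDerivAt_id (0 : ℂ)).smul_const w').const_add w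
    have e0 : w + (0 : ℂ) • w' = w := by simp
    have := HasFDerivAt.comp_hasDerivAt_of_eq (f := fun τ : ℂ => w + τ • w') (0 : ℂ)
      hd.hasFDerivAt hl (by simp)
    exact this
  have h2 : (fun τ : ℂ => eval (w + τ • w') F) =ᶠ[nhds 0] fun _ => 0 := by
    have : ∀ᶠ τ in nhds (0:ℂ), w + τ • w' ≠ 0 := by
      have hc : ContinuousAt (fun τ : ℂ => w + τ • w') 0 := by fun_prop
      apply hc.eventually_ne
      simpa using hw0
    filter_upwards [this] with τ hτ
    exact hX _ (hW _ (W.add_mem hw (W.smul_mem _ hw')) hτ)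
  have h3 := h1.congr_of_eventuallyEq h2.symm
  exact h3.unique (hasDerivAt_const _ _)

theorem Mb_sq (a : Fin 4) : Mb a * Mb a = 0 := by
  fin_cases a <;> ext i j <;> fin_cases i <;> fin_cases j <;>
    simp [Mb, Matrix.mul_apply, Fin.sum_univ_three]

theorem triv_XX : ∃ W : Submodule ℂ (Ix → ℂ), TrivialNormal XX 6 2 W := by
  obtain ⟨B, hB, hinj, hBX⟩ := W_map
  choose S hS using sg_lin
  let e := LinearEquiv.ofInjective B hinj
  have he : ∀ z, ((e z : LinearMap.range B) : Ix → ℂ) = B z := fun z => rfl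
  have hfr : Module.finrank ℂ (LinearMap.range B) = 3 := by
    rw [LinearMap.finrank_range_of_inj hinj]; simp
  have hWX : ∀ w ∈ LinearMap.range B, w ≠ 0 → w ∈ XX := by
    rintro _ ⟨z, rfl⟩ hz
    exact hBX z (by rintro rfl; exact hz (map_zero _))
  refine ⟨LinearMap.range B, hfr, hWX, fun a => (S (Mb a)) ∘ₗ e.symm.toLinearMap, ?_⟩
  intro w hw
  obtain ⟨z, rfl⟩ := e.surjective w
  have hz : z ≠ 0 := by rintro rfl; exact hw (map_zero _)
  have hσ : ∀ a : Fin 4, (S (Mb a) ∘ₗ e.symm.toLinearMap) (e z) = sg (Mb a) z := by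
    intro a
    simp [hS]
  have hmem : ∀ a : Fin 4, sg (Mb a) z ∈ tang XX (B z) := by
    intro a
    rw [hB]
    exact sg_tang (Mb_sq a) hz
  have hBz : B z ≠ 0 := by
    intro h
    exact hz (hinj (by rw [h, map_zero]))
  have hWt : LinearMap.range B ≤ tang XX (B z) :=
    triv_line_tang hWX ⟨z, rfl⟩ hBz
  obtain ⟨A, _⟩ := atlas_exists
  obtain ⟨i, hi⟩ := A.cover (B z) (hBX z hz)
  have hdim : Module.finrank ℂ (tang XX (B z)) = 7 := tang_dim (A.c i) (e := B z) ⟨hBX z hz, hi⟩
  have hind : ∀ (c : Fin 4 → ℂ), ∑ a, c a • sg (Mb a) z ∈ LinearMap.range B → c = 0 := by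
    rintro c ⟨z', hz'⟩
    exact sg_indep hz c z' (by rw [← hz', hB])
  refine ⟨fun a => ?_, ?_⟩
  · show (S (Mb a) ∘ₗ e.symm.toLinearMap) (e z) ∈ tang XX (B z)
    rw [hσ]; exact hmem a
  · intro y hy
    have hy' : y ∈ tang XX (B z) := hy
    -- the linear map
    let L0 : ((Fin 4 → ℂ) × (Fin 3 → ℂ)) →ₗ[ℂ] (Ix → ℂ) :=
      LinearMap.coprod (Fintype.linearCombination ℂ (fun a : Fin 4 => sg (Mb a) z)) B
    have hL0 : ∀ p, L0 p = ∑ a, p.1 a • sg (Mb a) z + B p.2 := by
      intro p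
      simp [L0, LinearMap.coprod_apply, Fintype.linearCombination_apply]
    have hL0inj : Function.Injective L0 := by
      rw [← LinearMap.ker_eq_bot, LinearMap.ker_eq_bot']
      intro p hp
      rw [hL0] at hp
      have h1 : p.1 = 0 := hind p.1 ⟨-p.2, by rw [map_neg]; exact (eq_neg_of_add_eq_zero_left hp).symm⟩
      rw [h1] at hp
      simp only [Pi.zero_apply, zero_smul, Finset.sum_const_zero, zero_add] at hp
      have h2 : p.2 = 0 := hinj (by rw [hp, map_zero])
      exact Prod.ext h1 h2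
    have hrange : LinearMap.range L0 = tang XX (B z) := by
      apply Submodule.eq_of_le_of_finrank_eq
      · rintro _ ⟨p, rfl⟩
        rw [hL0]
        exact Submodule.add_mem _ (Submodule.sum_mem _ (fun a _ => Submodule.smul_mem _ _ (hmem a)))
          (hWt ⟨p.2, rfl⟩)
      · rw [hdim, LinearMap.finrank_range_of_inj hL0inj]
        simp
    rw [← hrange] at hy'
    obtain ⟨p, hp⟩ := hy'
    rw [hL0] at hp
    refine ⟨p.1, ?_, ?_⟩
    · show y - ∑ a : Fin 4, p.1 a • (S (Mb a) ∘ₗ e.symm.toLinearMap) (e z) ∈ LinearMap.range B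
      simp only [hσ]
      rw [← hp, add_sub_cancel_left]
      exact ⟨_, rfl⟩
    · intro c hc
      have hc' : y - ∑ a : Fin 4, c a • (S (Mb a) ∘ₗ e.symm.toLinearMap) (e z) ∈ LinearMap.range B := hc
      simp only [hσ] at hc'
      have h1 : y - ∑ a : Fin 4, p.1 a • sg (Mb a) z ∈ LinearMap.range B := by
        rw [← hp, add_sub_cancel_left]
        exact ⟨_, rfl⟩
      have h2 := Submodule.sub_mem _ h1 hc'
      have h3 : (y - ∑ a : Fin 4, p.1 a • sg (Mb a) z) - (y - ∑ a : Fin 4, c a • sg (Mb a) z)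
          = ∑ a, (c - p.1) a • sg (Mb a) z := by
        simp only [Pi.sub_apply, sub_smul, Finset.sum_sub_distrib]
        abel
      rw [h3] at h2
      have h4 := hind _ h2
      exact sub_eq_zero.mp h4

end Fano612
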