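import Mathlib

set_option autoImplicit false
set_option linter.unusedVariables false
set_option linter.unusedSectionVars false

open MvPolynomial

namespace Fano612

/-! ## General notions. Points of the projective space with homogeneous coordinates indexed by `ι`
are represented by nonzero vectors `ι → ℂ`; subsets by the cones over them without the vertex. -/

section General

variable {ι : Type} [Fintype ι]

/-- a form is a homogeneous polynomial -/
def IsForm (F : MvPolynomial ι ℂ) : Prop := ∃ d : ℕ, F.IsHomogeneous d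

/-- closed subsets of the projective space: zero sets of forms -/
def IsClosedCone (X : Set (ι → ℂ)) : Prop :=
  ∃ S : Set (MvPolynomial ι ℂ), (∀ F ∈ S, IsForm F) ∧ X = {v | v ≠ 0 ∧ ∀ F ∈ S, eval v F = 0}

/-- irreducible subsets of the projective space -/
def IsIrr (X : Set (ι → ℂ)) : Prop :=
  X.Nonempty ∧ ∀ F G : MvPolynomial ι ℂ, IsForm F → IsForm G →
    (∀ v ∈ X, eval v F = 0 ∨ eval v G = 0) → (∀ v ∈ X, eval v F = 0) ∨ (∀ v ∈ X, eval v G = 0)

/-- The affine tangent space of `X` at `v`: the common kernel of the differentials at `v` of all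
forms vanishing on `X`. -/
noncomputable def tang (X : Set (ι → ℂ)) (v : ι → ℂ) : Submodule ℂ (ι → ℂ) where
  carrier := {w | ∀ F : MvPolynomial ι ℂ, IsForm F → (∀ u ∈ X, eval u F = 0) →
    fderiv ℂ (fun x : ι → ℂ => eval x F) v w = 0}
  zero_mem' := by intro F _ _; exact map_zero _
  add_mem' := by
    intro a b ha hb F hF hX
    rw [map_add, ha F hF hX, hb F hF hX, add_zero]
  smul_mem' := by
    intro c a ha F hF hX
    rw [map_smul, ha F hF hX, smul_zero]

/-- `X` is a smooth irreducible closed subvariety of dimension `n` of the projective space -/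
structure IsSmoothVar (X : Set (ι → ℂ)) (n : ℕ) : Prop where
  closed : IsClosedCone X
  irr : IsIrr X
  smooth : ∀ v ∈ X, Module.finrank ℂ (tang X v) = n + 1

/-- `U` is a Zariski open subset of `X` -/
def ZOpen (X U : Set (ι → ℂ)) : Prop :=
  U ⊆ X ∧ ∀ v ∈ U, ∃ F : MvPolynomial ι ℂ, IsForm F ∧ eval v F ≠ 0 ∧
    ∀ w ∈ X, eval w F ≠ 0 → w ∈ U

/-- `h` is a section of `O(m)` over `U`: locally `h = F / G` with forms `F`, `G` such that
`deg F = deg G + m`, and `G` without zeros. -/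
def IsSec (U : Set (ι → ℂ)) (m : ℤ) (h : (ι → ℂ) → ℂ) : Prop :=
  ∀ v ∈ U, ∃ (F G : MvPolynomial ι ℂ) (p q : ℕ), F.IsHomogeneous p ∧ G.IsHomogeneous q ∧
    (p : ℤ) = q + m ∧ eval v G ≠ 0 ∧ ∀ w ∈ U, eval w G ≠ 0 → h w = eval w F / eval w G

/-- a line bundle on `X`, given by transition functions on a Zariski open cover;
its sections over `V` are the families `f i` of functions on `V ∩ U i` with
`f i = g i j * f j`. -/
structure LineBundle (X : Set (ι → ℂ)) where
  I : Type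
  U : I → Set (ι → ℂ)
  g : I → I → (ι → ℂ) → ℂ
  isOpen : ∀ i, ZOpen X (U i)
  cover : ∀ v ∈ X, ∃ i, v ∈ U i
  reg : ∀ i j, IsSec (U i ∩ U j) 0 (g i j)
  ne_zero : ∀ i j, ∀ v ∈ U i ∩ U j, g i j v ≠ 0
  cocycle : ∀ i j k, ∀ v ∈ U i ∩ U j ∩ U k, g i j v * g j k v = g i k v

/-- `L ≅ O_X(m)`: the isomorphism is `f ↦ (f * h i)_i`. -/
def LineBundle.IsO {X : Set (ι → ℂ)} (L : LineBundle X) (m : ℤ) : Prop :=
  ∃ h : L.I → (ι → ℂ) → ℂ, (∀ i, IsSec (L.U i) (-m) (h i)) ∧ (∀ i, ∀ v ∈ L.U i, h i v ≠ 0) ∧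
    ∀ i j, ∀ v ∈ L.U i ∩ L.U j, h i v = L.g i j v * h j v

/-- `Pic X = ℤ`, generated by `O_X(1)`: every line bundle is isomorphic to `O_X(m)` for exactly
one integer `m`. -/
def PicZ (X : Set (ι → ℂ)) : Prop := ∀ L : LineBundle X, ∃! m : ℤ, L.IsO m

/-- `-K_X ≅ O_X(d)` for a smooth `X` of dimension `n`. If `T` is the vector bundle with fibres
`tang X v` (a subbundle of the trivial bundle with fibre `ι → ℂ`), then the tangent bundle of `X`
is `(T / O(-1)) ⊗ O(1)`, so `-K_X = det T ⊗ O(n + 1)`, and `δ` is an isomorphism of `det T` with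
`O_X(d - (n + 1))`. -/
def AntiCan (X : Set (ι → ℂ)) (n : ℕ) (d : ℤ) : Prop :=
  ∃ δ : (ι → ℂ) → (ι → ℂ) [⋀^Fin (n + 1)]→ₗ[ℂ] ℂ,
    (∀ v ∈ X, ∃ w : Fin (n + 1) → (ι → ℂ), (∀ a, w a ∈ tang X v) ∧ δ v w ≠ 0) ∧
    ∀ U : Set (ι → ℂ), ZOpen X U → ∀ w : Fin (n + 1) → (ι → ℂ) → (ι → ℂ),
      (∀ a, ∀ v ∈ U, w a v ∈ tang X v) → (∀ a b, IsSec U 0 (fun v => w a v b)) →
      IsSec U (d - (n + 1)) (fun v => δ v (fun a => w a v))

/-- The linear space `P(W)` is contained in `X`, has dimension `k`, and its normal bundle in `X`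
is trivial: the normal bundle is `(T / W) ⊗ O(1)`, a subbundle of `((ι → ℂ) / W) ⊗ O(1)`, whose
global sections are the linear maps from `W`; there are `n - k` global sections `σ a` of the normal
bundle that form a basis of the fibre at each point of `P(W)`. -/
def TrivialNormal (X : Set (ι → ℂ)) (n k : ℕ) (W : Submodule ℂ (ι → ℂ)) : Prop :=
  Module.finrank ℂ W = k + 1 ∧ (∀ w ∈ W, w ≠ 0 → w ∈ X) ∧
  ∃ σ : Fin (n - k) → W →ₗ[ℂ] (ι → ℂ), ∀ w : W, w ≠ 0 →
    (∀ a, σ a w ∈ tang X w) ∧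
    ∀ y ∈ tang X w, ∃! c : Fin (n - k) → ℂ, y - ∑ a, c a • σ a w ∈ W

end General

end Fano612
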